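import Mathlib

open Set Filter Topology
open scoped ContDiff

namespace Pool.Agent.Helper700

section Definitions

variable {E : Type} [NormedAddCommGroup E] [NormedSpace ℝ E]

/-- `Ω` is a symplectic form on the open subset `M` of the real vector space `E`: a smooth field of
alternating nondegenerate bilinear forms with exterior derivative zero. -/
structure SymplecticOn (M : Set E) (Ω : E → E →L[ℝ] E →L[ℝ] ℝ) : Prop where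
  isOpen : IsOpen M
  smooth : ContDiffOn ℝ ∞ Ω M
  alternating : ∀ x ∈ M, ∀ v, Ω x v v = 0
  nondegenerate : ∀ x ∈ M, ∀ v, (∀ w, Ω x v w = 0) → v = 0
  closed : ∀ x ∈ M, ∀ u v w,
    fderiv ℝ Ω x u v w + fderiv ℝ Ω x v w u + fderiv ℝ Ω x w u v = 0

/-- `φ` restricts to a smooth diffeomorphism of `M` onto `M` preserving `Ω` and equal to the
identity off `K`. -/
structure IsSymplectomorphism (M : Set E) (Ω : E → E →L[ℝ] E →L[ℝ] ℝ) (K : Set E)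
    (φ : E → E) : Prop where
  smooth : ContDiffOn ℝ ∞ φ M
  mapsTo : MapsTo φ M M
  inverse : ∃ χ : E → E, ContDiffOn ℝ ∞ χ M ∧ MapsTo χ M M ∧
    ∀ x ∈ M, χ (φ x) = x ∧ φ (χ x) = x
  symplectic : ∀ x ∈ M, ∀ v w, Ω (φ x) (fderiv ℝ φ x v) (fderiv ℝ φ x w) = Ω x v w
  support : ∀ x ∈ M, x ∉ K → φ x = x

/-- The identity component `Symp_{c,0}(M, Ω)`: time-one maps of smooth paths, starting at the
identity, of symplectomorphisms of `M` supported in one fixed compact subset of `M`. -/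
def SympC0 (M : Set E) (Ω : E → E →L[ℝ] E →L[ℝ] ℝ) : Set (E → E) :=
  {φ | ∃ K ⊆ M, IsCompact K ∧ ∃ Φ : ℝ → E → E,
    ContDiffOn ℝ ∞ (fun p : ℝ × E => Φ p.1 p.2) (Icc (0 : ℝ) 1 ×ˢ M) ∧
    (∀ t ∈ Icc (0 : ℝ) 1, IsSymplectomorphism M Ω K (Φ t)) ∧
    (∀ x ∈ M, Φ 0 x = x) ∧ ∀ x ∈ M, Φ 1 x = φ x}

/-- The group `Ham_c(M, Ω)`: time-one maps of the flows `Φ` of the time-dependent vector fields
`X_t` with `Ω(X_t, ·) = dH_t`, for a smooth `H : [0,1] × M → ℝ` supported in `[0,1] × K`,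
`K ⊆ M` compact. -/
def HamC (M : Set E) (Ω : E → E →L[ℝ] E →L[ℝ] ℝ) : Set (E → E) :=
  {φ | ∃ K ⊆ M, IsCompact K ∧ ∃ (H : ℝ → E → ℝ) (Φ : ℝ → E → E),
    ContDiffOn ℝ ∞ (fun p : ℝ × E => H p.1 p.2) (Icc (0 : ℝ) 1 ×ˢ M) ∧
    (∀ t ∈ Icc (0 : ℝ) 1, ∀ x ∈ M, x ∉ K → H t x = 0) ∧
    ContDiffOn ℝ ∞ (fun p : ℝ × E => Φ p.1 p.2) (Icc (0 : ℝ) 1 ×ˢ M) ∧
    (∀ t ∈ Icc (0 : ℝ) 1, MapsTo (Φ t) M M) ∧
    (∀ x ∈ M, Φ 0 x = x) ∧
    (∀ t ∈ Icc (0 : ℝ) 1, ∀ x ∈ M, ∃ X : E,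
      HasDerivWithinAt (fun s => Φ s x) X (Icc (0 : ℝ) 1) t ∧
        ∀ v, Ω (Φ t x) X v = fderiv ℝ (H t) (Φ t x) v) ∧
    ∀ x ∈ M, Φ 1 x = φ x}

end Definitions

end Pool.Agent.Helper700
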