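import Mathlib
import Pool.Agent.Helper700.Defs

open Set Filter Topology
open scoped ContDiff

namespace Pool.Agent.Helper700

section IsoAlgebra

variable {E : Type} [NormedAddCommGroup E] [NormedSpace ℝ E]
variable {F : Type} [NormedAddCommGroup F] [NormedSpace ℝ F]

/-- joint smoothness on `ℝ × W` -/
def Smooth2 (W : Set E) (f : ℝ → E → F) : Prop :=
  ∀ t, ∀ x ∈ W, ContDiffAt ℝ ∞ (fun p : ℝ × E => f p.1 p.2) (t, x)

lemma Smooth2.contDiffOn {W : Set E} {f : ℝ → E → F} (h : Smooth2 W f) (S : Set ℝ) :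
    ContDiffOn ℝ ∞ (fun p : ℝ × E => f p.1 p.2) (S ×ˢ W) := by
  rintro ⟨t, x⟩ ⟨_, hx⟩
  exact (h t x hx).contDiffWithinAt

lemma Smooth2.differentiableAt {W : Set E} {f : ℝ → E → F} (h : Smooth2 W f) (t : ℝ) {x : E}
    (hx : x ∈ W) : DifferentiableAt ℝ (fun p : ℝ × E => f p.1 p.2) (t, x) :=
  (h t x hx).differentiableAt (by simp)

lemma hasFDerivAt_slice {f : ℝ → E → F} {t : ℝ} {x : E} {L : ℝ × E →L[ℝ] F}
    (h : HasFDerivAt (fun p : ℝ × E => f p.1 p.2) L (t, x)) :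
    HasFDerivAt (f t) (L.comp (ContinuousLinearMap.inr ℝ ℝ E)) x := by
  have h1 : HasFDerivAt (fun y : E => (t, y)) (ContinuousLinearMap.inr ℝ ℝ E) x :=
    hasFDerivAt_prodMk_right t x
  exact h.comp x h1

lemma hasDerivAt_slice {f : ℝ → E → F} {t : ℝ} {x : E} {L : ℝ × E →L[ℝ] F}
    (h : HasFDerivAt (fun p : ℝ × E => f p.1 p.2) L (t, x)) :
    HasDerivAt (fun s => f s x) (L (1, 0)) t := by
  have h1 : HasDerivAt (fun s : ℝ => (s, x)) ((1 : ℝ), (0 : E)) t :=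
    (hasDerivAt_id t).prodMk (hasDerivAt_const t x)
  exact h.comp_hasDerivAt t h1

lemma Smooth2.slice {W : Set E} {f : ℝ → E → F} (h : Smooth2 W f) (t : ℝ) {x : E}
    (hx : x ∈ W) : ContDiffAt ℝ ∞ (f t) x := by
  have h1 : ContDiffAt ℝ ∞ (fun y : E => (t, y)) x := contDiffAt_const.prodMk contDiffAt_id
  exact (h t x hx).comp x h1

lemma Smooth2.slice_time {W : Set E} {f : ℝ → E → F} (h : Smooth2 W f) (t : ℝ) {x : E}
    (hx : x ∈ W) : DifferentiableAt ℝ (fun s => f s x) t :=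
  (hasDerivAt_slice (h.differentiableAt t hx).hasFDerivAt).differentiableAt

/-- derivative of a composed isotopy -/
lemma hasDerivAt_comp2 {f : ℝ → E → F} {g : ℝ → E} {t : ℝ} {g' : E}
    (h : DifferentiableAt ℝ (fun p : ℝ × E => f p.1 p.2) (t, g t)) (hg : HasDerivAt g g' t) :
    HasDerivAt (fun s => f s (g s)) (deriv (fun s => f s (g t)) t + fderiv ℝ (f t) (g t) g') t := by
  obtain ⟨L, hL⟩ := h
  rw [(hasDerivAt_slice hL).deriv, (hasFDerivAt_slice hL).fderiv]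
  have h1 : HasDerivAt (fun s : ℝ => (s, g s)) ((1 : ℝ), g') t := (hasDerivAt_id t).prodMk hg
  have h2 := hL.comp_hasDerivAt t h1
  refine h2.congr_deriv ?_
  rw [ContinuousLinearMap.comp_apply, ContinuousLinearMap.inr_apply, ← map_add]
  simp

/-- A smooth family of symplectomorphisms of `W` with inverse and generating Hamiltonian. -/
structure Iso (W : Set E) (Ω : E → E →L[ℝ] E →L[ℝ] ℝ) where
  Φ : ℝ → E → E
  Γ : ℝ → E → E
  H : ℝ → E → ℝ
  hΦ : Smooth2 W Φ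
  hΓ : Smooth2 W Γ
  hH : Smooth2 W H
  mapsΦ : ∀ t, MapsTo (Φ t) W W
  mapsΓ : ∀ t, MapsTo (Γ t) W W
  left : ∀ t, ∀ x ∈ W, Γ t (Φ t x) = x
  right : ∀ t, ∀ x ∈ W, Φ t (Γ t x) = x
  symp : ∀ t, ∀ x ∈ W, ∀ v w, Ω (Φ t x) (fderiv ℝ (Φ t) x v) (fderiv ℝ (Φ t) x w) = Ω x v w
  ham : ∀ t, ∀ x ∈ W, ∀ v, Ω (Φ t x) (deriv (fun s => Φ s x) t) v = fderiv ℝ (H t) (Φ t x) v

lemma Smooth2.comp {W : Set E} {G : Type} [NormedAddCommGroup G] [NormedSpace ℝ G]
    {f : ℝ → E → G} {g : ℝ → E → E} (hf : Smooth2 W f) (hg : Smooth2 W g)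
    (hm : ∀ t, MapsTo (g t) W W) : Smooth2 W (fun t x => f t (g t x)) := by
  intro t x hx
  have h1 : ContDiffAt ℝ ∞ (fun p : ℝ × E => (p.1, g p.1 p.2)) (t, x) :=
    contDiffAt_fst.prodMk (hg t x hx)
  exact (hf t (g t x) (hm t hx)).comp (t, x) h1

/-- chain rule for the inverse: `DΦ (DΓ v) = v`. -/
lemma Iso.deriv_inv {W : Set E} {Ω : E → E →L[ℝ] E →L[ℝ] ℝ} (hW : IsOpen W) (P : Iso W Ω)
    (t : ℝ) {x : E} (hx : x ∈ W) (v : E) :
    fderiv ℝ (P.Φ t) x (fderiv ℝ (P.Γ t) (P.Φ t x) v) = v := by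
  have hy : P.Φ t x ∈ W := P.mapsΦ t hx
  have h1 : DifferentiableAt ℝ (P.Φ t) x := (P.hΦ.slice t hx).differentiableAt (by simp)
  have h2 : DifferentiableAt ℝ (P.Γ t) (P.Φ t x) := (P.hΓ.slice t hy).differentiableAt (by simp)
  have h3 : P.Γ t (P.Φ t x) = x := P.left t x hx
  have h1' : HasFDerivAt (P.Φ t) (fderiv ℝ (P.Φ t) x) (P.Γ t (P.Φ t x)) := by
    rw [h3]; exact h1.hasFDerivAt
  have h4 := h1'.comp (P.Φ t x) h2.hasFDerivAt
  have h5 : (P.Φ t ∘ P.Γ t) =ᶠ[𝓝 (P.Φ t x)] id := by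
    filter_upwards [hW.mem_nhds hy] with y hy'
    exact P.right t y hy'
  have h6 : HasFDerivAt (P.Φ t ∘ P.Γ t) (ContinuousLinearMap.id ℝ E) (P.Φ t x) :=
    (hasFDerivAt_id _).congr_of_eventuallyEq h5
  have h7 := h4.unique h6
  have := congrArg (fun L : E →L[ℝ] E => L v) h7
  simpa using this

/-- composition of two isotopies -/
def Iso.comp {W : Set E} {Ω : E → E →L[ℝ] E →L[ℝ] ℝ} (hW : IsOpen W) (P Q : Iso W Ω) :
    Iso W Ω where
  Φ t x := P.Φ t (Q.Φ t x)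
  Γ t x := Q.Γ t (P.Γ t x)
  H t x := P.H t x + Q.H t (P.Γ t x)
  hΦ := P.hΦ.comp Q.hΦ Q.mapsΦ
  hΓ := Q.hΓ.comp P.hΓ P.mapsΓ
  hH := fun t x hx => (P.hH t x hx).add ((Q.hH.comp P.hΓ P.mapsΓ) t x hx)
  mapsΦ t := (P.mapsΦ t).comp (Q.mapsΦ t)
  mapsΓ t := (Q.mapsΓ t).comp (P.mapsΓ t)
  left t x hx := by
    rw [P.left t _ (Q.mapsΦ t hx), Q.left t x hx]
  right t x hx := by
    rw [Q.right t _ (P.mapsΓ t hx), P.right t x hx]
  symp t x hx v w := by
    have h1 : DifferentiableAt ℝ (Q.Φ t) x := (Q.hΦ.slice t hx).differentiableAt (by simp)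
    have h2 : DifferentiableAt ℝ (P.Φ t) (Q.Φ t x) :=
      (P.hΦ.slice t (Q.mapsΦ t hx)).differentiableAt (by simp)
    have h3 : fderiv ℝ (fun y => P.Φ t (Q.Φ t y)) x =
        (fderiv ℝ (P.Φ t) (Q.Φ t x)).comp (fderiv ℝ (Q.Φ t) x) :=
      (h2.hasFDerivAt.comp x h1.hasFDerivAt).fderiv
    rw [h3]
    simp only [ContinuousLinearMap.comp_apply]
    rw [P.symp t _ (Q.mapsΦ t hx), Q.symp t x hx]
  ham t x hx v := by
    have hy := Q.mapsΦ t hx
    have hz := P.mapsΦ t hy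
    have h1 : HasDerivAt (fun s => Q.Φ s x) (deriv (fun s => Q.Φ s x) t) t :=
      (Q.hΦ.slice_time t hx).hasDerivAt
    have h2 := hasDerivAt_comp2 (f := P.Φ) (g := fun s => Q.Φ s x)
      (P.hΦ.differentiableAt t hy) h1
    rw [h2.deriv, map_add, ContinuousLinearMap.add_apply, P.ham t _ hy v]
    have h3 : DifferentiableAt ℝ (P.H t) (P.Φ t (Q.Φ t x)) :=
      (P.hH.slice t hz).differentiableAt (by simp)
    have h4 : DifferentiableAt ℝ (P.Γ t) (P.Φ t (Q.Φ t x)) :=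
      (P.hΓ.slice t hz).differentiableAt (by simp)
    have h5 : DifferentiableAt ℝ (Q.H t) (Q.Φ t x) :=
      (Q.hH.slice t hy).differentiableAt (by simp)
    have h5' : HasFDerivAt (Q.H t) (fderiv ℝ (Q.H t) (Q.Φ t x)) (P.Γ t (P.Φ t (Q.Φ t x))) := by
      rw [P.left t _ hy]; exact h5.hasFDerivAt
    have h6 : fderiv ℝ (fun y => P.H t y + Q.H t (P.Γ t y)) (P.Φ t (Q.Φ t x)) =
        fderiv ℝ (P.H t) (P.Φ t (Q.Φ t x)) +
          (fderiv ℝ (Q.H t) (Q.Φ t x)).comp (fderiv ℝ (P.Γ t) (P.Φ t (Q.Φ t x))) :=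
      (h3.hasFDerivAt.add (h5'.comp _ h4.hasFDerivAt)).fderiv
    rw [h6, ContinuousLinearMap.add_apply, ContinuousLinearMap.comp_apply, ← Q.ham t x hx]
    rw [← P.symp t _ hy, P.deriv_inv hW t hy]

/-- time rescaling -/
def Iso.speed {W : Set E} {Ω : E → E →L[ℝ] E →L[ℝ] ℝ} (P : Iso W Ω) (c : ℝ) : Iso W Ω where
  Φ t x := P.Φ (c * t) x
  Γ t x := P.Γ (c * t) x
  H t x := c * P.H (c * t) x
  hΦ := fun t x hx => (P.hΦ (c * t) x hx).comp (t, x)
    ((contDiffAt_const.mul contDiffAt_fst).prodMk contDiffAt_snd)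
  hΓ := fun t x hx => (P.hΓ (c * t) x hx).comp (t, x)
    ((contDiffAt_const.mul contDiffAt_fst).prodMk contDiffAt_snd)
  hH := fun t x hx => contDiffAt_const.mul ((P.hH (c * t) x hx).comp (t, x)
    ((contDiffAt_const.mul contDiffAt_fst).prodMk contDiffAt_snd))
  mapsΦ t := P.mapsΦ _
  mapsΓ t := P.mapsΓ _
  left t := P.left _
  right t := P.right _
  symp t := P.symp _
  ham t x hx v := by
    have h1 : HasDerivAt (fun s => P.Φ s x) (deriv (fun s => P.Φ s x) (c * t)) (c * t) :=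
      (P.hΦ.slice_time _ hx).hasDerivAt
    have h2 : HasDerivAt (fun s : ℝ => c * s) c t := by
      simpa using (hasDerivAt_id t).const_mul c
    have h3 : HasDerivAt (fun s => P.Φ (c * s) x) (c • deriv (fun s => P.Φ s x) (c * t)) t :=
      h1.scomp t h2
    rw [h3.deriv, map_smul, ContinuousLinearMap.smul_apply, P.ham _ x hx]
    have h4 : DifferentiableAt ℝ (P.H (c * t)) (P.Φ (c * t) x) :=
      (P.hH.slice _ (P.mapsΦ _ hx)).differentiableAt (by simp)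
    have h5 : fderiv ℝ (fun y => c * P.H (c * t) y) (P.Φ (c * t) x) =
        c • fderiv ℝ (P.H (c * t)) (P.Φ (c * t) x) := (h4.hasFDerivAt.const_mul c).fderiv
    rw [h5, ContinuousLinearMap.smul_apply]

/-- conjugation by a symplectomorphism `A` with inverse `B` -/
def Iso.conj {W : Set E} {Ω : E → E →L[ℝ] E →L[ℝ] ℝ} (hW : IsOpen W) (P : Iso W Ω)
    (A B : E → E) (hA : ∀ x ∈ W, ContDiffAt ℝ ∞ A x) (hB : ∀ x ∈ W, ContDiffAt ℝ ∞ B x)
    (mA : MapsTo A W W) (mB : MapsTo B W W) (hAB : ∀ x ∈ W, A (B x) = x)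
    (hBA : ∀ x ∈ W, B (A x) = x)
    (sA : ∀ x ∈ W, ∀ v w, Ω (A x) (fderiv ℝ A x v) (fderiv ℝ A x w) = Ω x v w)
    (sB : ∀ x ∈ W, ∀ v w, Ω (B x) (fderiv ℝ B x v) (fderiv ℝ B x w) = Ω x v w) : Iso W Ω where
  Φ t x := A (P.Φ t (B x))
  Γ t x := A (P.Γ t (B x))
  H t x := P.H t (B x)
  hΦ := fun t x hx => by
    have h1 : ContDiffAt ℝ ∞ (fun p : ℝ × E => (p.1, B p.2)) (t, x) :=
      contDiffAt_fst.prodMk ((hB x hx).comp (t, x) contDiffAt_snd)
    have h2 := (P.hΦ t (B x) (mB hx)).comp (t, x) h1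
    exact (hA _ (P.mapsΦ t (mB hx))).comp (t, x) h2
  hΓ := fun t x hx => by
    have h1 : ContDiffAt ℝ ∞ (fun p : ℝ × E => (p.1, B p.2)) (t, x) :=
      contDiffAt_fst.prodMk ((hB x hx).comp (t, x) contDiffAt_snd)
    have h2 := (P.hΓ t (B x) (mB hx)).comp (t, x) h1
    exact (hA _ (P.mapsΓ t (mB hx))).comp (t, x) h2
  hH := fun t x hx => by
    have h1 : ContDiffAt ℝ ∞ (fun p : ℝ × E => (p.1, B p.2)) (t, x) :=
      contDiffAt_fst.prodMk ((hB x hx).comp (t, x) contDiffAt_snd)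
    exact (P.hH t (B x) (mB hx)).comp (t, x) h1
  mapsΦ t := fun x hx => mA (P.mapsΦ t (mB hx))
  mapsΓ t := fun x hx => mA (P.mapsΓ t (mB hx))
  left t x hx := by
    rw [hBA _ (P.mapsΦ t (mB hx)), P.left t _ (mB hx), hAB x hx]
  right t x hx := by
    rw [hBA _ (P.mapsΓ t (mB hx)), P.right t _ (mB hx), hAB x hx]
  symp t x hx v w := by
    have hy := P.mapsΦ t (mB hx)
    have h1 : DifferentiableAt ℝ B x := (hB x hx).differentiableAt (by simp)
    have h2 : DifferentiableAt ℝ (P.Φ t) (B x) :=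
      (P.hΦ.slice t (mB hx)).differentiableAt (by simp)
    have h3 : DifferentiableAt ℝ A (P.Φ t (B x)) := (hA _ hy).differentiableAt (by simp)
    have h4 : fderiv ℝ (fun y => A (P.Φ t (B y))) x =
        (fderiv ℝ A (P.Φ t (B x))).comp ((fderiv ℝ (P.Φ t) (B x)).comp (fderiv ℝ B x)) :=
      (h3.hasFDerivAt.comp x (h2.hasFDerivAt.comp x h1.hasFDerivAt)).fderiv
    rw [h4]
    simp only [ContinuousLinearMap.comp_apply]
    rw [sA _ hy, P.symp t _ (mB hx), sB x hx]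
  ham t x hx v := by
    have hb := mB hx
    have hy := P.mapsΦ t hb
    have h3 : DifferentiableAt ℝ A (P.Φ t (B x)) := (hA _ hy).differentiableAt (by simp)
    have h1 : HasDerivAt (fun s => P.Φ s (B x)) (deriv (fun s => P.Φ s (B x)) t) t :=
      (P.hΦ.slice_time t hb).hasDerivAt
    have h4 : HasDerivAt (fun s => A (P.Φ s (B x)))
        (fderiv ℝ A (P.Φ t (B x)) (deriv (fun s => P.Φ s (B x)) t)) t :=
      h3.hasFDerivAt.comp_hasDerivAt t h1
    rw [h4.deriv]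
    have hz : A (P.Φ t (B x)) ∈ W := mA hy
    have h5 : DifferentiableAt ℝ B (A (P.Φ t (B x))) := (hB _ hz).differentiableAt (by simp)
    have h6 : DifferentiableAt ℝ (P.H t) (P.Φ t (B x)) :=
      (P.hH.slice t hy).differentiableAt (by simp)
    have h6' : HasFDerivAt (P.H t) (fderiv ℝ (P.H t) (P.Φ t (B x))) (B (A (P.Φ t (B x)))) := by
      rw [hBA _ hy]; exact h6.hasFDerivAt
    have h7 : fderiv ℝ (fun y => P.H t (B y)) (A (P.Φ t (B x))) =
        (fderiv ℝ (P.H t) (P.Φ t (B x))).comp (fderiv ℝ B (A (P.Φ t (B x)))) :=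
      (h6'.comp _ h5.hasFDerivAt).fderiv
    rw [h7, ContinuousLinearMap.comp_apply, ← P.ham t _ hb]
    rw [← sA _ hy]
    congr 1
    -- `DA (DB v) = v`
    have h8 : HasFDerivAt A (fderiv ℝ A (P.Φ t (B x))) (B (A (P.Φ t (B x)))) := by
      rw [hBA _ hy]; exact h3.hasFDerivAt
    have h9 := h8.comp (A (P.Φ t (B x))) h5.hasFDerivAt
    have h10 : (A ∘ B) =ᶠ[𝓝 (A (P.Φ t (B x)))] id := by
      filter_upwards [hW.mem_nhds hz] with y hy'
      exact hAB y hy'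
    have h11 : HasFDerivAt (A ∘ B) (ContinuousLinearMap.id ℝ E) (A (P.Φ t (B x))) :=
      (hasFDerivAt_id _).congr_of_eventuallyEq h10
    have := congrArg (fun L : E →L[ℝ] E => L v) (h9.unique h11)
    simpa using this.symm

end IsoAlgebra

end Pool.Agent.Helper700
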