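import Mathlib
import Pool.Agent.Helper700.Iso

open Set Filter Topology MeasureTheory
open scoped ContDiff

namespace Pool.Agent.Helper700

section Stokes

variable {E : Type} [NormedAddCommGroup E] [NormedSpace ℝ E]
variable {X : Type} [NormedAddCommGroup X] [NormedSpace ℝ X]
variable {M : Set E} {Ω : E → E →L[ℝ] E →L[ℝ] ℝ}

/-- partial derivative -/
noncomputable def pd (f : X → E) (e : X) (x : X) : E := fderiv ℝ f x e

lemma contDiff_pd {f : X → E} (hf : ContDiff ℝ ∞ f) (e : X) : ContDiff ℝ ∞ (pd f e) := by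
  have h1 : ContDiff ℝ ∞ (fderiv ℝ f) := hf.fderiv_right (by simp)
  exact h1.clm_apply contDiff_const

lemma fderiv_pd {f : X → E} (hf : ContDiff ℝ ∞ f) (e e' x : X) :
    fderiv ℝ (pd f e) x e' = fderiv ℝ (fderiv ℝ f) x e' e := by
  have h1 : ContDiff ℝ ∞ (fderiv ℝ f) := hf.fderiv_right (by simp)
  have h2 : HasFDerivAt (fderiv ℝ f) (fderiv ℝ (fderiv ℝ f) x) x :=
    ((h1.differentiable (by simp)).differentiableAt).hasFDerivAt
  have h3 := h2.clm_apply (hasFDerivAt_const e x)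
  have h4 : HasFDerivAt (pd f e) _ x := h3
  rw [h4.fderiv]
  simp

lemma pd_comm {f : X → E} (hf : ContDiff ℝ ∞ f) (e e' x : X) :
    fderiv ℝ (pd f e) x e' = fderiv ℝ (pd f e') x e := by
  rw [fderiv_pd hf, fderiv_pd hf]
  have h : IsSymmSndFDerivAt ℝ f x :=
    hf.contDiffAt.isSymmSndFDerivAt (by
      rw [minSmoothness_of_isRCLikeNormedField]
      exact WithTop.coe_le_coe.2 le_top)
  exact h e' e

/-- the pulled back form evaluated on two coordinate directions -/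
noncomputable def pb (Ω : E → E →L[ℝ] E →L[ℝ] ℝ) (f : X → E) (e e' : X) (x : X) : ℝ :=
  Ω (f x) (pd f e x) (pd f e' x)

lemma contDiffAt_pb (h : SymplecticOn M Ω) {f : X → E} (hf : ContDiff ℝ ∞ f) (e e' : X) {x : X}
    (hx : f x ∈ M) : ContDiffAt ℝ ∞ (pb Ω f e e') x := by
  have h1 : ContDiffAt ℝ ∞ (fun x => Ω (f x)) x :=
    ((h.smooth.contDiffAt (h.isOpen.mem_nhds hx)).comp x hf.contDiffAt)
  exact (h1.clm_apply (contDiff_pd hf e).contDiffAt).clm_apply (contDiff_pd hf e').contDiffAt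

lemma fderiv_pb (h : SymplecticOn M Ω) {f : X → E} (hf : ContDiff ℝ ∞ f) (e e' u : X) {x : X}
    (hx : f x ∈ M) : fderiv ℝ (pb Ω f e e') x u =
      fderiv ℝ Ω (f x) (pd f u x) (pd f e x) (pd f e' x) +
      Ω (f x) (fderiv ℝ (pd f e) x u) (pd f e' x) +
      Ω (f x) (pd f e x) (fderiv ℝ (pd f e') x u) := by
  have h0 : HasFDerivAt Ω (fderiv ℝ Ω (f x)) (f x) :=
    ((h.smooth.contDiffAt (h.isOpen.mem_nhds hx)).differentiableAt (by simp)).hasFDerivAt
  have h1 : HasFDerivAt f (fderiv ℝ f x) x :=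
    ((hf.differentiable (by simp)).differentiableAt).hasFDerivAt
  have h2 : HasFDerivAt (pd f e) (fderiv ℝ (pd f e) x) x :=
    (((contDiff_pd hf e).differentiable (by simp)).differentiableAt).hasFDerivAt
  have h3 : HasFDerivAt (pd f e') (fderiv ℝ (pd f e') x) x :=
    (((contDiff_pd hf e').differentiable (by simp)).differentiableAt).hasFDerivAt
  have h01 : HasFDerivAt (fun x => Ω (f x)) ((fderiv ℝ Ω (f x)).comp (fderiv ℝ f x)) x :=
    HasFDerivAt.comp (G := E →L[ℝ] E →L[ℝ] ℝ) (g := Ω) x h0 h1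
  have h02 : HasFDerivAt (fun x => Ω (f x) (pd f e x)) _ x := h01.clm_apply h2
  have h5 : HasFDerivAt (pb Ω f e e') _ x := h02.clm_apply h3
  rw [h5.fderiv]
  simp [pd]
  ring

/-- closedness of the pulled back form -/
lemma div_zero (h : SymplecticOn M Ω) {f : X → E} (hf : ContDiff ℝ ∞ f) (e₀ e₁ e₂ : X) {x : X}
    (hx : f x ∈ M) : fderiv ℝ (pb Ω f e₁ e₂) x e₀ + fderiv ℝ (pb Ω f e₂ e₀) x e₁ +
      fderiv ℝ (pb Ω f e₀ e₁) x e₂ = 0 := by
  rw [fderiv_pb h hf _ _ _ hx, fderiv_pb h hf _ _ _ hx, fderiv_pb h hf _ _ _ hx]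
  have hc := h.closed (f x) hx (pd f e₀ x) (pd f e₁ x) (pd f e₂ x)
  have hanti : ∀ v w, Ω (f x) v w = - Ω (f x) w v := by
    intro v w
    have h1 := h.alternating (f x) hx (v + w)
    simp only [map_add, add_apply] at h1
    rw [h.alternating (f x) hx v, h.alternating (f x) hx w] at h1
    linarith
  rw [pd_comm hf e₁ e₀, pd_comm hf e₂ e₀, pd_comm hf e₂ e₁]
  rw [hanti (pd f e₁ x) (fderiv ℝ (pd f e₀) x e₂), hanti (pd f e₂ x) (fderiv ℝ (pd f e₀) x e₁),
    hanti (pd f e₀ x) (fderiv ℝ (pd f e₁) x e₂)]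
  linarith

/-- the divergence-free field attached to a map of a box -/
noncomputable def fld (Ω : E → E →L[ℝ] E →L[ℝ] ℝ) (f : (Fin 3 → ℝ) → E) (x : Fin 3 → ℝ) :
    Fin 3 → ℝ :=
  ![pb Ω f (Pi.single 1 1) (Pi.single 2 1) x, pb Ω f (Pi.single 2 1) (Pi.single 0 1) x,
    pb Ω f (Pi.single 0 1) (Pi.single 1 1) x]

lemma contDiffAt_fld (h : SymplecticOn M Ω) {f : (Fin 3 → ℝ) → E} (hf : ContDiff ℝ ∞ f)
    {x : Fin 3 → ℝ} (hx : f x ∈ M) : ContDiffAt ℝ ∞ (fld Ω f) x := by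
  rw [contDiffAt_pi]
  intro i
  fin_cases i
  · exact contDiffAt_pb h hf _ _ hx
  · exact contDiffAt_pb h hf _ _ hx
  · exact contDiffAt_pb h hf _ _ hx

lemma fderiv_fld (h : SymplecticOn M Ω) {f : (Fin 3 → ℝ) → E} (hf : ContDiff ℝ ∞ f)
    {x : Fin 3 → ℝ} (hx : f x ∈ M) :
    ∑ i, fderiv ℝ (fld Ω f) x (Pi.single i 1) i = 0 := by
  have h1 : DifferentiableAt ℝ (fld Ω f) x := (contDiffAt_fld h hf hx).differentiableAt (by simp)
  have h2 : ∀ i (u : Fin 3 → ℝ), fderiv ℝ (fld Ω f) x u i =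
      fderiv ℝ (fun y => fld Ω f y i) x u := by
    intro i u
    have h3 := (hasFDerivAt_pi'.1 h1.hasFDerivAt) i
    rw [h3.fderiv]
    simp
  rw [Fin.sum_univ_three, h2, h2, h2]
  exact div_zero h hf (Pi.single 0 1) (Pi.single 1 1) (Pi.single 2 1) hx

lemma pd_congr_line {f g : X → E} (hf : ContDiff ℝ ∞ f) (hg : ContDiff ℝ ∞ g) {e x : X}
    (h : ∀ t : ℝ, f (x + t • e) = g (x + t • e)) : pd f e x = pd g e x := by
  have h1 : HasFDerivAt f (fderiv ℝ f x) x :=
    ((hf.differentiable (by simp)).differentiableAt).hasFDerivAt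
  have h2 : HasFDerivAt g (fderiv ℝ g x) x :=
    ((hg.differentiable (by simp)).differentiableAt).hasFDerivAt
  have h3 : HasDerivAt (fun t : ℝ => x + t • e) e 0 := by
    simpa using ((hasDerivAt_id (0 : ℝ)).smul_const e).const_add x
  have h1' : HasFDerivAt f (fderiv ℝ f x) (x + (0 : ℝ) • e) := by simpa using h1
  have h2' : HasFDerivAt g (fderiv ℝ g x) (x + (0 : ℝ) • e) := by simpa using h2
  have h4 : HasDerivAt (fun t : ℝ => f (x + t • e)) (fderiv ℝ f x e) 0 :=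
    h1'.comp_hasDerivAt (0 : ℝ) h3
  have h5 : HasDerivAt (fun t : ℝ => g (x + t • e)) (fderiv ℝ g x e) 0 :=
    h2'.comp_hasDerivAt (0 : ℝ) h3
  have h6 : (fun t : ℝ => f (x + t • e)) = fun t : ℝ => g (x + t • e) := funext h
  rw [h6] at h4
  exact h4.unique h5

lemma stokes_diff (h : SymplecticOn M Ω) {f g : (Fin 3 → ℝ) → E} (hf : ContDiff ℝ ∞ f)
    (hg : ContDiff ℝ ∞ g) (a b : Fin 3 → ℝ) (hab : a ≤ b) (hfM : ∀ x ∈ Icc a b, f x ∈ M)
    (hgM : ∀ x ∈ Icc a b, g x ∈ M)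
    (h1 : ∀ x : Fin 3 → ℝ, (x 1 = a 1 ∨ x 1 = b 1) → f x = g x)
    (h2 : ∀ x : Fin 3 → ℝ, (x 2 = a 2 ∨ x 2 = b 2) → f x = g x) :
    ∫ y in Icc (a ∘ (0 : Fin 3).succAbove) (b ∘ (0 : Fin 3).succAbove),
      (fld Ω f ((0 : Fin 3).insertNth (b 0) y) 0 - fld Ω g ((0 : Fin 3).insertNth (b 0) y) 0) =
    ∫ y in Icc (a ∘ (0 : Fin 3).succAbove) (b ∘ (0 : Fin 3).succAbove),
      (fld Ω f ((0 : Fin 3).insertNth (a 0) y) 0 - fld Ω g ((0 : Fin 3).insertNth (a 0) y) 0) := by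
  have hcd : ∀ x ∈ Icc a b, ContDiffAt ℝ ∞ (fun x => fld Ω f x - fld Ω g x) x := fun x hx =>
    (contDiffAt_fld h hf (hfM x hx)).sub (contDiffAt_fld h hg (hgM x hx))
  have hder : ∀ x ∈ Icc a b, ∑ i, (fderiv ℝ (fun x => fld Ω f x - fld Ω g x) x)
      (Pi.single i 1) i = 0 := by
    intro x hx
    have e1 : DifferentiableAt ℝ (fld Ω f) x :=
      (contDiffAt_fld h hf (hfM x hx)).differentiableAt (by simp)
    have e2 : DifferentiableAt ℝ (fld Ω g) x :=
      (contDiffAt_fld h hg (hgM x hx)).differentiableAt (by simp)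
    have e3 : fderiv ℝ (fun x => fld Ω f x - fld Ω g x) x =
        fderiv ℝ (fld Ω f) x - fderiv ℝ (fld Ω g) x := (e1.hasFDerivAt.sub e2.hasFDerivAt).fderiv
    have e4 := fderiv_fld h hf (hfM x hx)
    have e5 := fderiv_fld h hg (hgM x hx)
    rw [e3]
    simp only [Fin.sum_univ_three] at e4 e5 ⊢
    simp only [sub_apply, Pi.sub_apply]
    linarith
  have hint : IntegrableOn (fun x => ∑ i, (fderiv ℝ (fun x => fld Ω f x - fld Ω g x) x)
      (Pi.single i 1) i) (Icc a b) volume := by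
    have : IntegrableOn (fun _ : Fin 3 → ℝ => (0 : ℝ)) (Icc a b) volume := integrableOn_zero
    exact this.congr_fun (fun x hx => (hder x hx).symm) measurableSet_Icc
  have key := integral_divergence_of_hasFDerivAt_off_countable a b hab
    (fun x => fld Ω f x - fld Ω g x) (fun x => fderiv ℝ (fun x => fld Ω f x - fld Ω g x) x) ∅
    countable_empty (fun x hx => (hcd x hx).continuousAt.continuousWithinAt)
    (fun x hx => by
      have hx' : x ∈ Icc a b := by
        rw [← Set.pi_univ_Icc]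
        exact fun i hi => ⟨(hx.1 i hi).1.le, (hx.1 i hi).2.le⟩
      exact ((hcd x hx').differentiableAt (by simp)).hasFDerivAt) hint
  rw [setIntegral_congr_fun measurableSet_Icc hder, integral_zero, Fin.sum_univ_three] at key
  have hface1 : ∀ x : Fin 3 → ℝ, (x 1 = a 1 ∨ x 1 = b 1) → fld Ω f x 1 = fld Ω g x 1 := by
    intro x hx
    have e0 : pd f (Pi.single 0 1) x = pd g (Pi.single 0 1) x := by
      apply pd_congr_line hf hg
      intro t
      apply h1
      simpa using hx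
    have e2 : pd f (Pi.single 2 1) x = pd g (Pi.single 2 1) x := by
      apply pd_congr_line hf hg
      intro t
      apply h1
      simpa using hx
    change pb Ω f (Pi.single 2 1) (Pi.single 0 1) x = pb Ω g (Pi.single 2 1) (Pi.single 0 1) x
    simp only [pb]
    rw [h1 x hx, e0, e2]
  have hface2 : ∀ x : Fin 3 → ℝ, (x 2 = a 2 ∨ x 2 = b 2) → fld Ω f x 2 = fld Ω g x 2 := by
    intro x hx
    have e0 : pd f (Pi.single 0 1) x = pd g (Pi.single 0 1) x := by
      apply pd_congr_line hf hg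
      intro t
      apply h2
      simpa using hx
    have e2 : pd f (Pi.single 1 1) x = pd g (Pi.single 1 1) x := by
      apply pd_congr_line hf hg
      intro t
      apply h2
      simpa using hx
    change pb Ω f (Pi.single 0 1) (Pi.single 1 1) x = pb Ω g (Pi.single 0 1) (Pi.single 1 1) x
    simp only [pb]
    rw [h2 x hx, e0, e2]
  simp only [Pi.sub_apply] at key
  have z1 : ∀ (c : ℝ) (hc : c = a 1 ∨ c = b 1) (y : Fin 2 → ℝ),
      fld Ω f ((1 : Fin 3).insertNth c y) 1 - fld Ω g ((1 : Fin 3).insertNth c y) 1 = 0 := by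
    intro c hc y
    rw [hface1 _ (by simpa using hc), sub_self]
  have z2 : ∀ (c : ℝ) (hc : c = a 2 ∨ c = b 2) (y : Fin 2 → ℝ),
      fld Ω f ((2 : Fin 3).insertNth c y) 2 - fld Ω g ((2 : Fin 3).insertNth c y) 2 = 0 := by
    intro c hc y
    rw [hface2 _ (by simpa using hc), sub_self]
  simp only [z1 (b 1) (Or.inr rfl), z1 (a 1) (Or.inl rfl), z2 (b 2) (Or.inr rfl),
    z2 (a 2) (Or.inl rfl), integral_zero, sub_self, add_zero] at key
  linarith

end Stokes

end Pool.Agent.Helper700
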