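import Mathlib
import Pool.Agent.Helper700.Stokes

open Set Filter Topology MeasureTheory
open scoped ContDiff

namespace Pool.Agent.Helper700

section Area

variable {E : Type} [NormedAddCommGroup E] [NormedSpace ℝ E]
variable {M : Set E} {Ω : E → E →L[ℝ] E →L[ℝ] ℝ}

/-- density of the pulled back form for a map of the plane -/
noncomputable def dens (Ω : E → E →L[ℝ] E →L[ℝ] ℝ) (f : ℝ × ℝ → E) (p : ℝ × ℝ) : ℝ :=
  pb Ω f ((1 : ℝ), (0 : ℝ)) ((0 : ℝ), (1 : ℝ)) p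

/-- projection of 3-space to the last two coordinates -/
def pr (x : Fin 3 → ℝ) : ℝ × ℝ := (x 1, x 2)

lemma contDiff_pr : ContDiff ℝ ∞ pr :=
  (contDiff_apply ℝ ℝ (1 : Fin 3)).prodMk (contDiff_apply ℝ ℝ (2 : Fin 3))

/-- linear interpolation -/
noncomputable def mix (f₀ f₁ : ℝ × ℝ → E) (x : Fin 3 → ℝ) : E :=
  (1 - x 0) • f₀ (pr x) + x 0 • f₁ (pr x)

lemma contDiff_mix {f₀ f₁ : ℝ × ℝ → E} (h₀ : ContDiff ℝ ∞ f₀) (h₁ : ContDiff ℝ ∞ f₁) :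
    ContDiff ℝ ∞ (mix f₀ f₁) := by
  have hx : ContDiff ℝ ∞ (fun x : Fin 3 → ℝ => x 0) := contDiff_apply ℝ ℝ (0 : Fin 3)
  exact ((contDiff_const.sub hx).smul (h₀.comp contDiff_pr)).add (hx.smul (h₁.comp contDiff_pr))

lemma pd_comp_pr {f : ℝ × ℝ → E} (hf : ContDiff ℝ ∞ f) (e x : Fin 3 → ℝ) :
    pd (fun x => f (pr x)) e x = pd f (pr e) (pr x) := by
  have h1 : HasFDerivAt pr
      ((ContinuousLinearMap.proj (R := ℝ) (φ := fun _ : Fin 3 => ℝ) 1).prod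
        (ContinuousLinearMap.proj (R := ℝ) (φ := fun _ : Fin 3 => ℝ) 2)) x :=
    ((ContinuousLinearMap.proj (R := ℝ) (φ := fun _ : Fin 3 => ℝ) 1).hasFDerivAt).prodMk
      ((ContinuousLinearMap.proj (R := ℝ) (φ := fun _ : Fin 3 => ℝ) 2).hasFDerivAt)
  have h2 : HasFDerivAt f (fderiv ℝ f (pr x)) (pr x) :=
    ((hf.differentiable (by simp)).differentiableAt).hasFDerivAt
  have h3 : HasFDerivAt (fun x => f (pr x)) _ x := h2.comp x h1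
  simp only [pd]
  rw [h3.fderiv]
  rfl

lemma fld_mix_zero {f₀ f₁ : ℝ × ℝ → E} (h₀ : ContDiff ℝ ∞ f₀) (h₁ : ContDiff ℝ ∞ f₁)
    (y : Fin 2 → ℝ) :
    fld Ω (mix f₀ f₁) ((0 : Fin 3).insertNth (0 : ℝ) y) 0 = dens Ω f₀ (y 0, y 1) := by
  set x : Fin 3 → ℝ := (0 : Fin 3).insertNth (0 : ℝ) y with hx
  have hx0 : x 0 = 0 := by simp [hx]
  have hpr : pr x = (y 0, y 1) := by
    simp only [pr, hx]
    rfl
  have hc : ContDiff ℝ ∞ (fun x => f₀ (pr x)) := h₀.comp contDiff_pr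
  have e1 : pd (mix f₀ f₁) (Pi.single 1 1) x = pd f₀ ((1 : ℝ), (0 : ℝ)) (y 0, y 1) := by
    rw [pd_congr_line (contDiff_mix h₀ h₁) hc (e := Pi.single 1 1) (x := x) (fun t => ?_),
      pd_comp_pr h₀, hpr]
    · congr 1
    · simp [mix, hx0]
  have e2 : pd (mix f₀ f₁) (Pi.single 2 1) x = pd f₀ ((0 : ℝ), (1 : ℝ)) (y 0, y 1) := by
    rw [pd_congr_line (contDiff_mix h₀ h₁) hc (e := Pi.single 2 1) (x := x) (fun t => ?_),
      pd_comp_pr h₀, hpr]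
    · congr 1
    · simp [mix, hx0]
  change pb Ω (mix f₀ f₁) (Pi.single 1 1) (Pi.single 2 1) x = _
  simp only [pb, dens, e1, e2]
  have e3 : mix f₀ f₁ x = f₀ (y 0, y 1) := by
    simp [mix, hx0, hpr]
  rw [e3]

lemma fld_mix_one {f₀ f₁ : ℝ × ℝ → E} (h₀ : ContDiff ℝ ∞ f₀) (h₁ : ContDiff ℝ ∞ f₁)
    (y : Fin 2 → ℝ) :
    fld Ω (mix f₀ f₁) ((0 : Fin 3).insertNth (1 : ℝ) y) 0 = dens Ω f₁ (y 0, y 1) := by
  set x : Fin 3 → ℝ := (0 : Fin 3).insertNth (1 : ℝ) y with hx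
  have hx0 : x 0 = 1 := by simp [hx]
  have hpr : pr x = (y 0, y 1) := by
    simp only [pr, hx]
    rfl
  have hc : ContDiff ℝ ∞ (fun x => f₁ (pr x)) := h₁.comp contDiff_pr
  have e1 : pd (mix f₀ f₁) (Pi.single 1 1) x = pd f₁ ((1 : ℝ), (0 : ℝ)) (y 0, y 1) := by
    rw [pd_congr_line (contDiff_mix h₀ h₁) hc (e := Pi.single 1 1) (x := x) (fun t => ?_),
      pd_comp_pr h₁, hpr]
    · congr 1
    · simp [mix, hx0]
  have e2 : pd (mix f₀ f₁) (Pi.single 2 1) x = pd f₁ ((0 : ℝ), (1 : ℝ)) (y 0, y 1) := by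
    rw [pd_congr_line (contDiff_mix h₀ h₁) hc (e := Pi.single 2 1) (x := x) (fun t => ?_),
      pd_comp_pr h₁, hpr]
    · congr 1
    · simp [mix, hx0]
  change pb Ω (mix f₀ f₁) (Pi.single 1 1) (Pi.single 2 1) x = _
  simp only [pb, dens, e1, e2]
  have e3 : mix f₀ f₁ x = f₁ (y 0, y 1) := by
    simp [mix, hx0, hpr]
  rw [e3]

/-- the area difference of two squares with common boundary -/
noncomputable def Zarea (Ω : E → E →L[ℝ] E →L[ℝ] ℝ) (n : ℝ) (f g : ℝ × ℝ → E) : ℝ :=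
  ∫ y in Icc (![0, -n] : Fin 2 → ℝ) ![1, n], (dens Ω f (y 0, y 1) - dens Ω g (y 0, y 1))

lemma Zarea_eq (h : SymplecticOn M Ω) {n : ℝ} (hn : 0 ≤ n) {f₀ f₁ g₀ g₁ : ℝ × ℝ → E}
    (hf₀ : ContDiff ℝ ∞ f₀) (hf₁ : ContDiff ℝ ∞ f₁) (hg₀ : ContDiff ℝ ∞ g₀)
    (hg₁ : ContDiff ℝ ∞ g₁)
    (hb₀ : ∀ s w, (s = 0 ∨ s = 1 ∨ w = -n ∨ w = n) → f₀ (s, w) = g₀ (s, w))
    (hb₁ : ∀ s w, (s = 0 ∨ s = 1 ∨ w = -n ∨ w = n) → f₁ (s, w) = g₁ (s, w))
    (hf : ∀ r ∈ Icc (0 : ℝ) 1, ∀ s ∈ Icc (0 : ℝ) 1, ∀ w ∈ Icc (-n) n,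
      (1 - r) • f₀ (s, w) + r • f₁ (s, w) ∈ M)
    (hg : ∀ r ∈ Icc (0 : ℝ) 1, ∀ s ∈ Icc (0 : ℝ) 1, ∀ w ∈ Icc (-n) n,
      (1 - r) • g₀ (s, w) + r • g₁ (s, w) ∈ M) : Zarea Ω n f₀ g₀ = Zarea Ω n f₁ g₁ := by
  have hab : (![0, 0, -n] : Fin 3 → ℝ) ≤ ![1, 1, n] := by
    intro i
    fin_cases i
    · simp
    · simp
    · simp; linarith
  have hmem : ∀ x ∈ Icc (![0, 0, -n] : Fin 3 → ℝ) ![1, 1, n],
      x 0 ∈ Icc (0 : ℝ) 1 ∧ x 1 ∈ Icc (0 : ℝ) 1 ∧ x 2 ∈ Icc (-n) n := by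
    intro x hx
    refine ⟨⟨?_, ?_⟩, ⟨?_, ?_⟩, ⟨?_, ?_⟩⟩
    · simpa using hx.1 0
    · simpa using hx.2 0
    · simpa using hx.1 1
    · simpa using hx.2 1
    · simpa using hx.1 2
    · simpa using hx.2 2
  have key := stokes_diff h (contDiff_mix hf₀ hf₁) (contDiff_mix hg₀ hg₁)
    (![0, 0, -n] : Fin 3 → ℝ) ![1, 1, n] hab
    (fun x hx => hf _ (hmem x hx).1 _ (hmem x hx).2.1 _ (hmem x hx).2.2)
    (fun x hx => hg _ (hmem x hx).1 _ (hmem x hx).2.1 _ (hmem x hx).2.2)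
    (fun x hx => by
      have hx' : x 1 = 0 ∨ x 1 = 1 ∨ x 2 = -n ∨ x 2 = n := by
        rcases hx with hx | hx
        · left; simpa using hx
        · right; left; simpa using hx
      simp only [mix, pr]
      rw [hb₀ _ _ hx', hb₁ _ _ hx'])
    (fun x hx => by
      have hx' : x 1 = 0 ∨ x 1 = 1 ∨ x 2 = -n ∨ x 2 = n := by
        rcases hx with hx | hx
        · right; right; left; simpa using hx
        · right; right; right; simpa using hx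
      simp only [mix, pr]
      rw [hb₀ _ _ hx', hb₁ _ _ hx'])
  have ha : (![0, 0, -n] : Fin 3 → ℝ) ∘ (0 : Fin 3).succAbove = ![0, -n] := by
    funext i; fin_cases i <;> rfl
  have hb : (![1, 1, n] : Fin 3 → ℝ) ∘ (0 : Fin 3).succAbove = ![1, n] := by
    funext i; fin_cases i <;> rfl
  have ha0 : (![0, 0, -n] : Fin 3 → ℝ) 0 = 0 := rfl
  have hb0 : (![1, 1, n] : Fin 3 → ℝ) 0 = 1 := rfl
  rw [ha, hb, ha0, hb0] at key
  simp only [fld_mix_zero hf₀ hf₁, fld_mix_zero hg₀ hg₁, fld_mix_one hf₀ hf₁,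
    fld_mix_one hg₀ hg₁] at key
  exact key.symm

/-- exact densities integrate to boundary terms -/
lemma integral_exact {n : ℝ} (hn : 0 ≤ n) {h : ℝ × ℝ → ℝ} (hh : ContDiff ℝ ∞ h) :
    ∫ y in Icc (![0, -n] : Fin 2 → ℝ) ![1, n], pd h ((0 : ℝ), (1 : ℝ)) (y 0, y 1) =
      ∫ y in Icc (![0] : Fin 1 → ℝ) ![1], (h (y 0, n) - h (y 0, -n)) := by
  have hab : (![0, -n] : Fin 2 → ℝ) ≤ ![1, n] := by
    intro i
    fin_cases i
    · simp
    · simp; linarith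
  have hp : ContDiff ℝ ∞ (fun y : Fin 2 → ℝ => (y 0, y 1)) :=
    (contDiff_apply ℝ ℝ (0 : Fin 2)).prodMk (contDiff_apply ℝ ℝ (1 : Fin 2))
  have hF : ContDiff ℝ ∞ (fun y : Fin 2 → ℝ => (![0, h (y 0, y 1)] : Fin 2 → ℝ)) := by
    rw [contDiff_pi]
    intro i
    fin_cases i
    · exact contDiff_const
    · exact hh.comp hp
  have hd : ∀ y : Fin 2 → ℝ, ∑ i, fderiv ℝ (fun y : Fin 2 → ℝ =>
      (![0, h (y 0, y 1)] : Fin 2 → ℝ)) y (Pi.single i 1) i =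
        pd h ((0 : ℝ), (1 : ℝ)) (y 0, y 1) := by
    intro y
    have h1 : DifferentiableAt ℝ (fun y : Fin 2 → ℝ => (![0, h (y 0, y 1)] : Fin 2 → ℝ)) y :=
      (hF.differentiable (by simp)).differentiableAt
    have h2 : ∀ i (u : Fin 2 → ℝ), fderiv ℝ (fun y : Fin 2 → ℝ =>
        (![0, h (y 0, y 1)] : Fin 2 → ℝ)) y u i =
        fderiv ℝ (fun y : Fin 2 → ℝ => (![0, h (y 0, y 1)] : Fin 2 → ℝ) i) y u := by
      intro i u
      have h3 := (hasFDerivAt_pi'.1 h1.hasFDerivAt) i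
      rw [h3.fderiv]
      simp
    rw [Fin.sum_univ_two, h2, h2]
    have h4 : (fun y : Fin 2 → ℝ => (![0, h (y 0, y 1)] : Fin 2 → ℝ) 0) = fun _ => 0 := rfl
    have h5 : (fun y : Fin 2 → ℝ => (![0, h (y 0, y 1)] : Fin 2 → ℝ) 1) =
        fun y => h (y 0, y 1) := rfl
    rw [h4, h5]
    have h6 : HasFDerivAt (fun y : Fin 2 → ℝ => (y 0, y 1))
        ((ContinuousLinearMap.proj (R := ℝ) (φ := fun _ : Fin 2 => ℝ) 0).prod
        (ContinuousLinearMap.proj (R := ℝ) (φ := fun _ : Fin 2 => ℝ) 1)) y :=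
      ((ContinuousLinearMap.proj (R := ℝ) (φ := fun _ : Fin 2 => ℝ) 0).hasFDerivAt).prodMk
        ((ContinuousLinearMap.proj (R := ℝ) (φ := fun _ : Fin 2 => ℝ) 1).hasFDerivAt)
    have h7 : HasFDerivAt h (fderiv ℝ h (y 0, y 1)) (y 0, y 1) :=
      ((hh.differentiable (by simp)).differentiableAt).hasFDerivAt
    have h8 : HasFDerivAt (fun y : Fin 2 → ℝ => h (y 0, y 1)) _ y :=
      HasFDerivAt.comp (g := h) y h7 h6
    rw [h8.fderiv]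
    simp [pd]
  have key := integral_divergence_of_hasFDerivAt_off_countable (![0, -n] : Fin 2 → ℝ) ![1, n] hab
    (fun y : Fin 2 → ℝ => (![0, h (y 0, y 1)] : Fin 2 → ℝ))
    (fun y => fderiv ℝ (fun y : Fin 2 → ℝ => (![0, h (y 0, y 1)] : Fin 2 → ℝ)) y) ∅
    countable_empty hF.continuous.continuousOn
    (fun y _ => ((hF.differentiable (by simp)).differentiableAt).hasFDerivAt)
    (by
      simp only [hd]
      apply ContinuousOn.integrableOn_Icc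
      exact ((contDiff_pd hh _).comp hp).continuous.continuousOn)
  simp only [hd] at key
  rw [key, Fin.sum_univ_two]
  have ha : (![0, -n] : Fin 2 → ℝ) ∘ (1 : Fin 2).succAbove = ![0] := by
    funext i; fin_cases i; rfl
  have hb : (![1, n] : Fin 2 → ℝ) ∘ (1 : Fin 2).succAbove = ![1] := by
    funext i; fin_cases i; rfl
  have i1 : ∀ (c : ℝ) (y : Fin 1 → ℝ), ((1 : Fin 2).insertNth c y : Fin 2 → ℝ) 0 = y 0 := by
    intro c y; rfl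
  have i2 : ∀ (c : ℝ) (y : Fin 1 → ℝ), ((1 : Fin 2).insertNth c y : Fin 2 → ℝ) 1 = c := by
    intro c y; rfl
  rw [ha, hb]
  simp only [i1, i2]
  have hz : ∀ (c : ℝ), ∫ (y : Fin 1 → ℝ) in Icc ((![0, -n] : Fin 2 → ℝ) ∘ (0 : Fin 2).succAbove)
      ((![1, n] : Fin 2 → ℝ) ∘ (0 : Fin 2).succAbove),
      (![0, h (((0 : Fin 2).insertNth c y : Fin 2 → ℝ) 0,
        ((0 : Fin 2).insertNth c y : Fin 2 → ℝ) 1)] : Fin 2 → ℝ) 0 = 0 := by
    intro c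
    simp
  rw [hz, hz]
  have hc : ∀ c : ℝ, IntegrableOn (fun y : Fin 1 → ℝ => h (y 0, c)) (Icc ![0] ![1]) := by
    intro c
    apply ContinuousOn.integrableOn_Icc
    exact (hh.continuous.comp ((continuous_apply (0 : Fin 1)).prodMk
      continuous_const)).continuousOn
  have e1 : (![0, -n] : Fin 2 → ℝ) 1 = -n := rfl
  have e2 : (![1, n] : Fin 2 → ℝ) 1 = n := rfl
  rw [e1, e2, integral_sub (hc n) (hc (-n))]
  simp

end Area

end Pool.Agent.Helper700
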