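import Mathlib
import Pool.Agent.Helper700.Area

open Set Filter Topology MeasureTheory
open scoped ContDiff

namespace Pool.Agent.Helper700

section Flow

variable {E : Type} [NormedAddCommGroup E] [NormedSpace ℝ E]
variable {M : Set E} {Ω : E → E →L[ℝ] E →L[ℝ] ℝ}

/-- the data of a compactly supported Hamiltonian isotopy on `[0,1]` (as in `HamC`) -/
structure IsHam (M : Set E) (Ω : E → E →L[ℝ] E →L[ℝ] ℝ) (K : Set E) (H : ℝ → E → ℝ)
    (Φ : ℝ → E → E) : Prop where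
  hH : ContDiffOn ℝ ∞ (fun p : ℝ × E => H p.1 p.2) (Icc (0 : ℝ) 1 ×ˢ M)
  supp : ∀ t ∈ Icc (0 : ℝ) 1, ∀ x ∈ M, x ∉ K → H t x = 0
  hΦ : ContDiffOn ℝ ∞ (fun p : ℝ × E => Φ p.1 p.2) (Icc (0 : ℝ) 1 ×ˢ M)
  maps : ∀ t ∈ Icc (0 : ℝ) 1, MapsTo (Φ t) M M
  zero : ∀ x ∈ M, Φ 0 x = x
  ham : ∀ t ∈ Icc (0 : ℝ) 1, ∀ x ∈ M, ∃ X : E,
      HasDerivWithinAt (fun s => Φ s x) X (Icc (0 : ℝ) 1) t ∧
        ∀ v, Ω (Φ t x) X v = fderiv ℝ (H t) (Φ t x) v

lemma slice_smooth {F : Type} [NormedAddCommGroup F] [NormedSpace ℝ F] {f : ℝ → E → F}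
    (hM : IsOpen M)
    (hf : ContDiffOn ℝ ∞ (fun p : ℝ × E => f p.1 p.2) (Icc (0 : ℝ) 1 ×ˢ M)) {t : ℝ}
    (ht : t ∈ Icc (0 : ℝ) 1) {x : E} (hx : x ∈ M) : ContDiffAt ℝ ∞ (f t) x := by
  have h1 : ContDiffOn ℝ ∞ (fun y : E => (t, y)) M := (contDiff_const.prodMk contDiff_id).contDiffOn
  have h2 : ContDiffOn ℝ ∞ (f t) M := hf.comp h1 (fun y hy => ⟨ht, hy⟩)
  exact h2.contDiffAt (hM.mem_nhds hx)

/-- the flow is the identity off the support -/
lemma IsHam.fixed (h : SymplecticOn M Ω) {K : Set E} (hK : IsClosed K) {H : ℝ → E → ℝ}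
    {Φ : ℝ → E → E} (D : IsHam M Ω K H Φ) {x : E} (hx : x ∈ M) (hxK : x ∉ K) :
    ∀ t ∈ Icc (0 : ℝ) 1, Φ t x = x := by
  have hO : IsOpen (M ∩ Kᶜ) := h.isOpen.inter hK.isOpen_compl
  have hcont : ContinuousOn (fun t => Φ t x) (Icc 0 1) := by
    have h1 : ContinuousOn (fun p : ℝ × E => Φ p.1 p.2) (Icc (0 : ℝ) 1 ×ˢ M) := D.hΦ.continuousOn
    have h2 : ContinuousOn (fun t : ℝ => (t, x)) (Icc 0 1) := by fun_prop
    exact h1.comp h2 (fun t ht => ⟨ht, hx⟩)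
  have hclosed : IsClosed ({t | Φ t x = x} ∩ Icc 0 1) := by
    have := hcont.preimage_isClosed_of_isClosed isClosed_Icc (isClosed_singleton (x := x))
    rw [inter_comm]
    exact this
  have hmain : Icc (0 : ℝ) 1 ⊆ {t | Φ t x = x} := by
    refine hclosed.Icc_subset_of_forall_mem_nhdsWithin (D.zero x hx) ?_
    rintro t₀ ⟨ht₀, ht01⟩
    have ht₀' : Φ t₀ x = x := ht₀
    -- a right neighbourhood where the flow stays in `M ∩ Kᶜ`
    have hev : ∀ᶠ t in 𝓝[Icc 0 1] t₀, Φ t x ∈ M ∩ Kᶜ := by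
      have h1 : Tendsto (fun t => Φ t x) (𝓝[Icc 0 1] t₀) (𝓝 (Φ t₀ x)) :=
        hcont t₀ ⟨ht01.1, ht01.2.le⟩
      apply h1
      rw [ht₀']
      exact hO.mem_nhds ⟨hx, hxK⟩
    rw [eventually_nhdsWithin_iff, Metric.eventually_nhds_iff] at hev
    obtain ⟨ε, hε, hball⟩ := hev
    set δ : ℝ := min (ε / 2) (1 - t₀) with hδ
    have hδ0 : 0 < δ := lt_min (by positivity) (by linarith [ht01.2])
    have hsub : Icc t₀ (t₀ + δ) ⊆ Icc 0 1 := by
      intro t ht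
      have h1 : δ ≤ 1 - t₀ := min_le_right _ _
      exact ⟨ht01.1.trans ht.1, by linarith [ht.2]⟩
    have hstay : ∀ t ∈ Icc t₀ (t₀ + δ), Φ t x ∈ M ∩ Kᶜ := by
      intro t ht
      apply hball _ (hsub ht)
      rw [Real.dist_eq, abs_of_nonneg (by linarith [ht.1])]
      have h1 : δ ≤ ε / 2 := min_le_left _ _
      linarith [ht.2]
    have hconst := constant_of_has_deriv_right_zero (f := fun t => Φ t x) (a := t₀)
      (b := t₀ + δ) (hcont.mono hsub) (by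
        intro t ht
        have ht' : t ∈ Icc t₀ (t₀ + δ) := ⟨ht.1, ht.2.le⟩
        have ht1 : t ∈ Icc (0 : ℝ) 1 := hsub ht'
        obtain ⟨X, hX, hX'⟩ := D.ham t ht1 x hx
        have hs := hstay t ht'
        have h0 : H t =ᶠ[𝓝 (Φ t x)] fun _ => 0 := by
          filter_upwards [hO.mem_nhds hs] with y hy
          exact D.supp t ht1 y hy.1 hy.2
        have hX0 : X = 0 := by
          apply h.nondegenerate (Φ t x) hs.1
          intro w
          rw [hX' w, h0.fderiv_eq]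
          simp
        rw [hX0] at hX
        apply hX.mono_of_mem_nhdsWithin
        have ht2 : t < 1 := by
          have h1 : δ ≤ 1 - t₀ := min_le_right _ _
          linarith [ht.2]
        have h3 : Icc t 1 ∈ 𝓝[≥] t := Icc_mem_nhdsGE ht2
        exact mem_of_superset h3 (Icc_subset_Icc_left ht1.1))
    have h3 : Ioc t₀ (t₀ + δ) ∈ 𝓝[>] t₀ := Ioc_mem_nhdsGT (by linarith)
    apply mem_of_superset h3
    intro t ht
    have := hconst t ⟨ht.1.le, ht.2⟩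
    rw [ht₀'] at this
    exact this
  exact fun t ht => hmain ht

/-- smooth time cut-off -/
noncomputable def tm (s : ℝ) : ℝ := Real.smoothTransition s

lemma contDiff_tm : ContDiff ℝ ∞ tm := Real.smoothTransition.contDiff

lemma tm_mem (s : ℝ) : tm s ∈ Icc (0 : ℝ) 1 :=
  ⟨Real.smoothTransition.nonneg s, Real.smoothTransition.le_one s⟩

lemma tm_zero : tm 0 = 0 := Real.smoothTransition.zero
lemma tm_one : tm 1 = 1 := Real.smoothTransition.one

/-- the square swept by the path `γ` -/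
noncomputable def sweep (Φ : ℝ → E → E) (γ : ℝ → E) (p : ℝ × ℝ) : E := Φ (tm p.1) (γ p.2)

/-- the potential of its area density -/
noncomputable def pot (H : ℝ → E → ℝ) (Φ : ℝ → E → E) (γ : ℝ → E) (p : ℝ × ℝ) : ℝ :=
  deriv tm p.1 * H (tm p.1) (sweep Φ γ p)

variable {K : Set E} {H : ℝ → E → ℝ} {Φ : ℝ → E → E} {γ : ℝ → E}

lemma contDiff_sweep (D : IsHam M Ω K H Φ) (hγ : ContDiff ℝ ∞ γ) (hγM : ∀ w, γ w ∈ M) :
    ContDiff ℝ ∞ (sweep Φ γ) := by
  have h1 : ContDiff ℝ ∞ (fun p : ℝ × ℝ => (tm p.1, γ p.2)) :=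
    (contDiff_tm.comp contDiff_fst).prodMk (hγ.comp contDiff_snd)
  exact D.hΦ.comp_contDiff h1 (fun p => ⟨tm_mem _, hγM _⟩)

lemma sweep_mem (D : IsHam M Ω K H Φ) (hγM : ∀ w, γ w ∈ M) (p : ℝ × ℝ) : sweep Φ γ p ∈ M :=
  D.maps _ (tm_mem _) (hγM _)

lemma contDiff_pot (D : IsHam M Ω K H Φ) (hγ : ContDiff ℝ ∞ γ) (hγM : ∀ w, γ w ∈ M) :
    ContDiff ℝ ∞ (pot H Φ γ) := by
  have h1 : ContDiff ℝ ∞ (fun p : ℝ × ℝ => (tm p.1, sweep Φ γ p)) :=
    (contDiff_tm.comp contDiff_fst).prodMk (contDiff_sweep D hγ hγM)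
  have h2 : ContDiff ℝ ∞ (fun p : ℝ × ℝ => H (tm p.1) (sweep Φ γ p)) :=
    D.hH.comp_contDiff h1 (fun p => ⟨tm_mem _, sweep_mem D hγM _⟩)
  exact (contDiff_tm.deriv'.comp contDiff_fst).mul h2

lemma dens_sweep (h : SymplecticOn M Ω) (D : IsHam M Ω K H Φ) (hγ : ContDiff ℝ ∞ γ)
    (hγM : ∀ w, γ w ∈ M) (p : ℝ × ℝ) :
    dens Ω (sweep Φ γ) p = pd (pot H Φ γ) ((0 : ℝ), (1 : ℝ)) p := by
  obtain ⟨s, w⟩ := p
  have hsm := contDiff_sweep D hγ hγM
  have hF : HasFDerivAt (sweep Φ γ) (fderiv ℝ (sweep Φ γ) (s, w)) (s, w) :=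
    ((hsm.differentiable (by simp)).differentiableAt).hasFDerivAt
  obtain ⟨X, hX, hX'⟩ := D.ham (tm s) (tm_mem s) (γ w) (hγM w)
  -- time derivative
  have h1 : pd (sweep Φ γ) ((1 : ℝ), (0 : ℝ)) (s, w) = deriv tm s • X := by
    have a1 : HasDerivAt (fun s' : ℝ => ((s', w) : ℝ × ℝ)) ((1 : ℝ), (0 : ℝ)) s :=
      (hasDerivAt_id s).prodMk (hasDerivAt_const s w)
    have a2 : HasDerivAt (fun s' : ℝ => sweep Φ γ (s', w)) (pd (sweep Φ γ) ((1 : ℝ), (0 : ℝ)) (s, w)) s :=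
      HasFDerivAt.comp_hasDerivAt (f := fun s' : ℝ => ((s', w) : ℝ × ℝ)) s hF a1
    have a3 : HasDerivAt tm (deriv tm s) s :=
      ((contDiff_tm.differentiable (by simp)).differentiableAt).hasDerivAt
    have a4 : HasDerivWithinAt (fun s' : ℝ => sweep Φ γ (s', w)) (deriv tm s • X) univ s :=
      HasDerivWithinAt.scomp (g₁ := fun t => Φ t (γ w)) s hX a3.hasDerivWithinAt
        (fun t _ => tm_mem t)
    rw [hasDerivWithinAt_univ] at a4
    exact a2.unique a4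
  -- space derivative of the potential
  have h2 : pd (pot H Φ γ) ((0 : ℝ), (1 : ℝ)) (s, w) =
      deriv tm s * fderiv ℝ (H (tm s)) (sweep Φ γ (s, w))
        (pd (sweep Φ γ) ((0 : ℝ), (1 : ℝ)) (s, w)) := by
    have a1 : HasDerivAt (fun w' : ℝ => ((s, w') : ℝ × ℝ)) ((0 : ℝ), (1 : ℝ)) w :=
      (hasDerivAt_const w s).prodMk (hasDerivAt_id w)
    have a2 : HasDerivAt (fun w' : ℝ => sweep Φ γ (s, w')) (pd (sweep Φ γ) ((0 : ℝ), (1 : ℝ)) (s, w)) w :=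
      HasFDerivAt.comp_hasDerivAt (f := fun w' : ℝ => ((s, w') : ℝ × ℝ)) w hF a1
    have hP : HasFDerivAt (pot H Φ γ) (fderiv ℝ (pot H Φ γ) (s, w)) (s, w) :=
      (((contDiff_pot D hγ hγM).differentiable (by simp)).differentiableAt).hasFDerivAt
    have a3 : HasDerivAt (fun w' : ℝ => pot H Φ γ (s, w')) (pd (pot H Φ γ) ((0 : ℝ), (1 : ℝ)) (s, w)) w :=
      HasFDerivAt.comp_hasDerivAt (f := fun w' : ℝ => ((s, w') : ℝ × ℝ)) w hP a1
    have a4 : HasFDerivAt (H (tm s)) (fderiv ℝ (H (tm s)) (sweep Φ γ (s, w))) (sweep Φ γ (s, w)) :=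
      ((slice_smooth h.isOpen D.hH (tm_mem s) (sweep_mem D hγM (s, w))).differentiableAt
        (by simp)).hasFDerivAt
    have a5 : HasDerivAt (fun w' : ℝ => H (tm s) (sweep Φ γ (s, w')))
        (fderiv ℝ (H (tm s)) (sweep Φ γ (s, w)) (pd (sweep Φ γ) ((0 : ℝ), (1 : ℝ)) (s, w))) w :=
      a4.comp_hasDerivAt w a2
    have a6 : HasDerivAt (fun w' : ℝ => pot H Φ γ (s, w')) (deriv tm s *
        fderiv ℝ (H (tm s)) (sweep Φ γ (s, w)) (pd (sweep Φ γ) ((0 : ℝ), (1 : ℝ)) (s, w))) w :=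
      a5.const_mul (deriv tm s)
    exact a3.unique a6
  rw [h2]
  simp only [dens, pb]
  rw [h1, map_smul, smul_apply, smul_eq_mul]
  congr 1
  exact hX' _

/-- integral of `tm'` -/
noncomputable def cc : ℝ := ∫ y in Icc (![0] : Fin 1 → ℝ) ![1], deriv tm (y 0)

lemma cc_eq : cc = 1 := by
  have hc : Continuous (deriv tm) := contDiff_tm.continuous_deriv (by simp)
  have h1 : cc = ∫ x in Icc (0 : ℝ) 1, deriv tm x := by
    unfold cc
    have hmp := volume_preserving_funUnique (Fin 1) ℝ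
    have hpre : Icc (![0] : Fin 1 → ℝ) ![1] = (MeasurableEquiv.funUnique (Fin 1) ℝ) ⁻¹' Icc 0 1 := by
      ext y
      simp [Pi.le_def]
    rw [hpre, ← hmp.setIntegral_preimage_emb (MeasurableEquiv.measurableEmbedding _)]
    rfl
  rw [h1, integral_Icc_eq_integral_Ioc, ← intervalIntegral.integral_of_le zero_le_one]
  rw [intervalIntegral.integral_deriv_eq_sub (fun x _ =>
    (contDiff_tm.differentiable (by simp)).differentiableAt) (hc.intervalIntegrable _ _)]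
  rw [tm_one, tm_zero, sub_zero]

end Flow

end Pool.Agent.Helper700
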