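import Mathlib
import Pool.Agent.Helper700.Iso

open Set Filter Topology
open scoped ContDiff

namespace Pool.Agent.Helper700

section Generic

variable {X : Type} [NormedAddCommGroup X] [NormedSpace ℝ X]
variable {G : Type} [NormedAddCommGroup G] [NormedSpace ℝ G]

lemma contDiffAt_combo {f g : X → ℝ} {q : X} (hf : ContDiffAt ℝ ∞ f q) (hg : ContDiffAt ℝ ∞ g q)
    (A B C : G) : ContDiffAt ℝ ∞ (fun q => A + f q • B + g q • C) q :=
  (contDiffAt_const.add (hf.smul contDiffAt_const)).add (hg.smul contDiffAt_const)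

lemma hasFDerivAt_combo {f g : X → ℝ} {f' g' : X →L[ℝ] ℝ} {q : X} (hf : HasFDerivAt f f' q)
    (hg : HasFDerivAt g g' q) (A B C : G) :
    HasFDerivAt (fun q => A + f q • B + g q • C) (f'.smulRight B + g'.smulRight C) q :=
  ((hf.smul_const B).const_add A).add (hg.smul_const C)

lemma fderiv_combo_apply {f g : X → ℝ} {f' g' : X →L[ℝ] ℝ} {q : X} (hf : HasFDerivAt f f' q)
    (hg : HasFDerivAt g g' q) (A B C : G) (u : X) :
    fderiv ℝ (fun q => A + f q • B + g q • C) q u = f' u • B + g' u • C := by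
  rw [(hasFDerivAt_combo hf hg A B C).fderiv]
  rfl

end Generic

/-- the four real coordinate functionals on `ℂ × ℂ` -/
noncomputable def xL : ℂ × ℂ →L[ℝ] ℝ := Complex.reCLM.comp (ContinuousLinearMap.fst ℝ ℂ ℂ)
noncomputable def yL : ℂ × ℂ →L[ℝ] ℝ := Complex.imCLM.comp (ContinuousLinearMap.fst ℝ ℂ ℂ)
noncomputable def zL : ℂ × ℂ →L[ℝ] ℝ := Complex.reCLM.comp (ContinuousLinearMap.snd ℝ ℂ ℂ)
noncomputable def pL : ℂ × ℂ →L[ℝ] ℝ := Complex.imCLM.comp (ContinuousLinearMap.snd ℝ ℂ ℂ)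

/-- the wedge product of two linear functionals, as a bilinear form -/
noncomputable def wedge (α β : ℂ × ℂ →L[ℝ] ℝ) : ℂ × ℂ →L[ℝ] ℂ × ℂ →L[ℝ] ℝ :=
  α.smulRight β - β.smulRight α

/-- The 2-form `dx ∧ dy + dz ∧ dp + b(z) dz ∧ (x dy - y dx)/(x² + y²)` at the point
`(x + i y, z + i p)`. -/
noncomputable def form (b : ℝ → ℝ) (q : ℂ × ℂ) : ℂ × ℂ →L[ℝ] ℂ × ℂ →L[ℝ] ℝ :=
  wedge xL yL + wedge zL pL +
    (b (zL q) * xL q / (xL q ^ 2 + yL q ^ 2)) • wedge zL yL -
    (b (zL q) * yL q / (xL q ^ 2 + yL q ^ 2)) • wedge zL xL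

/-- The domain: the points with `x + i y ≠ 0` or `z ∉ S`. -/
def dom (S : Set ℝ) : Set (ℂ × ℂ) := {q | q.1 ≠ 0 ∨ q.2.re ∉ S}

lemma form_apply (b : ℝ → ℝ) (q v w : ℂ × ℂ) :
    form b q v w = (v.1.re * w.1.im - v.1.im * w.1.re) + (v.2.re * w.2.im - v.2.im * w.2.re)
      + b q.2.re * (v.2.re * (q.1⁻¹ * w.1).im - w.2.re * (q.1⁻¹ * v.1).im) := by
  simp [form, wedge, xL, yL, zL, pL, Complex.inv_re, Complex.inv_im, Complex.normSq_apply]
  ring

lemma isOpen_dom {S : Set ℝ} (hS : IsClosed S) : IsOpen (dom S) := by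
  have h1 : IsOpen {q : ℂ × ℂ | q.1 ≠ 0} := isOpen_ne_fun continuous_fst continuous_const
  have h2 : IsOpen {q : ℂ × ℂ | q.2.re ∉ S} := by
    have : Continuous (fun q : ℂ × ℂ => q.2.re) := Complex.continuous_re.comp continuous_snd
    exact hS.isOpen_compl.preimage this
  exact h1.union h2

section

variable {b : ℝ → ℝ} {S : Set ℝ}

lemma eventually_zero (hS : IsClosed S) (hbS : ∀ z ∉ S, b z = 0) {q : ℂ × ℂ}
    (hq : q.2.re ∉ S) : ∀ᶠ y in 𝓝 q, b y.2.re = 0 := by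
  have : Continuous (fun q : ℂ × ℂ => q.2.re) := Complex.continuous_re.comp continuous_snd
  filter_upwards [(hS.isOpen_compl.preimage this).mem_nhds hq] with y hy
  exact hbS _ hy

lemma deriv_zero (hS : IsClosed S) (hbS : ∀ z ∉ S, b z = 0) {z : ℝ} (hz : z ∉ S) :
    deriv b z = 0 := by
  have : b =ᶠ[𝓝 z] fun _ => 0 := by
    filter_upwards [hS.isOpen_compl.mem_nhds hz] with y hy
    exact hbS y hy
  rw [this.deriv_eq]
  simp

/-- the coefficient `b(z)/ζ` -/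
noncomputable def coef (b : ℝ → ℝ) (q : ℂ × ℂ) : ℂ := (b q.2.re : ℂ) * q.1⁻¹

lemma form_eq (b : ℝ → ℝ) (q : ℂ × ℂ) : form b q =
    wedge xL yL + wedge zL pL + (coef b q).re • wedge zL yL + (coef b q).im • wedge zL xL := by
  ext v w <;> simp [form, wedge, xL, yL, zL, pL, coef, Complex.inv_re, Complex.inv_im,
    Complex.normSq_apply] <;> ring

lemma contDiffAt_coef (hb : ContDiff ℝ ∞ b) (hS : IsClosed S) (hbS : ∀ z ∉ S, b z = 0)
    {q : ℂ × ℂ} (hq : q ∈ dom S) : ContDiffAt ℝ ∞ (coef b) q := by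
  rcases hq with h | h
  · have h1 : ContDiffAt ℝ ∞ (fun q : ℂ × ℂ => ((b q.2.re : ℝ) : ℂ)) q := by
      have h2 : ContDiff ℝ ∞ (fun q : ℂ × ℂ => b q.2.re) :=
        hb.comp (Complex.reCLM.contDiff.comp contDiff_snd)
      exact (Complex.ofRealCLM.contDiff.comp h2).contDiffAt
    exact h1.mul (contDiffAt_fst.inv h)
  · have : coef b =ᶠ[𝓝 q] fun _ => 0 := by
      filter_upwards [eventually_zero hS hbS h] with y hy
      simp [coef, hy]
    exact contDiffAt_const.congr_of_eventuallyEq this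

lemma hasFDerivAt_coef (hb : ContDiff ℝ ∞ b) (hS : IsClosed S) (hbS : ∀ z ∉ S, b z = 0)
    {q : ℂ × ℂ} (hq : q ∈ dom S) : ∃ D : ℂ × ℂ →L[ℝ] ℂ, HasFDerivAt (coef b) D q ∧
      ∀ v, D v = ((deriv b q.2.re * v.2.re : ℝ) : ℂ) * q.1⁻¹
        - ((b q.2.re : ℝ) : ℂ) * (q.1⁻¹) ^ 2 * v.1 := by
  by_cases h : q.2.re ∈ S
  · have h0 : q.1 ≠ 0 := by
      rcases hq with h1 | h1
      · exact h1
      · exact absurd h h1
    have h1 : HasDerivAt b (deriv b q.2.re) q.2.re :=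
      (hb.differentiable (by simp)).differentiableAt.hasDerivAt
    have h2 : HasFDerivAt (fun q : ℂ × ℂ => q.2.re) zL q := zL.hasFDerivAt
    have h3 := Complex.ofRealCLM.hasFDerivAt.comp q (h1.comp_hasFDerivAt q h2)
    have h4 : HasFDerivAt (fun q : ℂ × ℂ => q.1) (ContinuousLinearMap.fst ℝ ℂ ℂ) q :=
      hasFDerivAt_fst
    have h5 : HasFDerivAt (fun z : ℂ => z⁻¹)
        ((ContinuousLinearMap.smulRight (1 : ℂ →L[ℂ] ℂ) (-(q.1 ^ 2)⁻¹)).restrictScalars ℝ) q.1 :=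
      (hasDerivAt_inv h0).hasFDerivAt.restrictScalars ℝ
    have h6 := h5.comp q h4
    have h7 := h3.mul h6
    refine ⟨_, h7, fun v => ?_⟩
    simp [zL]
    ring
  · have h1 : coef b =ᶠ[𝓝 q] fun _ => 0 := by
      filter_upwards [eventually_zero hS hbS h] with y hy
      simp [coef, hy]
    refine ⟨0, (hasFDerivAt_const (0 : ℂ) q).congr_of_eventuallyEq h1, fun v => ?_⟩
    simp [hbS _ h, deriv_zero hS hbS h]

lemma contDiffAt_form (hb : ContDiff ℝ ∞ b) (hS : IsClosed S) (hbS : ∀ z ∉ S, b z = 0)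
    {q : ℂ × ℂ} (hq : q ∈ dom S) : ContDiffAt ℝ ∞ (form b) q := by
  have h := contDiffAt_coef hb hS hbS hq
  have h1 : ContDiffAt ℝ ∞ (fun q => (coef b q).re) q := Complex.reCLM.contDiff.contDiffAt.comp q h
  have h2 : ContDiffAt ℝ ∞ (fun q => (coef b q).im) q := Complex.imCLM.contDiff.contDiffAt.comp q h
  have h3 : form b = fun q => wedge xL yL + wedge zL pL + (coef b q).re • wedge zL yL
      + (coef b q).im • wedge zL xL := by
    funext q; exact form_eq b q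
  rw [h3]
  exact contDiffAt_combo h1 h2 _ _ _

lemma fderiv_form (hb : ContDiff ℝ ∞ b) (hS : IsClosed S) (hbS : ∀ z ∉ S, b z = 0)
    {q : ℂ × ℂ} (hq : q ∈ dom S) (u v w : ℂ × ℂ) : fderiv ℝ (form b) q u v w =
      (((deriv b q.2.re * u.2.re : ℝ) : ℂ) * q.1⁻¹
        - ((b q.2.re : ℝ) : ℂ) * (q.1⁻¹) ^ 2 * u.1).re * (v.2.re * w.1.im - v.1.im * w.2.re) +
      (((deriv b q.2.re * u.2.re : ℝ) : ℂ) * q.1⁻¹
        - ((b q.2.re : ℝ) : ℂ) * (q.1⁻¹) ^ 2 * u.1).im * (v.2.re * w.1.re - v.1.re * w.2.re) := by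
  obtain ⟨D, hD, hD'⟩ := hasFDerivAt_coef hb hS hbS hq
  have h3 : form b = fun q => wedge xL yL + wedge zL pL + (coef b q).re • wedge zL yL
      + (coef b q).im • wedge zL xL := by
    funext q; exact form_eq b q
  have h1 : HasFDerivAt (fun q => (coef b q).re) (Complex.reCLM.comp D) q :=
    Complex.reCLM.hasFDerivAt.comp q hD
  have h2 : HasFDerivAt (fun q => (coef b q).im) (Complex.imCLM.comp D) q :=
    Complex.imCLM.hasFDerivAt.comp q hD
  have h4 : fderiv ℝ (form b) q u = (Complex.reCLM.comp D) u • wedge zL yL +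
      (Complex.imCLM.comp D) u • wedge zL xL := by
    rw [h3]
    exact fderiv_combo_apply (X := ℂ × ℂ) (G := ℂ × ℂ →L[ℝ] ℂ × ℂ →L[ℝ] ℝ) h1 h2 _ _ _ u
  rw [h4]
  simp only [ContinuousLinearMap.comp_apply, hD' u]
  simp [wedge, xL, yL, zL]

lemma symplectic_dom (hb : ContDiff ℝ ∞ b) (hS : IsClosed S) (hbS : ∀ z ∉ S, b z = 0) :
    SymplecticOn (dom S) (form b) where
  isOpen := isOpen_dom hS
  smooth := fun q hq => (contDiffAt_form hb hS hbS hq).contDiffWithinAt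
  alternating q _ v := by
    rw [form_apply]; ring
  nondegenerate q _ v h := by
    have h1 := h (0, Complex.I)
    rw [form_apply] at h1
    simp at h1
    have h2 := h (1, 0)
    have h3 := h (Complex.I, 0)
    rw [form_apply] at h2 h3
    simp [h1] at h2 h3
    have h4 : v.1 = 0 := Complex.ext h3 h2
    have h5 := h (0, 1)
    rw [form_apply] at h5
    simp [h1, h4] at h5
    exact Prod.ext h4 (Complex.ext h1 h5)
  closed q hq u v w := by
    rw [fderiv_form hb hS hbS hq, fderiv_form hb hS hbS hq, fderiv_form hb hS hbS hq]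
    generalize (q.1⁻¹) = c
    simp only [Complex.sub_re, Complex.sub_im, Complex.mul_re, Complex.mul_im, Complex.ofReal_re,
      Complex.ofReal_im]
    ring

end

end Pool.Agent.Helper700
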