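import Mathlib
import Pool.Agent.Helper700.Form

open Set Filter Topology
open scoped ContDiff

namespace Pool.Agent.Helper700

/-- squared Euclidean norm on `ℂ × ℂ` -/
noncomputable def nsq (q : ℂ × ℂ) : ℝ := Complex.normSq q.1 + Complex.normSq q.2

lemma nsq_eq (q : ℂ × ℂ) : nsq q = q.1.re ^ 2 + q.1.im ^ 2 + q.2.re ^ 2 + q.2.im ^ 2 := by
  simp only [nsq, Complex.normSq_apply]; ring

lemma contDiff_nsq : ContDiff ℝ ∞ nsq := by
  have h : nsq = fun q => xL q ^ 2 + yL q ^ 2 + zL q ^ 2 + pL q ^ 2 := by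
    funext q; rw [nsq_eq]; simp [xL, yL, zL, pL]
  rw [h]
  exact (((xL.contDiff.pow 2).add (yL.contDiff.pow 2)).add (zL.contDiff.pow 2)).add
    (pL.contDiff.pow 2)

lemma hasFDerivAt_nsq (q : ℂ × ℂ) : ∃ D : ℂ × ℂ →L[ℝ] ℝ, HasFDerivAt nsq D q ∧ ∀ v, D v =
    2 * (q.1.re * v.1.re + q.1.im * v.1.im + q.2.re * v.2.re + q.2.im * v.2.im) := by
  have h : nsq = fun q => xL q ^ 2 + yL q ^ 2 + zL q ^ 2 + pL q ^ 2 := by
    funext q; rw [nsq_eq]; simp [xL, yL, zL, pL]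
  have h1 := (((xL.hasFDerivAt (x := q)).pow 2).add ((yL.hasFDerivAt (x := q)).pow 2)).add
    ((zL.hasFDerivAt (x := q)).pow 2) |>.add ((pL.hasFDerivAt (x := q)).pow 2)
  refine ⟨_, by rw [h]; exact h1, fun v => ?_⟩
  simp [xL, yL, zL, pL]
  ring

/-- the standard form -/
noncomputable def form0 (v w : ℂ × ℂ) : ℝ :=
  (v.1.re * w.1.im - v.1.im * w.1.re) + (v.2.re * w.2.im - v.2.im * w.2.re)

/-- multiplication by `e^{iα}` on both coordinates -/
noncomputable def em (α : ℝ) (v : ℂ × ℂ) : ℂ × ℂ :=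
  (Complex.exp (α * Complex.I) * v.1, Complex.exp (α * Complex.I) * v.2)

lemma normSq_exp (α : ℝ) : Complex.normSq (Complex.exp (α * Complex.I)) = 1 := by
  rw [Complex.normSq_eq_norm_sq, Complex.norm_exp_ofReal_mul_I]; norm_num

lemma re_im_exp (α : ℝ) : (Complex.exp (α * Complex.I)).re ^ 2 +
    (Complex.exp (α * Complex.I)).im ^ 2 = 1 := by
  have := normSq_exp α
  rw [Complex.normSq_apply] at this
  linarith

lemma form0_em (α : ℝ) (v w : ℂ × ℂ) : form0 (em α v) (em α w) = form0 v w := by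
  have h := re_im_exp α
  simp only [form0, em, Complex.mul_re, Complex.mul_im]
  linear_combination (v.1.re * w.1.im - v.1.im * w.1.re + v.2.re * w.2.im - v.2.im * w.2.re) * h

lemma nsq_em (α : ℝ) (v : ℂ × ℂ) : nsq (em α v) = nsq v := by
  simp only [nsq, em, map_mul, normSq_exp, one_mul]

lemma em_em (α β : ℝ) (v : ℂ × ℂ) : em α (em β v) = em (α + β) v := by
  simp only [em]
  rw [← mul_assoc, ← mul_assoc, ← Complex.exp_add]
  push_cast
  rw [add_mul]

lemma em_zero (v : ℂ × ℂ) : em 0 v = v := by simp [em]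

/-- The radial rotation about `m` with angle profile `θ`. -/
noncomputable def rad (m : ℂ × ℂ) (θ : ℝ → ℝ) (q : ℂ × ℂ) : ℂ × ℂ :=
  m + em (θ (nsq (q - m))) (q - m)

lemma rad_sub (m : ℂ × ℂ) (θ : ℝ → ℝ) (q : ℂ × ℂ) :
    rad m θ q - m = em (θ (nsq (q - m))) (q - m) := by
  simp [rad]

lemma nsq_rad (m : ℂ × ℂ) (θ : ℝ → ℝ) (q : ℂ × ℂ) : nsq (rad m θ q - m) = nsq (q - m) := by
  rw [rad_sub, nsq_em]

lemma rad_rad (m : ℂ × ℂ) (θ θ' : ℝ → ℝ) (q : ℂ × ℂ) :
    rad m θ (rad m θ' q) = rad m (fun N => θ N + θ' N) q := by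
  have h : rad m θ (rad m θ' q) = m + em (θ (nsq (rad m θ' q - m))) (rad m θ' q - m) := rfl
  rw [h, nsq_rad, rad_sub, em_em]
  rfl

lemma rad_of_zero (m : ℂ × ℂ) (θ : ℝ → ℝ) (q : ℂ × ℂ) (h : θ (nsq (q - m)) = 0) :
    rad m θ q = q := by
  simp [rad, h, em_zero]

lemma rad_neg (m : ℂ × ℂ) (θ : ℝ → ℝ) (q : ℂ × ℂ) :
    rad m (fun N => -θ N) (rad m θ q) = q := by
  rw [rad_rad]
  apply rad_of_zero
  simp

lemma rad_neg' (m : ℂ × ℂ) (θ : ℝ → ℝ) (q : ℂ × ℂ) :
    rad m θ (rad m (fun N => -θ N) q) = q := by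
  rw [rad_rad]
  apply rad_of_zero
  simp

lemma contDiff_em : ContDiff ℝ ∞ (fun p : ℝ × (ℂ × ℂ) => em p.1 p.2) := by
  have h1 : ContDiff ℝ ∞ (fun p : ℝ × (ℂ × ℂ) => ((p.1 : ℝ) : ℂ) * Complex.I) :=
    (Complex.ofRealCLM.contDiff.comp contDiff_fst).mul contDiff_const
  exact (h1.cexp.mul (contDiff_fst.comp contDiff_snd)).prodMk
    (h1.cexp.mul (contDiff_snd.comp contDiff_snd))

/-- joint smoothness of the radial rotation, angle linear in time -/
lemma contDiff_rad2 (m : ℂ × ℂ) {θ : ℝ → ℝ} (hθ : ContDiff ℝ ∞ θ) :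
    ContDiff ℝ ∞ (fun p : ℝ × (ℂ × ℂ) => rad m (fun N => p.1 * θ N) p.2) := by
  have h0 : ContDiff ℝ ∞ (fun p : ℝ × (ℂ × ℂ) => p.2 - m) := contDiff_snd.sub contDiff_const
  have h1 : ContDiff ℝ ∞ (fun p : ℝ × (ℂ × ℂ) => p.1 * θ (nsq (p.2 - m))) :=
    contDiff_fst.mul (hθ.comp (contDiff_nsq.comp h0))
  exact contDiff_const.add (contDiff_em.comp (h1.prodMk h0))

lemma contDiff_rad (m : ℂ × ℂ) {θ : ℝ → ℝ} (hθ : ContDiff ℝ ∞ θ) :
    ContDiff ℝ ∞ (rad m θ) := by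
  have h := (contDiff_rad2 m hθ).comp
    (contDiff_const.prodMk contDiff_id : ContDiff ℝ ∞ (fun z : ℂ × ℂ => ((1 : ℝ), z)))
  have h2 : (fun p : ℝ × (ℂ × ℂ) => rad m (fun N => p.1 * θ N) p.2) ∘
      (fun z : ℂ × ℂ => ((1 : ℝ), z)) = rad m θ := by
    funext z
    simp [rad]
  rwa [h2] at h

/-- derivative of `em α v` jointly -/
lemma hasFDerivAt_em {α : ℂ × ℂ → ℝ} {g : ℂ × ℂ → ℂ × ℂ} {α' : ℂ × ℂ →L[ℝ] ℝ}
    {g' : ℂ × ℂ →L[ℝ] ℂ × ℂ} {q : ℂ × ℂ} (hα : HasFDerivAt α α' q) (hg : HasFDerivAt g g' q) :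
    ∃ D : ℂ × ℂ →L[ℝ] ℂ × ℂ, HasFDerivAt (fun q => em (α q) (g q)) D q ∧
      ∀ v, D v = em (α q) (g' v + ((α' v : ℂ) * (Complex.I * (g q).1),
        (α' v : ℂ) * (Complex.I * (g q).2))) := by
  have h1 : HasFDerivAt (fun q : ℂ × ℂ => ((α q : ℝ) : ℂ) * Complex.I)
      ((Complex.ofRealCLM.comp α').smulRight Complex.I) q := by
    have h4 := (Complex.ofRealCLM.hasFDerivAt.comp q hα)
    refine (h4.mul_const Complex.I).congr_fderiv ?_
    ext v <;> simp [mul_comm]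
  have h2 := h1.cexp
  have h3 := (h2.mul (hasFDerivAt_fst.comp q hg)).prodMk (h2.mul (hasFDerivAt_snd.comp q hg))
  refine ⟨_, h3, fun v => ?_⟩
  apply Prod.ext
  · simp [em]
    ring
  · simp [em]
    ring

lemma form0_rad (m : ℂ × ℂ) {θ : ℝ → ℝ} (hθ : ContDiff ℝ ∞ θ) (q v w : ℂ × ℂ) :
    form0 (fderiv ℝ (rad m θ) q v) (fderiv ℝ (rad m θ) q w) = form0 v w := by
  obtain ⟨D, hD, hD'⟩ := hasFDerivAt_nsq (q - m)
  have h0 : HasFDerivAt (fun q : ℂ × ℂ => q - m) (ContinuousLinearMap.id ℝ (ℂ × ℂ)) q :=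
    (hasFDerivAt_id q).sub_const m
  have h1 : HasDerivAt θ (deriv θ (nsq (q - m))) (nsq (q - m)) :=
    (hθ.differentiable (by simp)).differentiableAt.hasDerivAt
  have h2 : HasFDerivAt (fun q => θ (nsq (q - m))) (deriv θ (nsq (q - m)) • D) q := by
    have h := h1.comp_hasFDerivAt q (hD.comp q h0)
    rw [ContinuousLinearMap.comp_id] at h
    exact h
  obtain ⟨D2, hD2, hD2'⟩ := hasFDerivAt_em h2 h0
  have h3 : HasFDerivAt (rad m θ) D2 q := hD2.const_add m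
  rw [h3.fderiv, hD2' v, hD2' w, form0_em]
  simp [form0, hD']
  ring


/-! ### the rotation of the first coordinate -/

noncomputable def rot (t : ℝ) (q : ℂ × ℂ) : ℂ × ℂ := (Complex.exp (t * Complex.I) * q.1, q.2)

lemma contDiff_rot : ContDiff ℝ ∞ (fun p : ℝ × (ℂ × ℂ) => rot p.1 p.2) := by
  have h1 : ContDiff ℝ ∞ (fun p : ℝ × (ℂ × ℂ) => ((p.1 : ℝ) : ℂ) * Complex.I) :=
    (Complex.ofRealCLM.contDiff.comp contDiff_fst).mul contDiff_const
  exact (h1.cexp.mul (contDiff_fst.comp contDiff_snd)).prodMk (contDiff_snd.comp contDiff_snd)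

lemma rot_rot (s t : ℝ) (q : ℂ × ℂ) : rot s (rot t q) = rot (s + t) q := by
  simp only [rot]
  rw [← mul_assoc, ← Complex.exp_add]
  push_cast
  rw [add_mul]

lemma rot_zero (q : ℂ × ℂ) : rot 0 q = q := by simp [rot]

lemma rot_int (k : ℤ) (q : ℂ × ℂ) : rot (2 * Real.pi * k) q = q := by
  have : Complex.exp (((2 * Real.pi * k : ℝ) : ℂ) * Complex.I) = 1 := by
    rw [Complex.exp_eq_one_iff]
    exact ⟨k, by push_cast; ring⟩
  simp only [rot, this, one_mul]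

lemma rot_mem_dom {S : Set ℝ} (t : ℝ) {q : ℂ × ℂ} (hq : q ∈ dom S) : rot t q ∈ dom S := by
  rcases hq with h | h
  · exact Or.inl (mul_ne_zero (Complex.exp_ne_zero _) h)
  · exact Or.inr h

lemma fderiv_rot (t : ℝ) (q v : ℂ × ℂ) : fderiv ℝ (rot t) q v = rot t v := by
  let L : ℂ × ℂ →L[ℝ] ℂ × ℂ := (((ContinuousLinearMap.mul ℝ ℂ (Complex.exp (t * Complex.I))).comp
      (ContinuousLinearMap.fst ℝ ℂ ℂ))).prod (ContinuousLinearMap.snd ℝ ℂ ℂ)
  have hL : ∀ v, L v = rot t v := fun v => rfl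
  have h1 : HasFDerivAt (rot t) L q := L.hasFDerivAt.congr_of_eventuallyEq
    (Eventually.of_forall fun y => (hL y).symm)
  rw [h1.fderiv, hL]

lemma deriv_rot (t : ℝ) (q : ℂ × ℂ) :
    deriv (fun s => rot s q) t = (Complex.I * (Complex.exp (t * Complex.I) * q.1), 0) := by
  have h1 : HasDerivAt (fun s : ℝ => ((s : ℝ) : ℂ) * Complex.I) Complex.I t := by
    simpa using (Complex.ofRealCLM.hasDerivAt (x := t)).mul_const Complex.I
  have h2 := (h1.cexp.mul_const q.1).prodMk (hasDerivAt_const t q.2)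
  have h3 : HasDerivAt (fun s => rot s q) (Complex.exp (t * Complex.I) * Complex.I * q.1, 0) t := h2
  rw [h3.deriv]
  congr 1
  ring

lemma form_rot {b : ℝ → ℝ} (t : ℝ) (q v w : ℂ × ℂ) :
    form b (rot t q) (rot t v) (rot t w) = form b q v w := by
  have h := re_im_exp t
  have hne : Complex.exp (t * Complex.I) ≠ 0 := Complex.exp_ne_zero _
  have h1 : ∀ u : ℂ, (Complex.exp (t * Complex.I) * q.1)⁻¹ * (Complex.exp (t * Complex.I) * u) =
      q.1⁻¹ * u := by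
    intro u
    rw [mul_inv]
    field_simp
  rw [form_apply, form_apply]
  simp only [rot]
  rw [h1, h1]
  simp only [Complex.mul_re, Complex.mul_im]
  linear_combination (v.1.re * w.1.im - v.1.im * w.1.re) * h

/-- The rotation isotopy of `dom S`, with Hamiltonian `-(|ζ|²/2 + P(z))`, `P' = b`. -/
noncomputable def rotIso {b P : ℝ → ℝ} {S : Set ℝ} (hP : ContDiff ℝ ∞ P)
    (hPb : ∀ z, deriv P z = b z) (hbS : ∀ z ∉ S, b z = 0) : Iso (dom S) (form b) where
  Φ t q := rot t q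
  Γ t q := rot (-t) q
  H _ q := -(Complex.normSq q.1 / 2 + P q.2.re)
  hΦ := fun t q _ => contDiff_rot.contDiffAt
  hΓ := fun t q _ => by
    have h : ContDiff ℝ ∞ (fun p : ℝ × (ℂ × ℂ) => (-p.1, p.2)) :=
      contDiff_fst.neg.prodMk contDiff_snd
    exact (contDiff_rot.comp h).contDiffAt
  hH := fun t q _ => by
    have h1 : ContDiff ℝ ∞ (fun p : ℝ × (ℂ × ℂ) => Complex.normSq p.2.1) := by
      have : (fun p : ℝ × (ℂ × ℂ) => Complex.normSq p.2.1) =
          fun p : ℝ × (ℂ × ℂ) => xL p.2 * xL p.2 + yL p.2 * yL p.2 := by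
        funext p; simp [xL, yL, Complex.normSq_apply]
      rw [this]
      exact ((xL.contDiff.comp contDiff_snd).mul (xL.contDiff.comp contDiff_snd)).add
        ((yL.contDiff.comp contDiff_snd).mul (yL.contDiff.comp contDiff_snd))
    have h2 : ContDiff ℝ ∞ (fun p : ℝ × (ℂ × ℂ) => P p.2.2.re) :=
      hP.comp (zL.contDiff.comp contDiff_snd)
    exact ((h1.div_const 2).add h2).neg.contDiffAt
  mapsΦ t q hq := rot_mem_dom t hq
  mapsΓ t q hq := rot_mem_dom _ hq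
  left t q _ := by rw [rot_rot]; simp [rot_zero]
  right t q _ := by rw [rot_rot]; simp [rot_zero]
  symp t q _ v w := by
    rw [fderiv_rot, fderiv_rot, form_rot]
  ham t q hq v := by
    rw [deriv_rot]
    have hy : rot t q ∈ dom S := rot_mem_dom t hq
    have hy1 : (rot t q).1 = Complex.exp (t * Complex.I) * q.1 := rfl
    rw [← hy1]
    generalize rot t q = y at *
    have h1 : HasFDerivAt (fun q : ℂ × ℂ => xL q * xL q + yL q * yL q)
        ((xL y • xL + xL y • xL) + (yL y • yL + yL y • yL)) y :=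
      (xL.hasFDerivAt.mul xL.hasFDerivAt).add (yL.hasFDerivAt.mul yL.hasFDerivAt)
    have h2 : (fun q : ℂ × ℂ => xL q * xL q + yL q * yL q) = fun q => Complex.normSq q.1 := by
      funext q; simp [xL, yL, Complex.normSq_apply]
    rw [h2] at h1
    have h3 : HasDerivAt P (b y.2.re) (zL y) := by
      have := ((hP.differentiable (by simp)).differentiableAt (x := zL y)).hasDerivAt
      rwa [hPb] at this
    have h4 : HasFDerivAt (fun q : ℂ × ℂ => P q.2.re) (b y.2.re • zL) y :=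
      h3.comp_hasFDerivAt y zL.hasFDerivAt
    have h5 := ((h1.mul_const (1 / 2 : ℝ)).add h4).neg
    have h6 : fderiv ℝ (fun q : ℂ × ℂ => -(Complex.normSq q.1 / 2 + P q.2.re)) y =
        -((1 / 2 : ℝ) • ((xL y • xL + xL y • xL) + (yL y • yL + yL y • yL)) + b y.2.re • zL) := by
      have h7 : (fun q : ℂ × ℂ => -(Complex.normSq q.1 / 2 + P q.2.re)) =
          fun q => -(Complex.normSq q.1 * (1 / 2 : ℝ) + P q.2.re) := by
        funext q; ring
      rw [h7]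
      exact h5.fderiv
    rw [h6, form_apply]
    by_cases h0 : y.1 = 0
    · have hb0 : b y.2.re = 0 := by
        rcases hy with h | h
        · exact absurd h0 h
        · exact hbS _ h
      simp [h0, hb0, xL, yL, zL]
    · have h8 : y.1⁻¹ * (Complex.I * y.1) = Complex.I := by field_simp
      rw [h8]
      simp [xL, yL, zL]
      ring

end Pool.Agent.Helper700
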