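import Mathlib
import Pool.Agent.Helper700.Rot

open Set Filter Topology
open scoped ContDiff

namespace Pool.Agent.Helper700

/-- `β(q) = b(z) arg ζ` -/
noncomputable def bet (b : ℝ → ℝ) (q : ℂ × ℂ) : ℝ := b q.2.re * Complex.arg q.1

/-- Darboux chart -/
noncomputable def kap (b g : ℝ → ℝ) (q : ℂ × ℂ) : ℂ × ℂ :=
  (q.1 + (g q.2.re : ℂ),
    q.2 + ((b q.2.re * Complex.arg q.1 - deriv g q.2.re * q.1.im : ℝ) : ℂ) * Complex.I)

/-- its inverse -/
noncomputable def kapi (b g : ℝ → ℝ) (q : ℂ × ℂ) : ℂ × ℂ :=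
  (q.1 - (g q.2.re : ℂ),
    q.2 - ((b q.2.re * Complex.arg (q.1 - (g q.2.re : ℂ)) - deriv g q.2.re * q.1.im : ℝ) : ℂ)
      * Complex.I)

lemma kapi_kap (b g : ℝ → ℝ) (q : ℂ × ℂ) : kapi b g (kap b g q) = q := by
  simp [kapi, kap]

lemma kap_kapi (b g : ℝ → ℝ) (q : ℂ × ℂ) : kap b g (kapi b g q) = q := by
  simp [kapi, kap]

/-- domain of smoothness of `kap` -/
def slit (S : Set ℝ) : Set (ℂ × ℂ) := {q | q.1 ∈ Complex.slitPlane ∨ q.2.re ∉ S}

lemma slit_subset_dom (S : Set ℝ) : slit S ⊆ dom S := by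
  rintro q (h | h)
  · left
    rintro h0
    rw [h0] at h
    simp at h
  · exact Or.inr h

lemma isOpen_slit {S : Set ℝ} (hS : IsClosed S) : IsOpen (slit S) := by
  have h1 : IsOpen {q : ℂ × ℂ | q.1 ∈ Complex.slitPlane} :=
    Complex.isOpen_slitPlane.preimage continuous_fst
  have h2 : IsOpen {q : ℂ × ℂ | q.2.re ∉ S} := by
    have : Continuous (fun q : ℂ × ℂ => q.2.re) := Complex.continuous_re.comp continuous_snd
    exact hS.isOpen_compl.preimage this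
  exact h1.union h2

section

variable {b g : ℝ → ℝ} {S : Set ℝ}

lemma contDiffAt_bet (hb : ContDiff ℝ ∞ b) (hS : IsClosed S) (hbS : ∀ z ∉ S, b z = 0)
    {q : ℂ × ℂ} (hq : q ∈ slit S) : ContDiffAt ℝ ∞ (bet b) q := by
  rcases hq with h | h
  · have h1 : ContDiffAt ℝ ∞ (fun q : ℂ × ℂ => b q.2.re) q :=
      (hb.comp (zL.contDiff)).contDiffAt
    have h2 : ContDiffAt ℝ ∞ (fun q : ℂ × ℂ => (Complex.log q.1).im) q := by
      have h3 : ContDiffAt ℝ ∞ Complex.log q.1 :=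
        (Complex.contDiffAt_log h (n := ∞)).restrict_scalars ℝ
      exact Complex.imCLM.contDiff.contDiffAt.comp q (h3.comp q contDiffAt_fst)
    have h4 : bet b = fun q : ℂ × ℂ => b q.2.re * (Complex.log q.1).im := by
      funext q; rw [Complex.log_im]; rfl
    rw [h4]
    exact h1.mul h2
  · have : bet b =ᶠ[𝓝 q] fun _ => 0 := by
      filter_upwards [eventually_zero hS hbS h] with y hy
      simp [bet, hy]
    exact contDiffAt_const.congr_of_eventuallyEq this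

lemma hasFDerivAt_bet (hb : ContDiff ℝ ∞ b) (hS : IsClosed S) (hbS : ∀ z ∉ S, b z = 0)
    {q : ℂ × ℂ} (hq : q ∈ slit S) : ∃ D : ℂ × ℂ →L[ℝ] ℝ, HasFDerivAt (bet b) D q ∧
      ∀ v, D v = deriv b q.2.re * v.2.re * Complex.arg q.1 + b q.2.re * (q.1⁻¹ * v.1).im := by
  by_cases h : q.2.re ∈ S
  · have h0 : q.1 ∈ Complex.slitPlane := by
      rcases hq with h1 | h1
      · exact h1
      · exact absurd h h1
    have h1 : HasDerivAt b (deriv b q.2.re) q.2.re :=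
      (hb.differentiable (by simp)).differentiableAt.hasDerivAt
    have h2 : HasFDerivAt (fun q : ℂ × ℂ => q.2.re) zL q := zL.hasFDerivAt
    have h3 := h1.comp_hasFDerivAt q h2
    have h4 : HasFDerivAt (fun q : ℂ × ℂ => q.1) (ContinuousLinearMap.fst ℝ ℂ ℂ) q :=
      hasFDerivAt_fst
    have h5 := (Complex.hasStrictFDerivAt_log_real h0).hasFDerivAt.comp q h4
    have h6 := Complex.imCLM.hasFDerivAt.comp q h5
    have h7 := h3.mul h6
    have h8 : bet b = fun q : ℂ × ℂ => b q.2.re * (Complex.log q.1).im := by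
      funext q; rw [Complex.log_im]; rfl
    refine ⟨_, by rw [h8]; exact h7, fun v => ?_⟩
    simp [zL, Complex.log_im]
    ring
  · have h1 : bet b =ᶠ[𝓝 q] fun _ => 0 := by
      filter_upwards [eventually_zero hS hbS h] with y hy
      simp [bet, hy]
    refine ⟨0, (hasFDerivAt_const (0 : ℝ) q).congr_of_eventuallyEq h1, fun v => ?_⟩
    simp [hbS _ h, deriv_zero hS hbS h]

lemma kap_eq (b g : ℝ → ℝ) (q : ℂ × ℂ) : kap b g q =
    (q.1 + (g q.2.re : ℂ), q.2 + ((bet b q - deriv g q.2.re * q.1.im : ℝ) : ℂ) * Complex.I) := rfl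

lemma contDiffAt_kap (hb : ContDiff ℝ ∞ b) (hg : ContDiff ℝ ∞ g) (hS : IsClosed S)
    (hbS : ∀ z ∉ S, b z = 0) {q : ℂ × ℂ} (hq : q ∈ slit S) : ContDiffAt ℝ ∞ (kap b g) q := by
  have hg' : ContDiff ℝ ∞ (deriv g) := hg.deriv'
  have h1 : ContDiffAt ℝ ∞ (fun q : ℂ × ℂ => ((g q.2.re : ℝ) : ℂ)) q :=
    (Complex.ofRealCLM.contDiff.comp (hg.comp zL.contDiff)).contDiffAt
  have h2 : ContDiffAt ℝ ∞ (fun q : ℂ × ℂ => bet b q - deriv g q.2.re * q.1.im) q :=
    (contDiffAt_bet hb hS hbS hq).sub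
      ((hg'.comp zL.contDiff).mul yL.contDiff).contDiffAt
  have h3 : ContDiffAt ℝ ∞ (fun q : ℂ × ℂ => ((bet b q - deriv g q.2.re * q.1.im : ℝ) : ℂ)) q :=
    Complex.ofRealCLM.contDiff.contDiffAt.comp q h2
  exact (contDiffAt_fst.add h1).prodMk (contDiffAt_snd.add (h3.mul contDiffAt_const))

lemma hasFDerivAt_kap (hb : ContDiff ℝ ∞ b) (hg : ContDiff ℝ ∞ g) (hS : IsClosed S)
    (hbS : ∀ z ∉ S, b z = 0) {q : ℂ × ℂ} (hq : q ∈ slit S) (v : ℂ × ℂ) :
    fderiv ℝ (kap b g) q v = (v.1 + ((deriv g q.2.re * v.2.re : ℝ) : ℂ),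
      v.2 + (((deriv b q.2.re * v.2.re * Complex.arg q.1 + b q.2.re * (q.1⁻¹ * v.1).im)
        - (deriv (deriv g) q.2.re * v.2.re * q.1.im + deriv g q.2.re * v.1.im) : ℝ) : ℂ)
          * Complex.I) := by
  have hg' : ContDiff ℝ ∞ (deriv g) := hg.deriv'
  obtain ⟨D, hD, hD'⟩ := hasFDerivAt_bet hb hS hbS hq
  have h1 : HasDerivAt g (deriv g q.2.re) q.2.re :=
    (hg.differentiable (by simp)).differentiableAt.hasDerivAt
  have h1' : HasDerivAt (deriv g) (deriv (deriv g) q.2.re) q.2.re :=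
    (hg'.differentiable (by simp)).differentiableAt.hasDerivAt
  have h2 : HasFDerivAt (fun q : ℂ × ℂ => q.2.re) zL q := zL.hasFDerivAt
  have h2y : HasFDerivAt (fun q : ℂ × ℂ => q.1.im) yL q := yL.hasFDerivAt
  have h3 := Complex.ofRealCLM.hasFDerivAt.comp q (h1.comp_hasFDerivAt q h2)
  have h4 := (h1'.comp_hasFDerivAt q h2).mul h2y
  have h5 := Complex.ofRealCLM.hasFDerivAt.comp q (hD.sub h4)
  have h6 := ((hasFDerivAt_fst (𝕜 := ℝ) (p := q)).add h3).prodMk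
    ((hasFDerivAt_snd (𝕜 := ℝ) (p := q)).add (h5.mul_const Complex.I))
  have h7 : HasFDerivAt (kap b g) _ q := h6
  rw [h7.fderiv]
  apply Prod.ext
  · simp [zL]
  · simp [zL, yL, hD']
    ring

lemma form0_kap (hb : ContDiff ℝ ∞ b) (hg : ContDiff ℝ ∞ g) (hS : IsClosed S)
    (hbS : ∀ z ∉ S, b z = 0) {q : ℂ × ℂ} (hq : q ∈ slit S) (v w : ℂ × ℂ) :
    form0 (fderiv ℝ (kap b g) q v) (fderiv ℝ (kap b g) q w) = form b q v w := by
  rw [hasFDerivAt_kap hb hg hS hbS hq, hasFDerivAt_kap hb hg hS hbS hq, form_apply]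
  generalize (q.1⁻¹ * v.1).im = A
  generalize (q.1⁻¹ * w.1).im = B
  simp only [form0, Complex.add_re, Complex.add_im, Complex.mul_re, Complex.mul_im,
    Complex.ofReal_re, Complex.ofReal_im, Complex.I_re, Complex.I_im]
  ring

lemma contDiffAt_kapi (hb : ContDiff ℝ ∞ b) (hg : ContDiff ℝ ∞ g) (hS : IsClosed S)
    (hbS : ∀ z ∉ S, b z = 0) {q : ℂ × ℂ} (hq : (q.1 - (g q.2.re : ℂ), q.2) ∈ slit S) :
    ContDiffAt ℝ ∞ (kapi b g) q := by
  have hg' : ContDiff ℝ ∞ (deriv g) := hg.deriv'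
  have h1 : ContDiffAt ℝ ∞ (fun q : ℂ × ℂ => ((g q.2.re : ℝ) : ℂ)) q :=
    (Complex.ofRealCLM.contDiff.comp (hg.comp zL.contDiff)).contDiffAt
  have h0 : ContDiffAt ℝ ∞ (fun q : ℂ × ℂ => (q.1 - (g q.2.re : ℂ), q.2)) q :=
    (contDiffAt_fst.sub h1).prodMk contDiffAt_snd
  have h00 : ContDiffAt ℝ ∞ (fun q : ℂ × ℂ => bet b (q.1 - (g q.2.re : ℂ), q.2)) q :=
    ContDiffAt.comp (g := bet b) q (contDiffAt_bet hb hS hbS hq) h0
  have h2 : ContDiffAt ℝ ∞ (fun q : ℂ × ℂ => bet b (q.1 - (g q.2.re : ℂ), q.2)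
      - deriv g q.2.re * q.1.im) q :=
    h00.sub ((hg'.comp zL.contDiff).mul yL.contDiff).contDiffAt
  have h3 : ContDiffAt ℝ ∞ (fun q : ℂ × ℂ => ((bet b (q.1 - (g q.2.re : ℂ), q.2)
      - deriv g q.2.re * q.1.im : ℝ) : ℂ)) q :=
    Complex.ofRealCLM.contDiff.contDiffAt.comp q h2
  exact (contDiffAt_fst.sub h1).prodMk (contDiffAt_snd.sub (h3.mul contDiffAt_const))

end

/-! ### the symplectomorphism `Ψ` -/

/-- `Ψ = κ⁻¹ ∘ (radial rotation about `c`) ∘ κ` -/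
noncomputable def Psi (b g : ℝ → ℝ) (c : ℂ × ℂ) (θ : ℝ → ℝ) (q : ℂ × ℂ) : ℂ × ℂ :=
  kapi b g (rad c θ (kap b g q))

/-- standing assumptions -/
structure Data (b g : ℝ → ℝ) (S : Set ℝ) (c : ℂ × ℂ) (R : ℝ) : Prop where
  hb : ContDiff ℝ ∞ b
  hg : ContDiff ℝ ∞ g
  hS : IsClosed S
  hbS : ∀ z ∉ S, b z = 0
  hball : ∀ q : ℂ × ℂ, nsq (q - c) ≤ R → (q.1 - (g q.2.re : ℂ), q.2) ∈ slit S

/-- the closed ball -/
def ball0 (c : ℂ × ℂ) (R : ℝ) : Set (ℂ × ℂ) := {q | nsq (q - c) ≤ R}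

lemma norm_le_of_nsq {q : ℂ × ℂ} {R : ℝ} (h : nsq q ≤ R) : ‖q‖ ≤ Real.sqrt R := by
  have h1 : 0 ≤ Complex.normSq q.1 := Complex.normSq_nonneg _
  have h2 : 0 ≤ Complex.normSq q.2 := Complex.normSq_nonneg _
  have h3 : nsq q = Complex.normSq q.1 + Complex.normSq q.2 := rfl
  rw [Prod.norm_def]
  apply max_le
  · apply Real.le_sqrt_of_sq_le
    rw [← Complex.normSq_eq_norm_sq]
    linarith
  · apply Real.le_sqrt_of_sq_le
    rw [← Complex.normSq_eq_norm_sq]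
    linarith

lemma isCompact_ball0 (c : ℂ × ℂ) (R : ℝ) : IsCompact (ball0 c R) := by
  refine Metric.isCompact_of_isClosed_isBounded ?_ ?_
  · exact isClosed_le (contDiff_nsq.continuous.comp (continuous_id.sub continuous_const))
      continuous_const
  · refine (Metric.isBounded_closedBall (x := c) (r := Real.sqrt R)).subset ?_
    intro q hq
    rw [mem_closedBall_iff_norm]
    exact norm_le_of_nsq hq

section

variable {b g : ℝ → ℝ} {S : Set ℝ} {c : ℂ × ℂ} {R : ℝ}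

/-- the support region -/
def core (b g : ℝ → ℝ) (c : ℂ × ℂ) (R : ℝ) : Set (ℂ × ℂ) := kapi b g '' ball0 c R

lemma mem_core {q : ℂ × ℂ} : q ∈ core b g c R ↔ kap b g q ∈ ball0 c R := by
  constructor
  · rintro ⟨y, hy, rfl⟩
    rwa [kap_kapi]
  · intro h
    exact ⟨_, h, kapi_kap b g q⟩

lemma Data.isCompact_core (D : Data b g S c R) : IsCompact (core b g c R) := by
  apply (isCompact_ball0 c R).image_of_continuousOn
  intro q hq
  exact (contDiffAt_kapi D.hb D.hg D.hS D.hbS (D.hball q hq)).continuousAt.continuousWithinAt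

lemma Data.core_subset_slit (D : Data b g S c R) : core b g c R ⊆ slit S := by
  rintro q ⟨y, hy, rfl⟩
  have := D.hball y hy
  rcases this with h | h
  · exact Or.inl h
  · right
    simpa [kapi] using h

lemma Psi_inv (θ : ℝ → ℝ) (q : ℂ × ℂ) : Psi b g c (fun N => -θ N) (Psi b g c θ q) = q := by
  simp only [Psi]
  rw [kap_kapi, rad_neg, kapi_kap]

lemma Psi_inv' (θ : ℝ → ℝ) (q : ℂ × ℂ) : Psi b g c θ (Psi b g c (fun N => -θ N) q) = q := by
  simp only [Psi]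
  rw [kap_kapi, rad_neg', kapi_kap]

lemma Psi_of_not_mem {θ : ℝ → ℝ} (hθ : ∀ N, R ≤ N → θ N = 0) {q : ℂ × ℂ}
    (hq : q ∉ core b g c R) : Psi b g c θ q = q := by
  rw [mem_core] at hq
  have h : R < nsq (kap b g q - c) := not_le.1 hq
  simp only [Psi]
  rw [rad_of_zero _ _ _ (hθ _ h.le), kapi_kap]

lemma Psi_mem_core {θ : ℝ → ℝ} {q : ℂ × ℂ} (hq : q ∈ core b g c R) :
    Psi b g c θ q ∈ core b g c R := by
  rw [mem_core] at hq ⊢
  simp only [Psi]
  rw [kap_kapi]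
  change nsq (rad c θ (kap b g q) - c) ≤ R
  rw [nsq_rad]
  exact hq

lemma Data.Psi_eventually (D : Data b g S c R) {θ : ℝ → ℝ} (hθ : ∀ N, R ≤ N → θ N = 0)
    {q : ℂ × ℂ} (hq : q ∉ core b g c R) : Psi b g c θ =ᶠ[𝓝 q] id := by
  filter_upwards [D.isCompact_core.isClosed.isOpen_compl.mem_nhds hq] with y hy
  exact Psi_of_not_mem hθ hy

lemma Data.contDiffAt_Psi (D : Data b g S c R) {θ : ℝ → ℝ} (hθc : ContDiff ℝ ∞ θ)
    (hθ : ∀ N, R ≤ N → θ N = 0) (q : ℂ × ℂ) : ContDiffAt ℝ ∞ (Psi b g c θ) q := by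
  by_cases hq : q ∈ core b g c R
  · have h1 : ContDiffAt ℝ ∞ (kap b g) q :=
      contDiffAt_kap D.hb D.hg D.hS D.hbS (D.core_subset_slit hq)
    have h2 : ContDiffAt ℝ ∞ (rad c θ) (kap b g q) := (contDiff_rad c hθc).contDiffAt
    have h3 : rad c θ (kap b g q) ∈ ball0 c R := by
      change nsq (rad c θ (kap b g q) - c) ≤ R
      rw [nsq_rad]
      exact mem_core.1 hq
    have h4 : ContDiffAt ℝ ∞ (kapi b g) (rad c θ (kap b g q)) :=
      contDiffAt_kapi D.hb D.hg D.hS D.hbS (D.hball _ h3)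
    exact h4.comp q (h2.comp q h1)
  · exact contDiffAt_id.congr_of_eventuallyEq (D.Psi_eventually hθ hq)

lemma Data.symp_Psi (D : Data b g S c R) {θ : ℝ → ℝ} (hθc : ContDiff ℝ ∞ θ)
    (hθ : ∀ N, R ≤ N → θ N = 0) (q v w : ℂ × ℂ) :
    form b (Psi b g c θ q) (fderiv ℝ (Psi b g c θ) q v) (fderiv ℝ (Psi b g c θ) q w) =
      form b q v w := by
  by_cases hq : q ∈ core b g c R
  · have hs := D.core_subset_slit hq
    have hs' := D.core_subset_slit (Psi_mem_core (θ := θ) hq)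
    have h1 : DifferentiableAt ℝ (kap b g) q :=
      (contDiffAt_kap D.hb D.hg D.hS D.hbS hs).differentiableAt (by simp)
    have h2 : DifferentiableAt ℝ (rad c θ) (kap b g q) :=
      (contDiff_rad c hθc).contDiffAt.differentiableAt (by simp)
    have h3 : DifferentiableAt ℝ (kap b g) (Psi b g c θ q) :=
      (contDiffAt_kap D.hb D.hg D.hS D.hbS hs').differentiableAt (by simp)
    have h4 : DifferentiableAt ℝ (Psi b g c θ) q :=
      (D.contDiffAt_Psi hθc hθ q).differentiableAt (by simp)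
    have h5 : kap b g ∘ Psi b g c θ = rad c θ ∘ kap b g := by
      funext y
      simp [Psi, kap_kapi]
    have h6 := h3.hasFDerivAt.comp q h4.hasFDerivAt
    have h7 := h2.hasFDerivAt.comp q h1.hasFDerivAt
    rw [h5] at h6
    have h8 := h6.unique h7
    have h9 : ∀ u, fderiv ℝ (kap b g) (Psi b g c θ q) (fderiv ℝ (Psi b g c θ) q u) =
        fderiv ℝ (rad c θ) (kap b g q) (fderiv ℝ (kap b g) q u) := by
      intro u
      have := congrArg (fun L : ℂ × ℂ →L[ℝ] ℂ × ℂ => L u) h8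
      simpa using this
    rw [← form0_kap D.hb D.hg D.hS D.hbS hs', h9, h9, form0_rad c hθc,
      form0_kap D.hb D.hg D.hS D.hbS hs]
  · have h := D.Psi_eventually hθ hq
    rw [h.fderiv_eq, h.eq_of_nhds]
    simp

end

end Pool.Agent.Helper700
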