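import Mathlib
import Pool.Agent.Helper700.Psi

open Set Filter Topology
open scoped ContDiff

namespace Pool.Agent.Helper700

/-! ### the loop `F_t Ψ F_{-t} Ψ⁻¹` -/

section Loop

variable {b g P : ℝ → ℝ} {S : Set ℝ} {c : ℂ × ℂ} {R : ℝ} {θ : ℝ → ℝ}

/-- The commutator loop, run `k` times. -/
noncomputable def loopIso (D : Data b g S c R) (hP : ContDiff ℝ ∞ P) (hPb : ∀ z, deriv P z = b z)
    (hθc : ContDiff ℝ ∞ θ) (hθ : ∀ N, R ≤ N → θ N = 0) (k : ℤ) : Iso (dom S) (form b) :=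
  Iso.comp (isOpen_dom D.hS) ((rotIso hP hPb D.hbS).speed (2 * Real.pi * k))
    (((rotIso hP hPb D.hbS).speed (-(2 * Real.pi * k))).conj (isOpen_dom D.hS)
      (Psi b g c θ) (Psi b g c (fun N => -θ N))
      (fun x _ => D.contDiffAt_Psi hθc hθ x)
      (fun x _ => D.contDiffAt_Psi hθc.neg (fun N hN => by simp [hθ N hN]) x)
      (fun x hx => by
        by_cases h : x ∈ core b g c R
        · exact slit_subset_dom S (D.core_subset_slit (Psi_mem_core h))
        · rw [Psi_of_not_mem hθ h]; exact hx)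
      (fun x hx => by
        by_cases h : x ∈ core b g c R
        · exact slit_subset_dom S (D.core_subset_slit (Psi_mem_core h))
        · rw [Psi_of_not_mem (fun N hN => by simp [hθ N hN]) h]; exact hx)
      (fun x _ => Psi_inv' θ x) (fun x _ => Psi_inv θ x)
      (fun x _ v w => D.symp_Psi hθc hθ x v w)
      (fun x _ v w => D.symp_Psi hθc.neg (fun N hN => by simp [hθ N hN]) x v w))

variable (D : Data b g S c R) (hP : ContDiff ℝ ∞ P) (hPb : ∀ z, deriv P z = b z)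
    (hθc : ContDiff ℝ ∞ θ) (hθ : ∀ N, R ≤ N → θ N = 0) (k : ℤ)

lemma loopIso_Φ (t : ℝ) (q : ℂ × ℂ) : (loopIso D hP hPb hθc hθ k).Φ t q =
    rot (2 * Real.pi * k * t) (Psi b g c θ (rot (-(2 * Real.pi * k) * t)
      (Psi b g c (fun N => -θ N) q))) := rfl

lemma loopIso_Γ (t : ℝ) (q : ℂ × ℂ) : (loopIso D hP hPb hθc hθ k).Γ t q =
    Psi b g c θ (rot (-(-(2 * Real.pi * k) * t)) (Psi b g c (fun N => -θ N)
      (rot (-(2 * Real.pi * k * t)) q))) := rfl

lemma loopIso_H (t : ℝ) (q : ℂ × ℂ) : (loopIso D hP hPb hθc hθ k).H t q =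
    2 * Real.pi * k * (-(Complex.normSq q.1 / 2 + P q.2.re)) +
    -(2 * Real.pi * k) *
      (-(Complex.normSq (Psi b g c (fun N => -θ N) (rot (-(2 * Real.pi * k * t)) q)).1 / 2 +
        P (Psi b g c (fun N => -θ N) (rot (-(2 * Real.pi * k * t)) q)).2.re)) := rfl

lemma loopIso_zero (q : ℂ × ℂ) : (loopIso D hP hPb hθc hθ k).Φ 0 q = q := by
  rw [loopIso_Φ]
  simp only [mul_zero, rot_zero]
  exact Psi_inv' θ q

lemma loopIso_one (q : ℂ × ℂ) : (loopIso D hP hPb hθc hθ k).Φ 1 q = q := by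
  rw [loopIso_Φ]
  have h1 : (-(2 * Real.pi * k) * 1 : ℝ) = 2 * Real.pi * ((-k : ℤ) : ℝ) := by push_cast; ring
  rw [mul_one, rot_int, h1, rot_int]
  exact Psi_inv' θ q

/-- the saturation of the support under the rotation -/
def sat (C : Set (ℂ × ℂ)) : Set (ℂ × ℂ) :=
  (fun p : ℂ × (ℂ × ℂ) => (p.1 * p.2.1, p.2.2)) '' (Metric.sphere (0 : ℂ) 1 ×ˢ C)

lemma isCompact_sat {C : Set (ℂ × ℂ)} (hC : IsCompact C) : IsCompact (sat C) := by
  apply ((isCompact_sphere (0 : ℂ) 1).prod hC).image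
  fun_prop

lemma mem_sat_of_rot {C : Set (ℂ × ℂ)} {q : ℂ × ℂ} {t : ℝ} (h : rot t q ∈ C) : q ∈ sat C := by
  refine ⟨(Complex.exp ((-t : ℝ) * Complex.I), rot t q), ⟨?_, h⟩, ?_⟩
  · rw [mem_sphere_zero_iff_norm, Complex.norm_exp_ofReal_mul_I]
  · have := rot_rot (-t) t q
    rw [neg_add_cancel, rot_zero] at this
    exact this

lemma sat_subset_dom (C : Set (ℂ × ℂ)) (hC : C ⊆ dom S) : sat C ⊆ dom S := by
  rintro q ⟨⟨u, y⟩, ⟨hu, hy⟩, rfl⟩
  have hu' : u ≠ 0 := by
    rintro rfl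
    simp at hu
  rcases hC hy with h | h
  · exact Or.inl (mul_ne_zero hu' h)
  · exact Or.inr h

lemma normSq_rot (t : ℝ) (q : ℂ × ℂ) : Complex.normSq (rot t q).1 = Complex.normSq q.1 := by
  simp only [rot, map_mul, normSq_exp, one_mul]

include D in
lemma loop_off {q : ℂ × ℂ} (hq : q ∉ sat (core b g c R)) (t : ℝ) :
    (loopIso D hP hPb hθc hθ k).Φ t q = q ∧ (loopIso D hP hPb hθc hθ k).Γ t q = q ∧
      (loopIso D hP hPb hθc hθ k).H t q = 0 := by
  have h1 : ∀ s, rot s q ∉ core b g c R := fun s h => hq (mem_sat_of_rot h)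
  have h0 : q ∉ core b g c R := by
    have := h1 0
    rwa [rot_zero] at this
  have hθ' : ∀ N, R ≤ N → (fun N => -θ N) N = 0 := fun N hN => by simp [hθ N hN]
  refine ⟨?_, ?_, ?_⟩
  · rw [loopIso_Φ, Psi_of_not_mem hθ' h0, Psi_of_not_mem hθ (h1 _), rot_rot]
    have : 2 * Real.pi * k * t + -(2 * Real.pi * k) * t = 0 := by ring
    rw [this, rot_zero]
  · rw [loopIso_Γ, Psi_of_not_mem hθ' (h1 _), rot_rot]
    have : -(-(2 * Real.pi * k) * t) + -(2 * Real.pi * k * t) = 0 := by ring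
    rw [this, rot_zero, Psi_of_not_mem hθ h0]
  · rw [loopIso_H, Psi_of_not_mem hθ' (h1 _), normSq_rot]
    simp only [rot]
    ring

/-- Near the origin the isotopy is the identity and the Hamiltonian is constant. -/
structure Near (b g P : ℝ → ℝ) (c : ℂ × ℂ) (m : ℝ) (θ : ℝ → ℝ) : Prop where
  hc : c = (0, (m : ℂ))
  hθ : ∀ q : ℂ × ℂ, ‖q‖ ≤ 1 / 20 → θ (nsq (q - c)) = Real.pi
  hg : ∀ z : ℝ, |z| ≤ 1 / 20 → g z = 0 ∧ g (2 * m - z) = 0
  hg' : ∀ z : ℝ, |z| ≤ 1 / 20 → deriv g z = 0 ∧ deriv g (2 * m - z) = 0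
  hb : ∀ z : ℝ, |z| ≤ 1 / 20 → b z = 0 ∧ b (2 * m - z) = 0
  hP : ∀ z : ℝ, |z| ≤ 1 / 20 → P z = P 0 ∧ P (2 * m - z) = P (2 * m)

lemma em_pi (v : ℂ × ℂ) : em Real.pi v = -v := by
  simp [em, Complex.exp_pi_mul_I]
  rfl

lemma em_neg_pi (v : ℂ × ℂ) : em (-Real.pi) v = -v := by
  have h := em_em Real.pi (-Real.pi) v
  rw [add_neg_cancel, em_zero, em_pi] at h
  rw [← neg_eq_iff_eq_neg]
  exact h

lemma kap_of_flat {q : ℂ × ℂ} (h1 : g q.2.re = 0) (h2 : deriv g q.2.re = 0) (h3 : b q.2.re = 0) :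
    kap b g q = q := by
  simp [kap, h1, h2, h3]

lemma kapi_of_flat {q : ℂ × ℂ} (h1 : g q.2.re = 0) (h2 : deriv g q.2.re = 0)
    (h3 : b q.2.re = 0) : kapi b g q = q := by
  simp [kapi, h1, h2, h3]

lemma abs_re_le (q : ℂ × ℂ) {r : ℝ} (h : ‖q‖ ≤ r) : |q.2.re| ≤ r :=
  (Complex.abs_re_le_norm _).trans ((norm_snd_le q).trans h)

lemma Psi_near {m : ℝ} (N : Near b g P c m θ) {q : ℂ × ℂ} (hq : ‖q‖ ≤ 1 / 20) :
    Psi b g c (fun N => -θ N) q = c + c - q := by
  have hz := abs_re_le q hq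
  have hc2 : (c + c - q).2.re = 2 * m - q.2.re := by
    rw [N.hc]; simp; ring
  simp only [Psi]
  rw [kap_of_flat (N.hg _ hz).1 (N.hg' _ hz).1 (N.hb _ hz).1]
  have h1 : rad c (fun N => -θ N) q = c + c - q := by
    simp only [rad]
    rw [N.hθ q hq, em_neg_pi]
    abel
  rw [h1]
  apply kapi_of_flat
  · rw [hc2]; exact (N.hg _ hz).2
  · rw [hc2]; exact (N.hg' _ hz).2
  · rw [hc2]; exact (N.hb _ hz).2

lemma Psi_near' {m : ℝ} (N : Near b g P c m θ) {q : ℂ × ℂ} (hq : ‖q‖ ≤ 1 / 20) :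
    Psi b g c θ (c + c - q) = q := by
  rw [← Psi_near N hq, Psi_inv']

lemma norm_rot (t : ℝ) (q : ℂ × ℂ) : ‖rot t q‖ = ‖q‖ := by
  simp only [rot, Prod.norm_def, norm_mul, Complex.norm_exp_ofReal_mul_I, one_mul]

include D in
lemma loop_near {m : ℝ} (N : Near b g P c m θ) {q : ℂ × ℂ} (hq : ‖q‖ ≤ 1 / 20) (t : ℝ) :
    (loopIso D hP hPb hθc hθ k).Φ t q = q ∧ (loopIso D hP hPb hθc hθ k).Γ t q = q ∧
      (loopIso D hP hPb hθc hθ k).H t q = 2 * Real.pi * k * (P (2 * m) - P 0) := by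
  have hlin : ∀ s (y : ℂ × ℂ), rot s (c + c - y) = c + c - rot s y := by
    intro s y
    rw [N.hc]
    simp only [rot]
    apply Prod.ext <;> simp
  have hr : ∀ s, ‖rot s q‖ ≤ 1 / 20 := fun s => by rw [norm_rot]; exact hq
  refine ⟨?_, ?_, ?_⟩
  · rw [loopIso_Φ, Psi_near N hq, hlin, Psi_near' N (hr _), rot_rot]
    have : 2 * Real.pi * k * t + -(2 * Real.pi * k) * t = 0 := by ring
    rw [this, rot_zero]
  · rw [loopIso_Γ, Psi_near N (hr _), hlin, rot_rot]
    have : -(-(2 * Real.pi * k) * t) + -(2 * Real.pi * k * t) = 0 := by ring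
    rw [this, rot_zero, Psi_near' N hq]
  · rw [loopIso_H, Psi_near N (hr _)]
    have h1 : (c + c - rot (-(2 * Real.pi * k * t)) q).1 = -(rot (-(2 * Real.pi * k * t)) q).1 := by
      rw [N.hc]; simp
    have h2 : (c + c - rot (-(2 * Real.pi * k * t)) q).2.re = 2 * m - q.2.re := by
      rw [N.hc]; simp [rot]; ring
    have hz := abs_re_le q hq
    rw [h1, h2, Complex.normSq_neg, normSq_rot, (N.hP _ hz).2, (N.hP _ hz).1]
    ring

end Loop

/-! ### the small radial rotations -/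

section Small

variable {b : ℝ → ℝ} {S : Set ℝ}

lemma abs_le_of_nsq {q : ℂ × ℂ} (h : nsq q < 1) : |q.2.re| < 1 := by
  rw [nsq_eq] at h
  have : q.2.re ^ 2 < 1 := by nlinarith [sq_nonneg q.1.re, sq_nonneg q.1.im, sq_nonneg q.2.im]
  exact (sq_lt_one_iff_abs_lt_one _).1 this

/-- `H = 2πν ρ(|q|²)` and its flow -/
noncomputable def radIso {ρ : ℝ → ℝ} (hρ : ContDiff ℝ ∞ ρ) (hρ0 : ∀ N, 1 / 8 ≤ N → deriv ρ N = 0)
    (hbz : ∀ z, |z| < 1 → b z = 0) (hSz : ∀ z ∈ S, 1 ≤ |z|) (ν : ℝ) :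
    Iso (dom S) (form b) where
  Φ t q := rad 0 (fun N => t * (-(4 * Real.pi * ν) * deriv ρ N)) q
  Γ t q := rad 0 (fun N => (-t) * (-(4 * Real.pi * ν) * deriv ρ N)) q
  H _ q := 2 * Real.pi * ν * ρ (nsq q)
  hΦ := fun t q _ => (contDiff_rad2 0 (contDiff_const.mul hρ.deriv')).contDiffAt
  hΓ := fun t q _ => by
    have h : ContDiff ℝ ∞ (fun p : ℝ × (ℂ × ℂ) => (-p.1, p.2)) :=
      contDiff_fst.neg.prodMk contDiff_snd
    exact ((contDiff_rad2 0 (contDiff_const.mul hρ.deriv')).comp h).contDiffAt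
  hH := fun t q _ => (contDiff_const.mul (hρ.comp (contDiff_nsq.comp contDiff_snd))).contDiffAt
  mapsΦ t q hq := by
    by_cases h : nsq q < 1
    · right
      intro hS
      have h1 : nsq (rad 0 (fun N => t * (-(4 * Real.pi * ν) * deriv ρ N)) q) < 1 := by
        have := nsq_rad 0 (fun N => t * (-(4 * Real.pi * ν) * deriv ρ N)) q
        rw [sub_zero, sub_zero] at this
        rwa [this]
      exact absurd (hSz _ hS) (not_le.2 (abs_le_of_nsq h1))
    · change rad 0 (fun N => t * (-(4 * Real.pi * ν) * deriv ρ N)) q ∈ dom S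
      rw [rad_of_zero]
      · exact hq
      · rw [sub_zero, hρ0 _ (by linarith [not_lt.1 h])]
        ring
  mapsΓ t q hq := by
    by_cases h : nsq q < 1
    · right
      intro hS
      have h1 : nsq (rad 0 (fun N => (-t) * (-(4 * Real.pi * ν) * deriv ρ N)) q) < 1 := by
        have := nsq_rad 0 (fun N => (-t) * (-(4 * Real.pi * ν) * deriv ρ N)) q
        rw [sub_zero, sub_zero] at this
        rwa [this]
      exact absurd (hSz _ hS) (not_le.2 (abs_le_of_nsq h1))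
    · change rad 0 (fun N => (-t) * (-(4 * Real.pi * ν) * deriv ρ N)) q ∈ dom S
      rw [rad_of_zero]
      · exact hq
      · rw [sub_zero, hρ0 _ (by linarith [not_lt.1 h])]
        ring
  left t q _ := by
    rw [rad_rad]
    apply rad_of_zero
    ring
  right t q _ := by
    rw [rad_rad]
    apply rad_of_zero
    ring
  symp t q _ v w := by
    by_cases h : nsq q < 1
    · have h1 : nsq (rad 0 (fun N => t * (-(4 * Real.pi * ν) * deriv ρ N)) q) < 1 := by
        have := nsq_rad 0 (fun N => t * (-(4 * Real.pi * ν) * deriv ρ N)) q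
        rw [sub_zero, sub_zero] at this
        rwa [this]
      have h2 := form0_rad 0 (θ := fun N => t * (-(4 * Real.pi * ν) * deriv ρ N))
        (contDiff_const.mul (contDiff_const.mul hρ.deriv')) q v w
      rw [form_apply, form_apply, hbz _ (abs_le_of_nsq h), hbz _ (abs_le_of_nsq h1)]
      simp only [form0] at h2
      linarith
    · have h1 : rad 0 (fun N => t * (-(4 * Real.pi * ν) * deriv ρ N)) =ᶠ[𝓝 q] id := by
        have : {y : ℂ × ℂ | 1 / 8 < nsq y} ∈ 𝓝 q :=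
          (isOpen_lt continuous_const contDiff_nsq.continuous).mem_nhds
            (show (1 : ℝ) / 8 < nsq q by linarith [not_lt.1 h])
        filter_upwards [this] with y hy
        apply rad_of_zero
        have hy' : 1 / 8 < nsq y := hy
        rw [sub_zero, hρ0 _ hy'.le]
        ring
      change form b (rad 0 (fun N => t * (-(4 * Real.pi * ν) * deriv ρ N)) q) _ _ = _
      rw [h1.fderiv_eq, h1.eq_of_nhds]
      simp
  ham t q _ v := by
    set κ : ℝ := -(4 * Real.pi * ν) * deriv ρ (nsq q) with hκ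
    have h1 : HasDerivAt (fun s : ℝ => ((s * κ : ℝ) : ℂ) * Complex.I) ((κ : ℂ) * Complex.I) t := by
      have h2 : HasDerivAt (fun s : ℝ => s * κ) κ t := by
        simpa using (hasDerivAt_id t).mul_const κ
      exact h2.ofReal_comp.mul_const Complex.I
    have h3 : (fun s => rad 0 (fun N => s * (-(4 * Real.pi * ν) * deriv ρ N)) q) =
        fun s : ℝ => (Complex.exp (((s * κ : ℝ) : ℂ) * Complex.I) * q.1,
          Complex.exp (((s * κ : ℝ) : ℂ) * Complex.I) * q.2) := by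
      funext s
      simp [rad, em, hκ]
    have h4 := (h1.cexp.mul_const q.1).prodMk (h1.cexp.mul_const q.2)
    have hy : nsq (rad 0 (fun N => t * (-(4 * Real.pi * ν) * deriv ρ N)) q) = nsq q := by
      have := nsq_rad 0 (fun N => t * (-(4 * Real.pi * ν) * deriv ρ N)) q
      rwa [sub_zero, sub_zero] at this
    have h5 : rad 0 (fun N => t * (-(4 * Real.pi * ν) * deriv ρ N)) q =
        (Complex.exp (((t * κ : ℝ) : ℂ) * Complex.I) * q.1,
          Complex.exp (((t * κ : ℝ) : ℂ) * Complex.I) * q.2) := congrFun h3 t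
    have h6 : deriv (fun s => rad 0 (fun N => s * (-(4 * Real.pi * ν) * deriv ρ N)) q) t =
        ((κ : ℂ) * (Complex.I * (rad 0 (fun N => t * (-(4 * Real.pi * ν) * deriv ρ N)) q).1),
         (κ : ℂ) * (Complex.I * (rad 0 (fun N => t * (-(4 * Real.pi * ν) * deriv ρ N)) q).2)) := by
      rw [h3, h5, h4.deriv]
      apply Prod.ext
      · simp only; ring
      · simp only; ring
    rw [h6]
    generalize rad 0 (fun N => t * (-(4 * Real.pi * ν) * deriv ρ N)) q = y at *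
    obtain ⟨D, hD, hD'⟩ := hasFDerivAt_nsq y
    have h7 : HasDerivAt ρ (deriv ρ (nsq y)) (nsq y) :=
      (hρ.differentiable (by simp)).differentiableAt.hasDerivAt
    have h8 : fderiv ℝ (fun q => 2 * Real.pi * ν * ρ (nsq q)) y =
        (2 * Real.pi * ν) • (deriv ρ (nsq y) • D) :=
      ((h7.comp_hasFDerivAt y hD).const_mul _).fderiv
    rw [h8, form_apply]
    by_cases h : nsq y < 1
    · rw [hbz _ (abs_le_of_nsq h)]
      simp [hD', hκ, hy]
      ring
    · have h9 : deriv ρ (nsq y) = 0 := hρ0 _ (by linarith [not_lt.1 h])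
      have h10 : κ = 0 := by rw [hκ, ← hy, h9]; ring
      simp [h9, h10]

end Small

end Pool.Agent.Helper700
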