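import Mathlib
import Pool.Agent.Helper700.Loop

open Set Filter Topology
open scoped ContDiff

namespace Pool.Agent.Helper700

/-! ### the concrete functions -/

/-- `P = -1` left of `-2`, `0` on `[-1,1]`, `√2` right of `2` -/
noncomputable def PP (z : ℝ) : ℝ :=
  (Real.smoothTransition (z + 2) - 1) + Real.sqrt 2 * Real.smoothTransition (z - 1)

/-- the magnetic density -/
noncomputable def bb (z : ℝ) : ℝ := deriv PP z

/-- the two intervals carrying `bb` -/
def SS : Set ℝ := Icc (-2) (-1) ∪ Icc 1 2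

noncomputable def rr (N : ℝ) : ℝ := 1 - Real.smoothTransition (16 * N - 1)

noncomputable def th (N : ℝ) : ℝ := Real.pi * (1 - Real.smoothTransition (N - 5 / 2))

noncomputable def gg (m z : ℝ) : ℝ :=
  -2 * (Real.smoothTransition (2 - 2 * (z - m)) * Real.smoothTransition (2 + 2 * (z - m)))

lemma contDiff_T : ContDiff ℝ ∞ Real.smoothTransition := Real.smoothTransition.contDiff

lemma contDiff_PP : ContDiff ℝ ∞ PP :=
  ((contDiff_T.comp (contDiff_id.add contDiff_const)).sub contDiff_const).add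
    (contDiff_const.mul (contDiff_T.comp (contDiff_id.sub contDiff_const)))

lemma contDiff_bb : ContDiff ℝ ∞ bb := contDiff_PP.deriv'

lemma contDiff_rr : ContDiff ℝ ∞ rr :=
  contDiff_const.sub (contDiff_T.comp ((contDiff_const.mul contDiff_id).sub contDiff_const))

lemma contDiff_th : ContDiff ℝ ∞ th :=
  contDiff_const.mul (contDiff_const.sub (contDiff_T.comp (contDiff_id.sub contDiff_const)))

lemma contDiff_gg (m : ℝ) : ContDiff ℝ ∞ (gg m) := by
  have h1 : ContDiff ℝ ∞ (fun z : ℝ => 2 * (z - m)) :=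
    contDiff_const.mul (contDiff_id.sub contDiff_const)
  exact contDiff_const.mul ((contDiff_T.comp (contDiff_const.sub h1)).mul
    (contDiff_T.comp (contDiff_const.add h1)))

lemma T_zero {x : ℝ} (h : x ≤ 0) : Real.smoothTransition x = 0 :=
  Real.smoothTransition.zero_of_nonpos h

lemma T_one {x : ℝ} (h : 1 ≤ x) : Real.smoothTransition x = 1 :=
  Real.smoothTransition.one_of_one_le h

lemma PP_left {z : ℝ} (h : z ≤ -2) : PP z = -1 := by
  unfold PP
  rw [T_zero (by linarith), T_zero (by linarith)]; ring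

lemma PP_mid {z : ℝ} (h1 : -1 ≤ z) (h2 : z ≤ 1) : PP z = 0 := by
  unfold PP
  rw [T_one (by linarith), T_zero (by linarith)]; ring

lemma PP_right {z : ℝ} (h : 2 ≤ z) : PP z = Real.sqrt 2 := by
  unfold PP
  rw [T_one (by linarith), T_one (by linarith)]; ring

lemma deriv_of_locally_const {f : ℝ → ℝ} {z a : ℝ} (h : f =ᶠ[𝓝 z] fun _ => a) :
    deriv f z = 0 := by
  rw [h.deriv_eq]; simp

lemma isClosed_SS : IsClosed SS := isClosed_Icc.union isClosed_Icc

lemma bb_zero : ∀ z ∉ SS, bb z = 0 := by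
  intro z hz
  have h1 : ¬ (-2 ≤ z ∧ z ≤ -1) := fun h => hz (Or.inl h)
  have h2 : ¬ (1 ≤ z ∧ z ≤ 2) := fun h => hz (Or.inr h)
  unfold bb
  by_cases ha : z < -2
  · apply deriv_of_locally_const (a := -1)
    filter_upwards [Iio_mem_nhds ha] with y hy
    exact PP_left (le_of_lt hy)
  · have ha' : -1 < z := by
      by_contra hcon
      exact h1 ⟨not_lt.1 ha, not_lt.1 hcon⟩
    by_cases hb : z < 1
    · apply deriv_of_locally_const (a := 0)
      filter_upwards [Ioo_mem_nhds ha' hb] with y hy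
      exact PP_mid hy.1.le hy.2.le
    · have hb' : 2 < z := by
        by_contra hcon
        exact h2 ⟨not_lt.1 hb, not_lt.1 hcon⟩
      apply deriv_of_locally_const (a := Real.sqrt 2)
      filter_upwards [Ioi_mem_nhds hb'] with y hy
      exact PP_right (le_of_lt hy)

lemma SS_abs : ∀ z ∈ SS, 1 ≤ |z| := by
  rintro z (h | h)
  · rw [abs_of_neg (by linarith [h.2])]; linarith [h.2]
  · rw [abs_of_pos (by linarith [h.1])]; exact h.1

lemma bb_zero' : ∀ z, |z| < 1 → bb z = 0 := fun z hz =>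
  bb_zero z (fun h => absurd (SS_abs z h) (not_le.2 hz))

lemma rr_one {N : ℝ} (h : N ≤ 1 / 16) : rr N = 1 := by
  unfold rr; rw [T_zero (by linarith)]; ring

lemma rr_zero {N : ℝ} (h : 1 / 8 ≤ N) : rr N = 0 := by
  unfold rr; rw [T_one (by linarith)]; ring

lemma deriv_rr_right : ∀ N, 1 / 8 ≤ N → deriv rr N = 0 := by
  intro N hN
  have h1 : DifferentiableAt ℝ rr N := (contDiff_rr.differentiable (by simp)).differentiableAt
  have h2 : HasDerivWithinAt rr (deriv rr N) (Ici N) N := h1.hasDerivAt.hasDerivWithinAt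
  have h3 : HasDerivWithinAt rr 0 (Ici N) N := by
    apply (hasDerivWithinAt_const N (Ici N) (0 : ℝ)).congr
    · intro y hy
      exact rr_zero (le_trans hN hy)
    · exact rr_zero hN
  exact (uniqueDiffWithinAt_Ici N).eq_deriv _ h2 h3

lemma deriv_rr_left : ∀ N, N ≤ 1 / 16 → deriv rr N = 0 := by
  intro N hN
  have h1 : DifferentiableAt ℝ rr N := (contDiff_rr.differentiable (by simp)).differentiableAt
  have h2 : HasDerivWithinAt rr (deriv rr N) (Iic N) N := h1.hasDerivAt.hasDerivWithinAt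
  have h3 : HasDerivWithinAt rr 0 (Iic N) N := by
    apply (hasDerivWithinAt_const N (Iic N) (1 : ℝ)).congr
    · intro y hy
      exact rr_one (le_trans hy hN)
    · exact rr_one hN
  exact (uniqueDiffWithinAt_Iic N).eq_deriv _ h2 h3

lemma th_pi {N : ℝ} (h : N ≤ 5 / 2) : th N = Real.pi := by
  unfold th; rw [T_zero (by linarith)]; ring

lemma th_zero : ∀ N : ℝ, 7 / 2 ≤ N → th N = 0 := by
  intro N h
  unfold th; rw [T_one (by linarith)]; ring

lemma gg_in {m z : ℝ} (h : |z - m| ≤ 1 / 2) : gg m z = -2 := by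
  have := abs_le.1 h
  unfold gg
  rw [T_one (by linarith [this.2]), T_one (by linarith [this.1])]; ring

lemma gg_out {m z : ℝ} (h : 1 ≤ |z - m|) : gg m z = 0 := by
  unfold gg
  rcases le_abs.1 h with h | h
  · rw [T_zero (by linarith)]; ring
  · rw [T_zero (x := 2 + 2 * (z - m)) (by linarith)]; ring

lemma deriv_gg_out {m z : ℝ} (h : 1 < |z - m|) : deriv (gg m) z = 0 := by
  apply deriv_of_locally_const (a := 0)
  have h1 : IsOpen {y : ℝ | 1 < |y - m|} :=
    isOpen_lt continuous_const ((continuous_id.sub continuous_const).abs)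
  filter_upwards [h1.mem_nhds h] with y hy
  exact gg_out (le_of_lt hy)

lemma slit_of {m : ℝ} (hm : m = -(3 / 2) ∨ m = 3 / 2) (q : ℂ × ℂ)
    (hq : nsq (q - (0, (m : ℂ))) ≤ 7 / 2) : (q.1 - (gg m q.2.re : ℂ), q.2) ∈ slit SS := by
  have h1 : q.1.re ^ 2 + (q.2.re - m) ^ 2 ≤ 7 / 2 := by
    rw [nsq_eq] at hq
    simp at hq
    nlinarith [sq_nonneg q.1.im, sq_nonneg q.2.im]
  by_cases h : |q.2.re - m| ≤ 1 / 2
  · left
    rw [gg_in h]
    left
    simp
    nlinarith [sq_nonneg (q.2.re - m)]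
  · right
    have h' : 1 / 2 < |q.2.re - m| := not_le.1 h
    have h2 : (q.2.re - m) ^ 2 ≤ 7 / 2 := by nlinarith [sq_nonneg q.1.re]
    intro hS
    change q.2.re ∈ SS at hS
    rcases hm with rfl | rfl
    · rcases hS with hS | hS
      · apply h
        rw [abs_le]
        constructor <;> linarith [hS.1, hS.2]
      · nlinarith [hS.1, hS.2]
    · rcases hS with hS | hS
      · nlinarith [hS.1, hS.2]
      · apply h
        rw [abs_le]
        constructor <;> linarith [hS.1, hS.2]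

lemma dataOf {m : ℝ} (hm : m = -(3 / 2) ∨ m = 3 / 2) :
    Data bb (gg m) SS (0, (m : ℂ)) (7 / 2) where
  hb := contDiff_bb
  hg := contDiff_gg m
  hS := isClosed_SS
  hbS := bb_zero
  hball := slit_of hm

lemma nearOf {m : ℝ} (hm : m = -(3 / 2) ∨ m = 3 / 2) :
    Near bb (gg m) PP (0, (m : ℂ)) m th where
  hc := rfl
  hθ q hq := by
    apply th_pi
    have h1 : ‖q.1‖ ≤ 1 / 20 := (norm_fst_le q).trans hq
    have h2 : ‖q.2 - (m : ℂ)‖ ≤ 1 / 20 + 3 / 2 := by
      refine (norm_sub_le _ _).trans ?_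
      have h3 : ‖q.2‖ ≤ 1 / 20 := (norm_snd_le q).trans hq
      have h4 : ‖(m : ℂ)‖ = 3 / 2 := by
        rw [Complex.norm_real]
        rcases hm with rfl | rfl <;> norm_num
      linarith
    have h5 : nsq (q - (0, (m : ℂ))) = ‖q.1‖ ^ 2 + ‖q.2 - (m : ℂ)‖ ^ 2 := by
      simp [nsq, Complex.normSq_eq_norm_sq]
    rw [h5]
    nlinarith [norm_nonneg q.1, norm_nonneg (q.2 - (m : ℂ))]
  hg z hz := by
    have := abs_le.1 hz
    constructor
    · apply gg_out
      rcases hm with rfl | rfl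
      · rw [le_abs]; left; linarith [this.1]
      · rw [le_abs]; right; linarith [this.2]
    · apply gg_out
      rcases hm with rfl | rfl
      · rw [le_abs]; right; linarith [this.1]
      · rw [le_abs]; left; linarith [this.2]
  hg' z hz := by
    have := abs_le.1 hz
    constructor
    · apply deriv_gg_out
      rcases hm with rfl | rfl
      · rw [lt_abs]; left; linarith [this.1]
      · rw [lt_abs]; right; linarith [this.2]
    · apply deriv_gg_out
      rcases hm with rfl | rfl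
      · rw [lt_abs]; right; linarith [this.1]
      · rw [lt_abs]; left; linarith [this.2]
  hb z hz := by
    have := abs_le.1 hz
    constructor
    · apply bb_zero'
      rw [abs_lt]; constructor <;> linarith [this.1, this.2]
    · apply bb_zero
      rcases hm with rfl | rfl
      · rintro (h | h)
        · linarith [h.1, this.1]
        · linarith [h.1, this.1]
      · rintro (h | h)
        · linarith [h.2, this.2]
        · linarith [h.2, this.2]
  hP z hz := by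
    have := abs_le.1 hz
    constructor
    · rw [PP_mid (by linarith) (by linarith), PP_mid (by norm_num) (by norm_num)]
    · rcases hm with rfl | rfl
      · rw [PP_left (by linarith), PP_left (by norm_num)]
      · rw [PP_right (by linarith), PP_right (by norm_num)]

/-- The manifold. -/
def MM : Set (ℂ × ℂ) := dom SS \ {0}

noncomputable def OO : ℂ × ℂ → ℂ × ℂ →L[ℝ] ℂ × ℂ →L[ℝ] ℝ := form bb

/-- the maps `ψ_τ` -/
noncomputable def psi (τ : ℝ) : ℂ × ℂ → ℂ × ℂ :=
  rad 0 (fun N => -(4 * Real.pi * τ) * deriv rr N)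

lemma isOpen_MM : IsOpen MM := (isOpen_dom isClosed_SS).sdiff isClosed_singleton

lemma symplectic_MM : SymplecticOn MM OO := by
  have h := symplectic_dom contDiff_bb isClosed_SS bb_zero
  exact {
    isOpen := isOpen_MM
    smooth := h.smooth.mono sdiff_subset
    alternating := fun x hx => h.alternating x hx.1
    nondegenerate := fun x hx => h.nondegenerate x hx.1
    closed := fun x hx => h.closed x hx.1 }

lemma zero_mem_dom : (0 : ℂ × ℂ) ∈ dom SS := by
  right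
  intro h
  have := SS_abs _ h
  simp at this
  linarith

noncomputable def L1 (k : ℤ) : Iso (dom SS) (form bb) :=
  loopIso (dataOf (Or.inl rfl)) contDiff_PP (fun _ => rfl) contDiff_th th_zero k

noncomputable def L2 (k : ℤ) : Iso (dom SS) (form bb) :=
  loopIso (dataOf (Or.inr rfl)) contDiff_PP (fun _ => rfl) contDiff_th th_zero k

noncomputable def R3 (ν : ℝ) : Iso (dom SS) (form bb) :=
  radIso contDiff_rr deriv_rr_right bb_zero' SS_abs ν

lemma isCompact_core1 {m : ℝ} (hm : m = -(3 / 2) ∨ m = 3 / 2) :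
    IsCompact (sat (core bb (gg m) (0, (m : ℂ)) (7 / 2))) :=
  isCompact_sat (dataOf hm).isCompact_core

lemma sat_sub {m : ℝ} (hm : m = -(3 / 2) ∨ m = 3 / 2) :
    sat (core bb (gg m) (0, (m : ℂ)) (7 / 2)) ⊆ dom SS :=
  sat_subset_dom _ ((dataOf hm).core_subset_slit.trans (slit_subset_dom SS))

lemma ball_sub : ball0 0 (1 / 8) ⊆ dom SS := by
  intro q hq
  right
  intro h
  have h1 : nsq q < 1 := by
    have : nsq (q - 0) ≤ 1 / 8 := hq
    rw [sub_zero] at this
    linarith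
  exact absurd (SS_abs _ h) (not_le.2 (abs_le_of_nsq h1))

lemma R3_off {ν : ℝ} {q : ℂ × ℂ} (hq : q ∉ ball0 0 (1 / 8)) (t : ℝ) :
    (R3 ν).Φ t q = q ∧ (R3 ν).Γ t q = q ∧ (R3 ν).H t q = 0 := by
  have h1 : 1 / 8 < nsq (q - 0) := not_le.1 hq
  have h2 : deriv rr (nsq (q - 0)) = 0 := deriv_rr_right _ h1.le
  refine ⟨?_, ?_, ?_⟩
  · change rad 0 (fun N => t * (-(4 * Real.pi * ν) * deriv rr N)) q = q
    apply rad_of_zero
    change t * (-(4 * Real.pi * ν) * deriv rr (nsq (q - 0))) = 0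
    rw [h2]; ring
  · change rad 0 (fun N => (-t) * (-(4 * Real.pi * ν) * deriv rr N)) q = q
    apply rad_of_zero
    change (-t) * (-(4 * Real.pi * ν) * deriv rr (nsq (q - 0))) = 0
    rw [h2]; ring
  · have h3 : (R3 ν).H t q = 2 * Real.pi * ν * rr (nsq q) := rfl
    rw [sub_zero] at h1
    rw [h3, rr_zero h1.le, mul_zero]

lemma R3_near {ν : ℝ} {q : ℂ × ℂ} (hq : ‖q‖ ≤ 1 / 20) (t : ℝ) :
    (R3 ν).Φ t q = q ∧ (R3 ν).Γ t q = q ∧ (R3 ν).H t q = 2 * Real.pi * ν := by
  have h1 : ‖q.1‖ ≤ 1 / 20 := (norm_fst_le q).trans hq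
  have h1' : ‖q.2‖ ≤ 1 / 20 := (norm_snd_le q).trans hq
  have h2 : nsq q ≤ 1 / 16 := by
    simp only [nsq, Complex.normSq_eq_norm_sq]
    nlinarith [norm_nonneg q.1, norm_nonneg q.2]
  have h3 : deriv rr (nsq (q - 0)) = 0 := by rw [sub_zero]; exact deriv_rr_left _ h2
  refine ⟨?_, ?_, ?_⟩
  · change rad 0 (fun N => t * (-(4 * Real.pi * ν) * deriv rr N)) q = q
    apply rad_of_zero
    change t * (-(4 * Real.pi * ν) * deriv rr (nsq (q - 0))) = 0
    rw [h3]; ring
  · change rad 0 (fun N => (-t) * (-(4 * Real.pi * ν) * deriv rr N)) q = q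
    apply rad_of_zero
    change (-t) * (-(4 * Real.pi * ν) * deriv rr (nsq (q - 0))) = 0
    rw [h3]; ring
  · have h4 : (R3 ν).H t q = 2 * Real.pi * ν * rr (nsq q) := rfl
    rw [h4, rr_one h2, mul_one]

/-- the total isotopy -/
noncomputable def TT (k₁ k₂ : ℤ) : Iso (dom SS) (form bb) :=
  Iso.comp (isOpen_dom isClosed_SS) (L1 k₁)
    (Iso.comp (isOpen_dom isClosed_SS) (L2 k₂) (R3 (k₁ - k₂ * Real.sqrt 2)))

lemma TT_Φ (k₁ k₂ : ℤ) (t : ℝ) (q : ℂ × ℂ) : (TT k₁ k₂).Φ t q =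
    (L1 k₁).Φ t ((L2 k₂).Φ t ((R3 (k₁ - k₂ * Real.sqrt 2)).Φ t q)) := rfl

lemma TT_Γ (k₁ k₂ : ℤ) (t : ℝ) (q : ℂ × ℂ) : (TT k₁ k₂).Γ t q =
    (R3 (k₁ - k₂ * Real.sqrt 2)).Γ t ((L2 k₂).Γ t ((L1 k₁).Γ t q)) := rfl

lemma TT_H (k₁ k₂ : ℤ) (t : ℝ) (q : ℂ × ℂ) : (TT k₁ k₂).H t q =
    (L1 k₁).H t q + ((L2 k₂).H t ((L1 k₁).Γ t q) +
      (R3 (k₁ - k₂ * Real.sqrt 2)).H t ((L2 k₂).Γ t ((L1 k₁).Γ t q))) := rfl

lemma psi_mem_HamC (k₁ k₂ : ℤ) : psi (k₁ - k₂ * Real.sqrt 2) ∈ HamC MM OO := by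
  set ν : ℝ := k₁ - k₂ * Real.sqrt 2 with hν
  set C1 := sat (core bb (gg (-(3 / 2))) (0, ((-(3 / 2) : ℝ) : ℂ)) (7 / 2)) with hC1
  set C2 := sat (core bb (gg (3 / 2)) (0, ((3 / 2 : ℝ) : ℂ)) (7 / 2)) with hC2
  have key : ∀ t, ∀ q : ℂ × ℂ, ‖q‖ ≤ 1 / 20 → (TT k₁ k₂).Φ t q = q ∧ (TT k₁ k₂).Γ t q = q ∧
      (TT k₁ k₂).H t q = 0 := by
    intro t q hq
    have a1 := loop_near (dataOf (Or.inl rfl)) contDiff_PP (fun _ => rfl) contDiff_th th_zero k₁
      (nearOf (Or.inl rfl)) hq t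
    have a2 := loop_near (dataOf (Or.inr rfl)) contDiff_PP (fun _ => rfl) contDiff_th th_zero k₂
      (nearOf (Or.inr rfl)) hq t
    have a3 := R3_near (ν := ν) hq t
    have b1 : (L1 k₁).Φ t q = q := a1.1
    have b2 : (L1 k₁).Γ t q = q := a1.2.1
    have b3 : (L1 k₁).H t q = 2 * Real.pi * k₁ * (PP (2 * (-(3 / 2))) - PP 0) := a1.2.2
    have c1 : (L2 k₂).Φ t q = q := a2.1
    have c2 : (L2 k₂).Γ t q = q := a2.2.1
    have c3 : (L2 k₂).H t q = 2 * Real.pi * k₂ * (PP (2 * (3 / 2)) - PP 0) := a2.2.2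
    refine ⟨?_, ?_, ?_⟩
    · rw [TT_Φ, a3.1, c1, b1]
    · rw [TT_Γ, b2, c2, a3.2.1]
    · rw [TT_H, b2, c2, b3, c3, a3.2.2, PP_left (by norm_num), PP_mid (z := 0) (by norm_num)
        (by norm_num), PP_right (by norm_num), hν]
      ring
  have off : ∀ t, ∀ q : ℂ × ℂ, q ∉ C1 → q ∉ C2 → q ∉ ball0 0 (1 / 8) →
      (TT k₁ k₂).H t q = 0 := by
    intro t q h1 h2 h3
    have a1 := loop_off (dataOf (Or.inl rfl)) contDiff_PP (fun _ => rfl) contDiff_th th_zero k₁
      h1 t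
    have a2 := loop_off (dataOf (Or.inr rfl)) contDiff_PP (fun _ => rfl) contDiff_th th_zero k₂
      h2 t
    have a3 := R3_off (ν := ν) h3 t
    have b2 : (L1 k₁).Γ t q = q := a1.2.1
    have b3 : (L1 k₁).H t q = 0 := a1.2.2
    have c2 : (L2 k₂).Γ t q = q := a2.2.1
    have c3 : (L2 k₂).H t q = 0 := a2.2.2
    rw [TT_H, b2, c2, b3, c3, a3.2.2]
    ring
  have hcomp : IsCompact ((C1 ∪ C2 ∪ ball0 0 (1 / 8)) ∩ (Metric.ball (0 : ℂ × ℂ) (1 / 20))ᶜ) :=
    (((isCompact_core1 (Or.inl rfl)).union (isCompact_core1 (Or.inr rfl))).union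
      (isCompact_ball0 0 (1 / 8))).inter_right Metric.isOpen_ball.isClosed_compl
  have hsub : (C1 ∪ C2 ∪ ball0 0 (1 / 8)) ∩ (Metric.ball (0 : ℂ × ℂ) (1 / 20))ᶜ ⊆ MM := by
    rintro q ⟨h1, h2⟩
    constructor
    · rcases h1 with (h1 | h1) | h1
      · exact sat_sub (Or.inl rfl) h1
      · exact sat_sub (Or.inr rfl) h1
      · exact ball_sub h1
    · intro h0
      apply h2
      have : q = 0 := h0
      rw [this]
      simp
  refine ⟨_, hsub, hcomp, (TT k₁ k₂).H, (TT k₁ k₂).Φ, ?_, ?_, ?_, ?_, ?_, ?_, ?_⟩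
  · exact ((TT k₁ k₂).hH.contDiffOn (Icc 0 1)).mono (prod_mono subset_rfl sdiff_subset)
  · intro t _ q hq hK
    by_cases hb : ‖q‖ ≤ 1 / 20
    · exact (key t q hb).2.2
    · have hnb : q ∈ (Metric.ball (0 : ℂ × ℂ) (1 / 20))ᶜ := by
        intro h
        rw [mem_ball_zero_iff] at h
        exact hb h.le
      apply off t q
      · exact fun h => hK ⟨Or.inl (Or.inl h), hnb⟩
      · exact fun h => hK ⟨Or.inl (Or.inr h), hnb⟩
      · exact fun h => hK ⟨Or.inr h, hnb⟩
  · exact ((TT k₁ k₂).hΦ.contDiffOn (Icc 0 1)).mono (prod_mono subset_rfl sdiff_subset)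
  · intro t _ q hq
    refine ⟨(TT k₁ k₂).mapsΦ t hq.1, ?_⟩
    intro h0
    apply hq.2
    have h1 : (TT k₁ k₂).Φ t q = 0 := h0
    have h2 := (TT k₁ k₂).left t q hq.1
    rw [h1, (key t 0 (by simp)).2.1] at h2
    exact h2.symm
  · intro q _
    have h3 : (R3 ν).Φ 0 q = q := by
      change rad 0 (fun N => 0 * (-(4 * Real.pi * ν) * deriv rr N)) q = q
      apply rad_of_zero
      change 0 * (-(4 * Real.pi * ν) * deriv rr (nsq (q - 0))) = 0
      ring
    rw [TT_Φ, h3]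
    change (L1 k₁).Φ 0 ((L2 k₂).Φ 0 q) = q
    rw [L2, loopIso_zero, L1, loopIso_zero]
  · intro t _ q hq
    refine ⟨deriv (fun s => (TT k₁ k₂).Φ s q) t, ?_, ?_⟩
    · exact ((TT k₁ k₂).hΦ.slice_time t hq.1).hasDerivAt.hasDerivWithinAt
    · exact (TT k₁ k₂).ham t q hq.1
  · intro q _
    rw [TT_Φ]
    change (L1 k₁).Φ 1 ((L2 k₂).Φ 1 ((R3 ν).Φ 1 q)) = _
    rw [L2, loopIso_one, L1, loopIso_one]
    change rad 0 (fun N => 1 * (-(4 * Real.pi * ν) * deriv rr N)) q = _
    simp only [one_mul]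
    rfl

end Pool.Agent.Helper700
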