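import Mathlib
import Pool.Agent.Helper700.Flow
import Pool.Agent.Helper700.Member

open Set Filter Topology MeasureTheory
open scoped ContDiff

namespace Pool.Agent.Helper700

/-- a subset of a space `T` mapped to a second countable metric space with isolated values is
countable -/
lemma countable_of_isolated {T Y : Type} [PseudoMetricSpace Y] [SecondCountableTopology Y]
    (G : T → Y) (h : ∀ τ, ∃ δ > 0, ∀ τ', dist (G τ') (G τ) < δ → τ' = τ) : Countable T := by
  let _ : TopologicalSpace T := TopologicalSpace.induced G inferInstance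
  have : SecondCountableTopology T := TopologicalSpace.secondCountableTopology_induced T Y G
  have : DiscreteTopology T := by
    rw [discreteTopology_iff_isOpen_singleton]
    intro τ
    obtain ⟨δ, hδ, h1⟩ := h τ
    have h2 : ({τ} : Set T) = G ⁻¹' Metric.ball (G τ) δ := by
      ext τ'
      constructor
      · intro h3
        have : τ' = τ := h3
        rw [this]
        exact Metric.mem_ball_self hδ
      · intro h3
        exact h1 τ' h3
    rw [h2]
    exact isOpen_induced Metric.isOpen_ball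
  exact countable_of_Lindelof_of_discrete

/-- the path from the puncture to infinity -/
noncomputable def path (w : ℝ) : ℂ × ℂ := ((Real.exp w : ℂ), 0)

lemma contDiff_path : ContDiff ℝ ∞ path :=
  (Complex.ofRealCLM.contDiff.comp Real.contDiff_exp).prodMk contDiff_const

lemma path_mem (w : ℝ) : path w ∈ MM := by
  have h : (path w).1 ≠ 0 := by
    simp [path]
  refine ⟨Or.inl h, ?_⟩
  intro h0
  have : path w = 0 := h0
  exact h (by rw [this]; rfl)

lemma nsq_path (w : ℝ) : nsq (path w) = Real.exp (2 * w) := by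
  rw [nsq_eq]
  simp only [path, Complex.ofReal_re, Complex.ofReal_im, Complex.zero_re, Complex.zero_im]
  rw [two_mul, Real.exp_add]
  ring

lemma R3_isHam (τ : ℝ) : IsHam MM OO univ (R3 τ).H (R3 τ).Φ where
  hH := ((R3 τ).hH.contDiffOn (Icc 0 1)).mono (prod_mono subset_rfl sdiff_subset)
  supp := fun t _ x _ hx => absurd (mem_univ x) hx
  hΦ := ((R3 τ).hΦ.contDiffOn (Icc 0 1)).mono (prod_mono subset_rfl sdiff_subset)
  maps := by
    intro t _ q hq
    refine ⟨(R3 τ).mapsΦ t hq.1, ?_⟩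
    intro h0
    apply hq.2
    have h1 : (R3 τ).Φ t q = 0 := h0
    have h2 := (R3 τ).left t q hq.1
    rw [h1, (R3_near (ν := τ) (q := 0) (by simp) t).2.1] at h2
    exact h2.symm
  zero := by
    intro q _
    change rad 0 (fun N => 0 * (-(4 * Real.pi * τ) * deriv rr N)) q = q
    apply rad_of_zero
    change 0 * (-(4 * Real.pi * τ) * deriv rr (nsq (q - 0))) = 0
    ring
  ham := by
    intro t _ q hq
    refine ⟨deriv (fun s => (R3 τ).Φ s q) t, ?_, ?_⟩
    · exact ((R3 τ).hΦ.slice_time t hq.1).hasDerivAt.hasDerivWithinAt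
    · exact (R3 τ).ham t q hq.1

lemma R3_one (τ : ℝ) (q : ℂ × ℂ) : (R3 τ).Φ 1 q = psi τ q := by
  change rad 0 (fun N => 1 * (-(4 * Real.pi * τ) * deriv rr N)) q = _
  simp only [one_mul]
  rfl

lemma exp_small {n : ℝ} (hn : 2 ≤ n) : Real.exp (2 * -n) ≤ 1 / 16 := by
  have h1 : Real.exp (2 * -n) ≤ Real.exp (-4) := Real.exp_le_exp.2 (by linarith)
  have h2 : (2 : ℝ) ≤ Real.exp 1 := by
    have := Real.add_one_le_exp (1 : ℝ)
    linarith
  have h3 : (16 : ℝ) ≤ Real.exp 4 := by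
    have : Real.exp 4 = Real.exp 1 ^ 4 := by rw [← Real.exp_nat_mul]; norm_num
    rw [this]
    calc (16 : ℝ) = 2 ^ 4 := by norm_num
      _ ≤ Real.exp 1 ^ 4 := pow_le_pow_left₀ (by norm_num) h2 4
  have h4 : Real.exp (-4) ≤ 1 / 16 := by
    rw [Real.exp_neg, ← one_div]
    exact one_div_le_one_div_of_le (by norm_num) h3
  linarith

lemma exp_big {n : ℝ} (hn : 2 ≤ n) : 1 / 8 ≤ Real.exp (2 * n) := by
  have := Real.add_one_le_exp (2 * n)
  linarith

lemma R3_path_fixed (τ : ℝ) {n : ℝ} (hn : 2 ≤ n) (t : ℝ) :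
    (R3 τ).Φ t (path (-n)) = path (-n) ∧ (R3 τ).Φ t (path n) = path n ∧
    (R3 τ).H t (path (-n)) = 2 * Real.pi * τ ∧ (R3 τ).H t (path n) = 0 := by
  have h1 : nsq (path (-n)) ≤ 1 / 16 := by rw [nsq_path]; exact exp_small hn
  have h2 : 1 / 8 ≤ nsq (path n) := by rw [nsq_path]; exact exp_big hn
  have h3 : deriv rr (nsq (path (-n) - 0)) = 0 := by rw [sub_zero]; exact deriv_rr_left _ h1
  have h4 : deriv rr (nsq (path n - 0)) = 0 := by rw [sub_zero]; exact deriv_rr_right _ h2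
  refine ⟨?_, ?_, ?_, ?_⟩
  · change rad 0 (fun N => t * (-(4 * Real.pi * τ) * deriv rr N)) _ = _
    apply rad_of_zero
    rw [h3]; ring
  · change rad 0 (fun N => t * (-(4 * Real.pi * τ) * deriv rr N)) _ = _
    apply rad_of_zero
    rw [h4]; ring
  · change 2 * Real.pi * τ * rr (nsq (path (-n))) = _
    rw [rr_one h1, mul_one]
  · change 2 * Real.pi * τ * rr (nsq (path n)) = _
    rw [rr_zero h2, mul_zero]

/-- the area defect computes the flux `2πτ` -/
lemma Zarea_value {τ n : ℝ} (hn : 2 ≤ n) {K : Set (ℂ × ℂ)} (hK : IsCompact K)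
    {H : ℝ → ℂ × ℂ → ℝ} {Φ : ℝ → ℂ × ℂ → ℂ × ℂ} (D : IsHam MM OO K H Φ)
    (h1 : path (-n) ∉ K) (h2 : path n ∉ K) :
    Zarea OO n (sweep Φ path) (sweep (R3 τ).Φ path) = 2 * Real.pi * τ := by
  have S := symplectic_MM
  have hfix1 := D.fixed S hK.isClosed (path_mem (-n)) h1
  have hfix2 := D.fixed S hK.isClosed (path_mem n) h2
  have hp1 := contDiff_pot D contDiff_path path_mem
  have hp2 := contDiff_pot (R3_isHam τ) contDiff_path path_mem
  have e1 : Zarea OO n (sweep Φ path) (sweep (R3 τ).Φ path) =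
      ∫ y in Icc (![0, -n] : Fin 2 → ℝ) ![1, n],
        pd (fun p => pot H Φ path p - pot (R3 τ).H (R3 τ).Φ path p) ((0 : ℝ), (1 : ℝ))
          (y 0, y 1) := by
    unfold Zarea
    congr 1
    funext y
    rw [dens_sweep S D contDiff_path path_mem,
      dens_sweep S (R3_isHam τ) contDiff_path path_mem]
    have a1 : HasFDerivAt (pot H Φ path) (fderiv ℝ (pot H Φ path) (y 0, y 1)) (y 0, y 1) :=
      ((hp1.differentiable (by simp)).differentiableAt).hasFDerivAt
    have a2 : HasFDerivAt (pot (R3 τ).H (R3 τ).Φ path)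
        (fderiv ℝ (pot (R3 τ).H (R3 τ).Φ path) (y 0, y 1)) (y 0, y 1) :=
      ((hp2.differentiable (by simp)).differentiableAt).hasFDerivAt
    have a3 : HasFDerivAt (fun p => pot H Φ path p - pot (R3 τ).H (R3 τ).Φ path p) _
      (y 0, y 1) := a1.sub a2
    simp only [pd]
    rw [a3.fderiv]
    rfl
  rw [e1, integral_exact (by linarith) (hp1.sub hp2)]
  have e2 : ∀ s : ℝ, pot H Φ path (s, n) = 0 := by
    intro s
    simp only [pot, sweep]
    rw [hfix2 _ (tm_mem s), D.supp _ (tm_mem s) _ (path_mem n) h2, mul_zero]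
  have e3 : ∀ s : ℝ, pot H Φ path (s, -n) = 0 := by
    intro s
    simp only [pot, sweep]
    rw [hfix1 _ (tm_mem s), D.supp _ (tm_mem s) _ (path_mem (-n)) h1, mul_zero]
  have e4 : ∀ s : ℝ, pot (R3 τ).H (R3 τ).Φ path (s, n) = 0 := by
    intro s
    simp only [pot, sweep]
    rw [(R3_path_fixed τ hn _).2.1, (R3_path_fixed τ hn _).2.2.2, mul_zero]
  have e5 : ∀ s : ℝ, pot (R3 τ).H (R3 τ).Φ path (s, -n) = deriv tm s * (2 * Real.pi * τ) := by
    intro s
    simp only [pot, sweep]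
    rw [(R3_path_fixed τ hn _).1, (R3_path_fixed τ hn _).2.2.1]
  simp only [e2, e3, e4, e5, sub_self, zero_sub, neg_neg, sub_neg_eq_add, zero_add]
  rw [integral_mul_const]
  change cc * (2 * Real.pi * τ) = _
  rw [cc_eq, one_mul]

/-- the values `τ` for which `ψ_τ` is generated with support away from `path (±n)` -/
def TS (n : ℝ) : Set ℝ :=
  {τ | ∃ (K : Set (ℂ × ℂ)) (H : ℝ → ℂ × ℂ → ℝ) (Φ : ℝ → ℂ × ℂ → ℂ × ℂ), IsCompact K ∧
    IsHam MM OO K H Φ ∧ (∀ x ∈ MM, Φ 1 x = psi τ x) ∧ path (-n) ∉ K ∧ path n ∉ K}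

lemma countable_TS {n : ℝ} (hn : 2 ≤ n) : (TS n).Countable := by
  have S := symplectic_MM
  -- choose the data
  have hch : ∀ τ : TS n, ∃ (K : Set (ℂ × ℂ)) (H : ℝ → ℂ × ℂ → ℝ) (Φ : ℝ → ℂ × ℂ → ℂ × ℂ),
      IsCompact K ∧ IsHam MM OO K H Φ ∧ (∀ x ∈ MM, Φ 1 x = psi τ x) ∧ path (-n) ∉ K ∧
        path n ∉ K := fun τ => τ.2
  choose K H Φ hK D hone hk1 hk2 using hch
  let Box := (Icc (0 : ℝ) 1 ×ˢ Icc (-n) n : Set (ℝ × ℝ))
  have : CompactSpace Box := isCompact_iff_compactSpace.1 (isCompact_Icc.prod isCompact_Icc)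
  have cf : ∀ τ : TS n, ContDiff ℝ ∞ (sweep (Φ τ) path) := fun τ =>
    contDiff_sweep (D τ) contDiff_path path_mem
  have cg : ∀ τ : TS n, ContDiff ℝ ∞ (sweep (R3 (τ : ℝ)).Φ path) := fun τ =>
    contDiff_sweep (R3_isHam τ) contDiff_path path_mem
  let G : TS n → C(Box, ℂ × ℂ) × C(Box, ℂ × ℂ) := fun τ =>
    (⟨fun p => sweep (Φ τ) path p, (cf τ).continuous.comp continuous_subtype_val⟩,
      ⟨fun p => sweep (R3 (τ : ℝ)).Φ path p, (cg τ).continuous.comp continuous_subtype_val⟩)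
  have hb : ∀ τ : TS n, ∀ s w, (s = 0 ∨ s = 1 ∨ w = -n ∨ w = n) →
      sweep (Φ τ) path (s, w) = sweep (R3 (τ : ℝ)).Φ path (s, w) := by
    intro τ s w h
    rcases h with rfl | rfl | rfl | rfl
    · simp only [sweep, tm_zero]
      rw [(D τ).zero _ (path_mem w), (R3_isHam τ).zero _ (path_mem w)]
    · simp only [sweep, tm_one]
      rw [hone τ _ (path_mem w), R3_one]
    · simp only [sweep]
      rw [(D τ).fixed S (hK τ).isClosed (path_mem _) (hk1 τ) _ (tm_mem s),
        (R3_path_fixed τ hn _).1]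
    · simp only [sweep]
      rw [(D τ).fixed S (hK τ).isClosed (path_mem _) (hk2 τ) _ (tm_mem s),
        (R3_path_fixed τ hn _).2.1]
  refine countable_coe_iff.1 (countable_of_isolated G ?_)
  intro τ
  have hA : IsCompact (sweep (Φ τ) path '' Box ∪ sweep (R3 (τ : ℝ)).Φ path '' Box) :=
    ((isCompact_Icc.prod isCompact_Icc).image (cf τ).continuous).union
      ((isCompact_Icc.prod isCompact_Icc).image (cg τ).continuous)
  have hAM : sweep (Φ τ) path '' Box ∪ sweep (R3 (τ : ℝ)).Φ path '' Box ⊆ MM := by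
    rintro x (⟨p, _, rfl⟩ | ⟨p, _, rfl⟩)
    · exact sweep_mem (D τ) path_mem p
    · exact sweep_mem (R3_isHam τ) path_mem p
  obtain ⟨δ, hδ, hthick⟩ := hA.exists_thickening_subset_open isOpen_MM hAM
  refine ⟨δ, hδ, fun τ' hτ' => ?_⟩
  have hmax : max (dist (G τ').1 (G τ).1) (dist (G τ').2 (G τ).2) < δ := hτ'
  have hd1 : dist (G τ').1 (G τ).1 < δ := lt_of_le_of_lt (le_max_left _ _) hmax
  have hd2 : dist (G τ').2 (G τ).2 < δ := lt_of_le_of_lt (le_max_right _ _) hmax
  have interp : ∀ (u v : ℂ × ℂ) (r : ℝ), r ∈ Icc (0 : ℝ) 1 → dist v u < δ →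
      u ∈ sweep (Φ τ) path '' Box ∪ sweep (R3 (τ : ℝ)).Φ path '' Box →
      (1 - r) • u + r • v ∈ MM := by
    intro u v r hr huv hu
    apply hthick
    rw [Metric.mem_thickening_iff]
    refine ⟨u, hu, ?_⟩
    rw [dist_eq_norm] at huv ⊢
    have : (1 - r) • u + r • v - u = r • (v - u) := by
      rw [sub_smul, one_smul, smul_sub]; abel
    rw [this, norm_smul, Real.norm_of_nonneg hr.1]
    have h1 : r * ‖v - u‖ ≤ 1 * ‖v - u‖ := mul_le_mul_of_nonneg_right hr.2 (norm_nonneg _)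
    linarith
  have key := Zarea_eq S (n := n) (by linarith) (cf τ) (cf τ') (cg τ) (cg τ') (hb τ) (hb τ')
    (fun r hr s hs w hw => by
      apply interp _ _ r hr
      · have := ContinuousMap.dist_apply_le_dist (f := (G τ').1) (g := (G τ).1)
          (⟨(s, w), ⟨hs, hw⟩⟩ : Box)
        exact lt_of_le_of_lt this hd1
      · exact Or.inl ⟨(s, w), ⟨hs, hw⟩, rfl⟩)
    (fun r hr s hs w hw => by
      apply interp _ _ r hr
      · have := ContinuousMap.dist_apply_le_dist (f := (G τ').2) (g := (G τ).2)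
          (⟨(s, w), ⟨hs, hw⟩⟩ : Box)
        exact lt_of_le_of_lt this hd2
      · exact Or.inr ⟨(s, w), ⟨hs, hw⟩, rfl⟩)
  rw [Zarea_value hn (hK τ) (D τ) (hk1 τ) (hk2 τ),
    Zarea_value hn (hK τ') (D τ') (hk1 τ') (hk2 τ')] at key
  apply Subtype.ext
  have hpi : (2 * Real.pi) ≠ 0 := by positivity
  exact (mul_left_cancel₀ hpi key).symm

lemma countable_all : {τ : ℝ | psi τ ∈ HamC MM OO}.Countable := by
  have hsub : {τ : ℝ | psi τ ∈ HamC MM OO} ⊆ ⋃ k : ℕ, TS (k + 2) := by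
    rintro τ ⟨K, hKM, hK, H, Φ, hH, hs, hΦ, hm, h0, hham, h1⟩
    -- bounds for `K`
    have hopen : IsOpen (Kᶜ : Set (ℂ × ℂ)) := hK.isClosed.isOpen_compl
    have h0K : (0 : ℂ × ℂ) ∈ Kᶜ := fun h => (hKM h).2 rfl
    obtain ⟨ε, hε, hball⟩ := Metric.isOpen_iff.1 hopen 0 h0K
    obtain ⟨R, hR⟩ := hK.isBounded.subset_ball 0
    have t1 : Tendsto (fun k : ℕ => Real.exp (-((k : ℝ) + 2))) atTop (𝓝 0) := by
      apply Real.tendsto_exp_neg_atTop_nhds_zero.comp
      exact tendsto_atTop_add_const_right _ _ tendsto_natCast_atTop_atTop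
    have t2 : Tendsto (fun k : ℕ => Real.exp ((k : ℝ) + 2)) atTop atTop := by
      apply Real.tendsto_exp_atTop.comp
      exact tendsto_atTop_add_const_right _ _ tendsto_natCast_atTop_atTop
    have e1 : ∀ᶠ k : ℕ in atTop, Real.exp (-((k : ℝ) + 2)) < ε := t1.eventually (gt_mem_nhds hε)
    have e2 : ∀ᶠ k : ℕ in atTop, R ≤ Real.exp ((k : ℝ) + 2) := t2.eventually (eventually_ge_atTop R)
    obtain ⟨k, hk1, hk2⟩ := (e1.and e2).exists
    rw [mem_iUnion]
    have hnorm : ∀ w, ‖path w‖ = Real.exp w := by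
      intro w
      simp [path, Prod.norm_def, (Real.exp_pos w).le]
    refine ⟨k, K, H, Φ, hK, ⟨hH, hs, hΦ, hm, h0, hham⟩, h1, ?_, ?_⟩
    · intro h
      refine hball ?_ h
      rw [mem_ball_zero_iff, hnorm]
      exact hk1
    · intro h
      have := hR h
      rw [mem_ball_zero_iff, hnorm] at this
      linarith
  exact (countable_iUnion fun k : ℕ => countable_TS (by
    have : (0 : ℝ) ≤ k := Nat.cast_nonneg k
    linarith)).mono hsub

end Pool.Agent.Helper700
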