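import Mathlib
import Pool.Agent.Helper700.NonMember

open Set Filter Topology
open scoped ContDiff

namespace Pool.Agent.Helper700

/-! ### the maps `ψ_τ` lie in the identity component -/

/-- the shell carrying all `ψ_τ` -/
def KK : Set (ℂ × ℂ) := {q | 1 / 16 ≤ nsq q ∧ nsq q ≤ 1 / 8}

lemma isCompact_KK : IsCompact KK := by
  have h1 : KK = ball0 0 (1 / 8) ∩ {q | 1 / 16 ≤ nsq q} := by
    ext q
    simp only [KK, ball0, mem_setOf_eq, mem_inter_iff, sub_zero]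
    exact and_comm
  rw [h1]
  exact (isCompact_ball0 0 (1 / 8)).inter_right
    (isClosed_le continuous_const contDiff_nsq.continuous)

lemma KK_sub : KK ⊆ MM := by
  rintro q ⟨h1, h2⟩
  refine ⟨ball_sub ?_, ?_⟩
  · change nsq (q - 0) ≤ 1 / 8
    rw [sub_zero]; exact h2
  · intro h0
    have h3 : q = 0 := h0
    rw [h3] at h1
    norm_num [nsq] at h1

lemma deriv_rr_off {q : ℂ × ℂ} (hq : q ∉ KK) : deriv rr (nsq (q - 0)) = 0 := by
  rw [sub_zero]
  by_cases h1 : nsq q ≤ 1 / 16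
  · exact deriv_rr_left _ h1
  · apply deriv_rr_right
    by_contra h2
    exact hq ⟨(not_le.1 h1).le, (not_le.1 h2).le⟩

lemma psi_off (τ : ℝ) {q : ℂ × ℂ} (hq : q ∉ KK) : psi τ q = q := by
  apply rad_of_zero
  rw [deriv_rr_off hq, mul_zero]

lemma psi_mem_SympC0 (τ : ℝ) : psi τ ∈ SympC0 MM OO := by
  refine ⟨KK, KK_sub, isCompact_KK, (R3 τ).Φ, (R3_isHam τ).hΦ, ?_, (R3_isHam τ).zero,
    fun x _ => R3_one τ x⟩
  intro t ht
  refine ⟨?_, (R3_isHam τ).maps t ht, ⟨(R3 τ).Γ t, ?_, ?_, ?_⟩, ?_, ?_⟩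
  · intro x hx
    exact ((R3 τ).hΦ.slice t hx.1).contDiffWithinAt
  · intro x hx
    exact ((R3 τ).hΓ.slice t hx.1).contDiffWithinAt
  · intro q hq
    refine ⟨(R3 τ).mapsΓ t hq.1, ?_⟩
    intro h0
    apply hq.2
    have h1 : (R3 τ).Γ t q = 0 := h0
    have h2 := (R3 τ).right t q hq.1
    rw [h1, (R3_near (ν := τ) (q := 0) (by simp) t).1] at h2
    exact h2.symm
  · intro x hx
    exact ⟨(R3 τ).left t x hx.1, (R3 τ).right t x hx.1⟩
  · intro x hx v w
    exact (R3 τ).symp t x hx.1 v w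
  · intro x _ hxK
    change rad 0 (fun N => t * (-(4 * Real.pi * τ) * deriv rr N)) x = x
    apply rad_of_zero
    rw [deriv_rr_off hxK]; ring

/-! ### density of the periods -/

lemma dense_periods (τ : ℝ) : ∃ k₁ k₂ : ℕ → ℤ,
    Tendsto (fun j => (k₁ j : ℝ) - k₂ j * Real.sqrt 2) atTop (𝓝 τ) := by
  have hd : Dense (AddSubgroup.closure {(1 : ℝ), Real.sqrt 2} : Set ℝ) := by
    rw [dense_addSubgroupClosure_pair_iff, one_div]
    exact irrational_sqrt_two.inv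
  have h1 : ∀ j : ℕ, ∃ k : ℤ × ℤ, |(k.1 : ℝ) - k.2 * Real.sqrt 2 - τ| < 1 / ((j : ℝ) + 1) := by
    intro j
    have hpos : (0 : ℝ) < 1 / ((j : ℝ) + 1) := by positivity
    obtain ⟨y, hy, hy2⟩ := Metric.dense_iff.1 hd τ _ hpos
    obtain ⟨m, n, hmn⟩ := AddSubgroup.mem_closure_pair.1 hy2
    refine ⟨(m, -n), ?_⟩
    have h2 : ((m : ℤ) : ℝ) - ((-n : ℤ) : ℝ) * Real.sqrt 2 = y := by
      rw [← hmn]
      simp only [zsmul_eq_mul]
      push_cast
      ring
    change |((m : ℤ) : ℝ) - ((-n : ℤ) : ℝ) * Real.sqrt 2 - τ| < _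
    rw [h2]
    rw [Metric.mem_ball, Real.dist_eq] at hy
    exact hy
  choose k hk using h1
  refine ⟨fun j => (k j).1, fun j => (k j).2, ?_⟩
  rw [tendsto_iff_norm_sub_tendsto_zero]
  refine squeeze_zero (fun j => norm_nonneg _) (fun j => (hk j).le) ?_
  exact tendsto_one_div_add_atTop_nhds_zero_nat

/-! ### uniform convergence -/

lemma exp_sub_le (α β : ℝ) : ‖Complex.exp (α * Complex.I) - Complex.exp (β * Complex.I)‖ ≤
    |α - β| := by
  have h1 : Complex.exp (α * Complex.I) - Complex.exp (β * Complex.I) =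
      Complex.exp (β * Complex.I) * (Complex.exp (Complex.I * ((α - β : ℝ) : ℂ)) - 1) := by
    rw [mul_sub, ← Complex.exp_add, mul_one]
    congr 2
    push_cast
    ring
  rw [h1, norm_mul, Complex.norm_exp_ofReal_mul_I, one_mul]
  exact Real.norm_exp_I_mul_ofReal_sub_one_le

lemma em_sub_le (α β : ℝ) (v : ℂ × ℂ) : ‖em α v - em β v‖ ≤ |α - β| * ‖v‖ := by
  have h1 : em α v - em β v =
      ((Complex.exp (α * Complex.I) - Complex.exp (β * Complex.I)) * v.1,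
        (Complex.exp (α * Complex.I) - Complex.exp (β * Complex.I)) * v.2) := by
    apply Prod.ext
    · simp [em]; ring
    · simp [em]; ring
  rw [h1, Prod.norm_def]
  apply max_le
  · simp only [norm_mul]
    exact mul_le_mul (exp_sub_le α β) (norm_fst_le v) (norm_nonneg _) (abs_nonneg _)
  · simp only [norm_mul]
    exact mul_le_mul (exp_sub_le α β) (norm_snd_le v) (norm_nonneg _) (abs_nonneg _)

lemma exists_bound : ∃ C : ℝ, 0 < C ∧ ∀ q : ℂ × ℂ, ∀ ν τ : ℝ,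
    ‖psi ν q - psi τ q‖ ≤ C * |ν - τ| := by
  have hc : Continuous (fun q : ℂ × ℂ => |deriv rr (nsq q)| * ‖q‖) :=
    ((contDiff_rr.continuous_deriv (by simp)).comp contDiff_nsq.continuous).abs.mul continuous_norm
  obtain ⟨B, hB⟩ := isCompact_KK.bddAbove_image hc.continuousOn
  refine ⟨4 * Real.pi * (max B 0) + 1, by positivity, ?_⟩
  intro q ν τ
  by_cases hq : q ∈ KK
  · have h1 : |deriv rr (nsq q)| * ‖q‖ ≤ max B 0 := le_max_of_le_left (hB ⟨q, hq, rfl⟩)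
    have h2 : psi ν q - psi τ q = em (-(4 * Real.pi * ν) * deriv rr (nsq (q - 0))) (q - 0) -
        em (-(4 * Real.pi * τ) * deriv rr (nsq (q - 0))) (q - 0) := by
      simp only [psi, rad]
      abel
    rw [h2, sub_zero]
    refine (em_sub_le _ _ _).trans ?_
    have h3 : |-(4 * Real.pi * ν) * deriv rr (nsq q) - -(4 * Real.pi * τ) * deriv rr (nsq q)| =
        4 * Real.pi * |ν - τ| * |deriv rr (nsq q)| := by
      have : -(4 * Real.pi * ν) * deriv rr (nsq q) - -(4 * Real.pi * τ) * deriv rr (nsq q) =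
          -(4 * Real.pi * (ν - τ) * deriv rr (nsq q)) := by ring
      rw [this, abs_neg, abs_mul, abs_mul, abs_of_pos (by positivity : 0 < 4 * Real.pi)]
    rw [h3]
    have h4 : 4 * Real.pi * |ν - τ| * |deriv rr (nsq q)| * ‖q‖ =
        4 * Real.pi * |ν - τ| * (|deriv rr (nsq q)| * ‖q‖) := by ring
    rw [h4]
    have h5 : 4 * Real.pi * |ν - τ| * (|deriv rr (nsq q)| * ‖q‖) ≤
        4 * Real.pi * |ν - τ| * max B 0 :=
      mul_le_mul_of_nonneg_left h1 (by positivity)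
    nlinarith [abs_nonneg (ν - τ)]
  · rw [psi_off ν hq, psi_off τ hq, sub_self, norm_zero]
    positivity

lemma psi_tendsto {ν : ℕ → ℝ} {τ : ℝ} (h : Tendsto ν atTop (𝓝 τ)) :
    TendstoUniformlyOn (fun j => psi (ν j)) (psi τ) atTop MM := by
  obtain ⟨C, hC, hb⟩ := exists_bound
  rw [Metric.tendstoUniformlyOn_iff]
  intro ε hε
  have h1 : ∀ᶠ j in atTop, |ν j - τ| < ε / C := by
    have := Metric.tendsto_nhds.1 h (ε / C) (by positivity)
    simpa [Real.dist_eq] using this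
  filter_upwards [h1] with j hj q _
  rw [dist_comm, dist_eq_norm]
  refine lt_of_le_of_lt (hb q (ν j) τ) ?_
  rw [lt_div_iff₀ hC] at hj
  linarith

/-! ### connectedness -/

lemma isConnected_MM : IsConnected MM := by
  have h1 : IsConnected (({(0 : ℂ)}ᶜ : Set ℂ) ×ˢ (univ : Set ℂ)) :=
    (isConnected_compl_singleton_of_one_lt_rank (by simp) 0).prod isConnected_univ
  refine h1.subset_closure ?_ ?_
  · rintro q ⟨hq, _⟩
    refine ⟨Or.inl hq, ?_⟩
    intro h0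
    have : q = 0 := h0
    exact hq (by rw [this]; rfl)
  · rw [closure_prod_eq, (dense_compl_singleton (0 : ℂ)).closure_eq, closure_univ, univ_prod_univ]
    exact subset_univ _

lemma exists_not_mem : ∃ τ : ℝ, psi τ ∉ HamC MM OO := by
  by_contra hcon
  push Not at hcon
  have h1 : {τ : ℝ | psi τ ∈ HamC MM OO} = univ := by
    ext τ
    simp only [mem_setOf_eq, mem_univ, iff_true]
    exact hcon τ
  exact Cardinal.not_countable_real (h1 ▸ countable_all)

theorem main : ∃ (M : Set (ℂ × ℂ)) (Ω : ℂ × ℂ → ℂ × ℂ →L[ℝ] ℂ × ℂ →L[ℝ] ℝ),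
    SymplecticOn M Ω ∧ IsConnected M ∧
    ∃ K ⊆ M, IsCompact K ∧ ∃ ψ ∈ SympC0 M Ω, ψ ∉ HamC M Ω ∧ (∀ x ∈ M, x ∉ K → ψ x = x) ∧
      ∃ φ : ℕ → ℂ × ℂ → ℂ × ℂ,
        (∀ j, φ j ∈ HamC M Ω ∧ φ j ∈ SympC0 M Ω ∧ ∀ x ∈ M, x ∉ K → φ j x = x) ∧
        TendstoUniformlyOn φ ψ atTop M := by
  obtain ⟨τ, hτ⟩ := exists_not_mem
  obtain ⟨k₁, k₂, hk⟩ := dense_periods τ
  refine ⟨MM, OO, symplectic_MM, isConnected_MM, KK, KK_sub, isCompact_KK, psi τ,
    psi_mem_SympC0 τ, hτ, fun x _ hx => psi_off τ hx,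
    fun j => psi ((k₁ j : ℝ) - k₂ j * Real.sqrt 2), ?_, psi_tendsto hk⟩
  intro j
  exact ⟨psi_mem_HamC _ _, psi_mem_SympC0 _, fun x _ hx => psi_off _ hx⟩

end Pool.Agent.Helper700
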